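import Mathlib

/-!
# ISO by rows: growth of a trigonometric polynomial (Bernstein - Walsh)

* `prod_erase_abs`: `∏_{j ≠ i} |i - j| = i! (D - i)!`;
* **`poly_bw`**: a polynomial of degree `≤ D`, bounded by `A` at the `D + 1` equidistant points of a
  segment `[a, b]`, is bounded by `A (2 e ρ / |b - a|)^D` at a point whose distance to these points is
  at most `ρ`;
* **`trig_bw`**: `f x = exp (-(I α x)) p (exp (I β x))`, bounded by `A` on the vertical segment
  `x₀ + i s`, `s₁ ≤ s ≤ s₁ + 1 / β`, is bounded by `A exp (2 |α| / β) 33 ^ D` on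
  `|Im x - s₁| ≤ 1 / β`.
-/

set_option autoImplicit false

open Complex Set Finset Polynomial

noncomputable section

namespace ISR

theorem prod_erase_abs {D i : ℕ} (hi : i ≤ D) :
    ∏ j ∈ (Finset.range (D + 1)).erase i, |(i : ℝ) - j| = (i.factorial : ℝ) * (D - i).factorial := by
  induction D, hi using Nat.le_induction with
  | base =>
    have e : (Finset.range (i + 1)).erase i = Finset.range i := by
      rw [Finset.range_add_one, Finset.erase_insert Finset.notMem_range_self]
    rw [e, Nat.sub_self, Nat.factorial_zero, Nat.cast_one, mul_one]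
    have h1 : ∀ j ∈ Finset.range i, |(i : ℝ) - j| = ((i - 1 - j + 1 : ℕ) : ℝ) := by
      intro j hj
      have hj' := Finset.mem_range.1 hj
      rw [abs_of_nonneg (by
        have : (j : ℝ) < i := by exact_mod_cast hj'
        linarith)]
      have : i - 1 - j + 1 = i - j := by omega
      rw [this, Nat.cast_sub hj'.le]
    rw [Finset.prod_congr rfl h1, Finset.prod_range_reflect (fun k => ((k + 1 : ℕ) : ℝ)) i]
    rw [← Finset.prod_range_add_one_eq_factorial]
    push_cast
    rfl
  | succ D hD ih =>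
    have e : (Finset.range (D + 1 + 1)).erase i = insert (D + 1) ((Finset.range (D + 1)).erase i) := by
      rw [Finset.range_add_one, Finset.erase_insert_of_ne (by omega)]
    rw [e, Finset.prod_insert (by simp), ih]
    have h1 : |(i : ℝ) - ((D + 1 : ℕ) : ℝ)| = ((D + 1 - i : ℕ) : ℝ) := by
      rw [abs_of_nonpos (by
        have : (i : ℝ) ≤ D := by exact_mod_cast hD
        push_cast
        linarith), Nat.cast_sub (by omega)]
      push_cast
      ring
    rw [h1]
    have h2 : D + 1 - i = (D - i) + 1 := by omega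
    rw [h2, Nat.factorial_succ]
    push_cast
    ring

theorem sum_inv_fact (D : ℕ) :
    ∑ j ∈ Finset.range (D + 1), ((j.factorial : ℝ) * (D - j).factorial)⁻¹ =
      2 ^ D / (D.factorial : ℝ) := by
  have h0 : (D.factorial : ℝ) ≠ 0 := by exact_mod_cast (Nat.factorial_pos D).ne'
  rw [eq_div_iff h0, Finset.sum_mul]
  have h1 : ∀ j ∈ Finset.range (D + 1), ((j.factorial : ℝ) * (D - j).factorial)⁻¹ * D.factorial =
      (D.choose j : ℝ) := by
    intro j hj
    have hj' : j ≤ D := Nat.lt_succ_iff.1 (Finset.mem_range.1 hj)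
    rw [Nat.cast_choose ℝ hj']
    ring
  rw [Finset.sum_congr rfl h1]
  have := Nat.sum_range_choose D
  exact_mod_cast this

/-- **Bernstein - Walsh on a segment**, crude constant -/
theorem poly_bw {p : ℂ[X]} {D : ℕ} (hD : 1 ≤ D) (hp : p.natDegree ≤ D) {a b z : ℂ} (hab : a ≠ b)
    {A ρ : ℝ} (hA : ∀ j ≤ D, ‖p.eval (a + (b - a) * (j / D))‖ ≤ A)
    (hρ : ∀ j ≤ D, ‖z - (a + (b - a) * (j / D))‖ ≤ ρ) :
    ‖p.eval z‖ ≤ A * (2 * Real.exp 1 * ρ / ‖b - a‖) ^ D := by
  classical
  have hD0 : (0 : ℝ) < D := by exact_mod_cast hD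
  have hDc : (D : ℂ) ≠ 0 := by exact_mod_cast hD0.ne'
  have hba : 0 < ‖b - a‖ := norm_pos_iff.2 (sub_ne_zero.2 hab.symm)
  have hρ0 : 0 ≤ ρ := (norm_nonneg _).trans (hρ 0 (Nat.zero_le _))
  have hA0 : 0 ≤ A := (norm_nonneg _).trans (hA 0 (Nat.zero_le _))
  let v : ℕ → ℂ := fun j => a + (b - a) * (j / D)
  have hvd : ∀ i j : ℕ, v i - v j = (b - a) * (((i : ℝ) - j : ℝ) / D : ℂ) := by
    intro i j
    show (a + (b - a) * (i / D)) - (a + (b - a) * (j / D)) = _
    push_cast
    ring
  have hvn : ∀ i j : ℕ, ‖v i - v j‖ = ‖b - a‖ * (|(i : ℝ) - j| / D) := by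
    intro i j
    rw [hvd, norm_mul, norm_div, Complex.norm_real, Real.norm_eq_abs, Complex.norm_natCast]
  have hinj : Set.InjOn v (Finset.range (D + 1) : Set ℕ) := by
    intro i _ j _ hij
    have h1 := hvn i j
    rw [hij, sub_self, norm_zero] at h1
    have h2 : |(i : ℝ) - j| / D = 0 := by
      rcases mul_eq_zero.1 h1.symm with h | h
      · exact absurd h hba.ne'
      · exact h
    have h3 : |(i : ℝ) - j| = 0 := by
      rcases div_eq_zero_iff.1 h2 with h | h
      · exact h
      · exact absurd h hD0.ne'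
    have h4 : (i : ℝ) = j := by
      have := abs_eq_zero.1 h3
      linarith
    exact_mod_cast h4
  have hdeg : p.degree < (Finset.range (D + 1)).card := by
    rw [Finset.card_range]
    refine lt_of_le_of_lt Polynomial.degree_le_natDegree ?_
    exact_mod_cast Nat.lt_succ_of_le hp
  have hint := Lagrange.eq_interpolate (s := Finset.range (D + 1)) (v := v) (f := p) hinj hdeg
  have hev : p.eval z = ∑ i ∈ Finset.range (D + 1), p.eval (v i) *
      (Lagrange.basis (Finset.range (D + 1)) v i).eval z := by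
    conv_lhs => rw [hint]
    rw [Lagrange.interpolate_apply, Polynomial.eval_finsetSum]
    refine Finset.sum_congr rfl fun i _ => ?_
    rw [Polynomial.eval_mul, Polynomial.eval_C]
  have hb : ∀ i ∈ Finset.range (D + 1), ‖(Lagrange.basis (Finset.range (D + 1)) v i).eval z‖ ≤
      (ρ * D / ‖b - a‖) ^ D * ((i.factorial : ℝ) * (D - i).factorial)⁻¹ := by
    intro i hi
    have hi' : i ≤ D := Nat.lt_succ_iff.1 (Finset.mem_range.1 hi)
    rw [Lagrange.basis, Polynomial.eval_prod, norm_prod]
    have h1 : ∀ j ∈ (Finset.range (D + 1)).erase i,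
        ‖(Lagrange.basisDivisor (v i) (v j)).eval z‖ ≤ (ρ * D / ‖b - a‖) * |(i : ℝ) - j|⁻¹ := by
      intro j hj
      have hj1 : j ≠ i := Finset.ne_of_mem_erase hj
      have hj2 : j ≤ D := Nat.lt_succ_iff.1 (Finset.mem_range.1 (Finset.mem_of_mem_erase hj))
      rw [Lagrange.basisDivisor]
      simp only [Polynomial.eval_mul, Polynomial.eval_C, Polynomial.eval_sub, Polynomial.eval_X]
      rw [norm_mul, norm_inv, hvn]
      have h3 : 0 < |(i : ℝ) - j| := by
        rw [abs_pos, sub_ne_zero]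
        exact_mod_cast hj1.symm
      calc (‖b - a‖ * (|(i : ℝ) - j| / D))⁻¹ * ‖z - v j‖
          ≤ (‖b - a‖ * (|(i : ℝ) - j| / D))⁻¹ * ρ :=
            mul_le_mul_of_nonneg_left (hρ j hj2) (by positivity)
        _ = _ := by
            field_simp
    have h2 : ((Finset.range (D + 1)).erase i).card = D := by
      rw [Finset.card_erase_of_mem hi, Finset.card_range]
      rfl
    calc ∏ j ∈ (Finset.range (D + 1)).erase i, ‖(Lagrange.basisDivisor (v i) (v j)).eval z‖
        ≤ ∏ j ∈ (Finset.range (D + 1)).erase i, ((ρ * D / ‖b - a‖) * |(i : ℝ) - j|⁻¹) :=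
          Finset.prod_le_prod (fun _ _ => norm_nonneg _) h1
      _ = _ := by
          rw [Finset.prod_mul_distrib, Finset.prod_const, h2, Finset.prod_inv_distrib,
            prod_erase_abs hi']
  rw [hev]
  calc ‖∑ i ∈ Finset.range (D + 1), p.eval (v i) *
        (Lagrange.basis (Finset.range (D + 1)) v i).eval z‖
      ≤ ∑ i ∈ Finset.range (D + 1), A *
        ((ρ * D / ‖b - a‖) ^ D * ((i.factorial : ℝ) * (D - i).factorial)⁻¹) := by
        refine (norm_sum_le _ _).trans (Finset.sum_le_sum fun i hi => ?_)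
        rw [norm_mul]
        exact mul_le_mul (hA i (Nat.lt_succ_iff.1 (Finset.mem_range.1 hi))) (hb i hi)
          (norm_nonneg _) hA0
    _ = A * ((ρ * D / ‖b - a‖) ^ D * (2 ^ D / D.factorial)) := by
        rw [← Finset.mul_sum, ← Finset.mul_sum, sum_inv_fact]
    _ = A * ((2 * ρ / ‖b - a‖) ^ D * ((D : ℝ) ^ D / D.factorial)) := by
        congr 1
        have e : ρ * D / ‖b - a‖ = ρ / ‖b - a‖ * D := by ring
        have e' : 2 * ρ / ‖b - a‖ = 2 * (ρ / ‖b - a‖) := by ring
        rw [e, e', mul_pow, mul_pow]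
        ring
    _ ≤ A * ((2 * ρ / ‖b - a‖) ^ D * Real.exp 1 ^ D) := by
        refine mul_le_mul_of_nonneg_left (mul_le_mul_of_nonneg_left ?_ (by positivity)) hA0
        have h5 := Real.pow_div_factorial_le_exp (D : ℝ) hD0.le D
        rw [← Real.exp_nat_mul, mul_one]
        exact h5
    _ = A * (2 * Real.exp 1 * ρ / ‖b - a‖) ^ D := by
        rw [← mul_pow]
        congr 2
        ring

/-- **Bernstein - Walsh for trigonometric polynomials**, vertical segment -/
theorem trig_bw {p : ℂ[X]} {D : ℕ} (hp : p.natDegree ≤ D) {α β A s₁ x₀ : ℝ} (hβ : 0 < β)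
    (hA : ∀ s ∈ Icc s₁ (s₁ + 1 / β), ‖cexp (-(I * α * (x₀ + I * s))) *
      p.eval (cexp (I * β * (x₀ + I * s)))‖ ≤ A) {x : ℂ} (hx : |x.im - s₁| ≤ 1 / β) :
    ‖cexp (-(I * α * x)) * p.eval (cexp (I * β * x))‖ ≤
      A * Real.exp (2 * |α| / β) * 33 ^ D := by
  have hb1 : 0 < 1 / β := by positivity
  have hA0 : 0 ≤ A := (norm_nonneg _).trans (hA s₁ ⟨le_rfl, by linarith⟩)
  -- sizes of the exponentials
  have hn1 : ∀ y : ℂ, ‖cexp (-(I * α * y))‖ = Real.exp (α * y.im) := by
    intro y
    rw [Complex.norm_exp]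
    congr 1
    simp
  have hn2 : ∀ y : ℂ, ‖cexp (I * β * y)‖ = Real.exp (-(β * y.im)) := by
    intro y
    rw [Complex.norm_exp]
    congr 1
    simp
  -- the polynomial on the segment
  have hP : ∀ s ∈ Icc s₁ (s₁ + 1 / β), ‖p.eval (cexp (I * β * (x₀ + I * s)))‖ ≤
      A * Real.exp (-(α * s)) := by
    intro s hs
    have h1 := hA s hs
    rw [norm_mul, hn1] at h1
    have h2 : ((x₀ : ℂ) + I * s).im = s := by simp
    rw [h2] at h1
    have h3 : ‖p.eval (cexp (I * β * (x₀ + I * s)))‖ = Real.exp (-(α * s)) *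
        (Real.exp (α * s) * ‖p.eval (cexp (I * β * (x₀ + I * s)))‖) := by
      rw [← mul_assoc, ← Real.exp_add]
      simp
    rw [h3, mul_comm A]
    exact mul_le_mul_of_nonneg_left h1 (Real.exp_pos _).le
  have hαs : ∀ s ∈ Icc s₁ (s₁ + 1 / β), Real.exp (-(α * s)) ≤
      Real.exp (-(α * x.im)) * Real.exp (2 * |α| / β) := by
    intro s hs
    rw [← Real.exp_add, Real.exp_le_exp]
    have h1 : |x.im - s| ≤ 2 / β := by
      have h2 := abs_le.1 hx
      rw [abs_le]
      have e : 2 / β = 1 / β + 1 / β := by ring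
      constructor <;> [linarith [hs.1, hs.2, h2.1]; linarith [hs.1, hs.2, h2.2]]
    have h3 : α * (x.im - s) ≤ |α| * (2 / β) := by
      calc α * (x.im - s) ≤ |α * (x.im - s)| := le_abs_self _
        _ = |α| * |x.im - s| := abs_mul _ _
        _ ≤ _ := mul_le_mul_of_nonneg_left h1 (abs_nonneg _)
    have e2 : 2 * |α| / β = |α| * (2 / β) := by ring
    rw [e2]
    linarith
  rw [norm_mul, hn1]
  -- reduction to a bound of `p`
  suffices hmain : ‖p.eval (cexp (I * β * x))‖ ≤
      A * (Real.exp (-(α * x.im)) * Real.exp (2 * |α| / β)) * 33 ^ D by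
    calc Real.exp (α * x.im) * ‖p.eval (cexp (I * β * x))‖
        ≤ Real.exp (α * x.im) *
          (A * (Real.exp (-(α * x.im)) * Real.exp (2 * |α| / β)) * 33 ^ D) :=
          mul_le_mul_of_nonneg_left hmain (Real.exp_pos _).le
      _ = (Real.exp (α * x.im) * Real.exp (-(α * x.im))) * (A * Real.exp (2 * |α| / β) * 33 ^ D) := by
          ring
      _ = _ := by
          rw [← Real.exp_add]
          simp
  rcases Nat.eq_zero_or_pos D with hD | hD
  · subst hD
    have hc : p = Polynomial.C (p.coeff 0) := Polynomial.eq_C_of_natDegree_le_zero hp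
    have h1 := hP s₁ ⟨le_rfl, by linarith⟩
    rw [hc, Polynomial.eval_C] at h1 ⊢
    rw [pow_zero, mul_one]
    exact h1.trans (mul_le_mul_of_nonneg_left (hαs s₁ ⟨le_rfl, by linarith⟩) hA0)
  · have hD' : (0 : ℝ) < D := by exact_mod_cast hD
    -- the segment
    set E : ℂ := cexp (I * β * x₀) with hE
    have hEn : ‖E‖ = 1 := by
      rw [hE, hn2]
      simp
    set a : ℂ := E * (Real.exp (-(β * s₁)) : ℝ) with ha
    set b : ℂ := E * (Real.exp (-(β * s₁) - 1) : ℝ) with hb
    have hba : ‖b - a‖ = Real.exp (-(β * s₁)) * (1 - Real.exp (-1)) := by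
      rw [ha, hb, ← mul_sub, norm_mul, hEn, one_mul, ← Complex.ofReal_sub, Complex.norm_real,
        Real.norm_eq_abs, abs_sub_comm, abs_of_nonneg (by
          rw [sub_nonneg, Real.exp_le_exp]
          linarith)]
      rw [sub_eq_add_neg (-(β * s₁)) 1, Real.exp_add]
      ring
    have he1 : Real.exp (-1) < 1 / 2 := by
      have := Real.exp_neg_one_lt_d9
      linarith
    have hba0 : 0 < ‖b - a‖ := by
      rw [hba]
      exact mul_pos (Real.exp_pos _) (by linarith)
    have hab : a ≠ b := by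
      intro h
      rw [h, sub_self, norm_zero] at hba0
      exact lt_irrefl _ hba0
    -- the nodes are images of points of the segment
    have hnode : ∀ j ≤ D, ∃ s ∈ Icc s₁ (s₁ + 1 / β),
        a + (b - a) * ((j : ℂ) / D) = cexp (I * β * (x₀ + I * s)) := by
      intro j hj
      set τ : ℝ := (j : ℝ) / D with hτ
      have hτ0 : 0 ≤ τ := by positivity
      have hτ1 : τ ≤ 1 := by
        rw [hτ, div_le_one hD']
        exact_mod_cast hj
      set y : ℝ := 1 - τ * (1 - Real.exp (-1)) with hy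
      have hy1 : Real.exp (-1) ≤ y := by
        rw [hy]
        nlinarith
      have hy2 : y ≤ 1 := by
        rw [hy]
        nlinarith
      have hy0 : 0 < y := lt_of_lt_of_le (Real.exp_pos _) hy1
      refine ⟨s₁ - Real.log y / β, ⟨?_, ?_⟩, ?_⟩
      · have h1 : Real.log y ≤ 0 := Real.log_nonpos hy0.le hy2
        have h2 : Real.log y / β ≤ 0 := div_nonpos_of_nonpos_of_nonneg h1 hβ.le
        linarith
      · have h1 : -1 ≤ Real.log y := by
          rw [← Real.log_exp (-1)]
          exact Real.log_le_log (Real.exp_pos _) hy1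
        have h2 : -1 / β ≤ Real.log y / β := div_le_div_of_nonneg_right h1 hβ.le
        have e : -1 / β = -(1 / β) := by ring
        rw [e] at h2
        linarith
      · have e1 : I * (β : ℂ) * ((x₀ : ℂ) + I * ((s₁ - Real.log y / β : ℝ) : ℂ)) =
            I * β * x₀ + ((-(β * s₁) + Real.log y : ℝ) : ℂ) := by
          have hβc : (β : ℂ) ≠ 0 := by exact_mod_cast hβ.ne'
          push_cast
          field_simp
          linear_combination (-(β : ℂ) * (β * s₁ - (Real.log y : ℂ)) * 0 + (β * s₁ - (Real.log y : ℂ))) * I_sq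
        rw [e1, Complex.exp_add, ← hE, ← Complex.ofReal_exp, Real.exp_add, Real.exp_log hy0, ha, hb]
        have e2 : ((j : ℂ) / D) = ((τ : ℝ) : ℂ) := by
          rw [hτ]
          push_cast
          rfl
        have e3 : Real.exp (-(β * s₁) - 1) = Real.exp (-(β * s₁)) * Real.exp (-1) := by
          rw [← Real.exp_add]
          congr 1
        rw [e2, e3, hy]
        push_cast
        ring
    have hρ : ∀ j ≤ D, ‖cexp (I * β * x) - (a + (b - a) * ((j : ℂ) / D))‖ ≤
        Real.exp (-(β * s₁)) * (Real.exp 1 + 1) := by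
      intro j hj
      obtain ⟨s, hs, h1⟩ := hnode j hj
      rw [h1]
      refine (norm_sub_le _ _).trans ?_
      rw [hn2, hn2]
      have h2 : ((x₀ : ℂ) + I * s).im = s := by simp
      rw [h2]
      have h3 : Real.exp (-(β * x.im)) ≤ Real.exp (-(β * s₁)) * Real.exp 1 := by
        rw [← Real.exp_add, Real.exp_le_exp]
        have h4 := (abs_le.1 hx).1
        have h5 : β * (1 / β) = 1 := by field_simp
        nlinarith
      have h6 : Real.exp (-(β * s)) ≤ Real.exp (-(β * s₁)) := by
        rw [Real.exp_le_exp]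
        nlinarith [hs.1]
      calc _ ≤ Real.exp (-(β * s₁)) * Real.exp 1 + Real.exp (-(β * s₁)) := add_le_add h3 h6
        _ = _ := by ring
    have hAn : ∀ j ≤ D, ‖p.eval (a + (b - a) * ((j : ℂ) / D))‖ ≤
        A * (Real.exp (-(α * x.im)) * Real.exp (2 * |α| / β)) := by
      intro j hj
      obtain ⟨s, hs, h1⟩ := hnode j hj
      rw [h1]
      exact (hP s hs).trans (mul_le_mul_of_nonneg_left (hαs s hs) hA0)
    have hmain := poly_bw hD hp hab hAn hρ
    refine hmain.trans ?_
    refine mul_le_mul_of_nonneg_left (pow_le_pow_left₀ (by positivity) ?_ D)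
      (mul_nonneg hA0 (mul_pos (Real.exp_pos _) (Real.exp_pos _)).le)
    rw [div_le_iff₀ hba0, hba]
    have h1 := Real.exp_one_lt_d9
    have h2 := Real.exp_neg_one_lt_d9
    have h3 := Real.exp_one_gt_d9
    have h4 : 0 < Real.exp (-(β * s₁)) := Real.exp_pos _
    have h5 : 2 * Real.exp 1 * (Real.exp 1 + 1) ≤ 33 * (1 - Real.exp (-1)) := by nlinarith
    nlinarith [mul_le_mul_of_nonneg_left h5 h4.le]

end ISR
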