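import Pool.Agent.PB.ForceK

/-!
# ISO by rows, far zone: the factors of a row beyond the line `A` (helper96)

`rO v = 1/(sin v sin (v - 2l))` (own group), `rC v = sin (v + 3l) ^ 2` (other group), `v = u - x`, `rwF = rO * rC`;
`q4 = 4 q` the pair weight of two quanta of the same group, `g4 = qg/4` of the two groups.

A quantum caught at the row (`u = x`) turns the row `x` into the signed plain rows `+(x - l), -(x - 2l)`
(`rO_q1`, `rC_g1`), two quanta caught at `x`, `x - l` turn it into the deleted row `-(x - 3l)` (`rO_q2`, `rC_g2`),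
with the constants `-4`, `1/4`, `16`, `1/16`; mirror (`x + 2l`, `x + 3l`): `rO_p1` etc.
-/

set_option autoImplicit false

noncomputable section

open Complex

namespace ISR

open NUP1 NUP1.Bd NUP1S PB PBForce

lemma l4' : (4 * (l : ℂ)) = Real.pi / 2 := l4c

/-- own factor of a row -/
def rO (v : ℂ) : ℂ := 1 / (sin v * sin (v - 2 * l))

/-- cross factor of a row -/
def rC (v : ℂ) : ℂ := sin (v + 3 * l) ^ 2

lemma rwF_eq (v : ℂ) : rwF v = rO v * rC v := by
  unfold rwF rO rC
  rw [one_div_mul_one_div]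

/-- symmetry of the own factor -/
lemma rO_symm (v : ℂ) : rO (2 * l - v) = rO v := by
  unfold rO
  rw [show (2 * l - v - 2 * l : ℂ) = -v by ring, show (2 * l - v : ℂ) = -(v - 2 * l) by ring, sin_neg, sin_neg]
  congr 1
  ring

lemma rC_symm (v : ℂ) : rC (2 * l - v) = rC v := by
  unfold rC
  have e : (2 * l - v + 3 * l : ℂ) = Real.pi - (v + 3 * l) := by
    linear_combination 2 * l4'
  rw [e, sin_pi_sub]

lemma rwF_symm (v : ℂ) : rwF (2 * l - v) = rwF v := by
  rw [rwF_eq, rwF_eq, rO_symm, rC_symm]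

lemma q_even (v : ℂ) : q (-v) = q v := by
  unfold q
  rw [show (-v + l : ℂ) = -(v - l) by ring, show (-v - l : ℂ) = -(v + l) by ring,
    show (-v + 2 * l : ℂ) = -(v - 2 * l) by ring, show (-v - 2 * l : ℂ) = -(v + 2 * l) by ring]
  simp only [sin_neg]
  congr 1 <;> ring

lemma qg_even (v : ℂ) : qg (-v) = qg v := by
  unfold qg
  rw [show (-v + 3 * l : ℂ) = -(v - 3 * l) by ring, show (-v - 3 * l : ℂ) = -(v + 3 * l) by ring, cos_neg]
  simp only [sin_neg]
  congr 1
  ring

lemma sin_p4 (v : ℂ) : sin (v + 4 * l) = cos v := by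
  rw [show (v + 4 * l : ℂ) = v + Real.pi / 2 by rw [l4'], sin_add_pi_div_two]

lemma sin_p8 (v : ℂ) : sin (v + 8 * l) = -sin v := by
  rw [show (v + 8 * l : ℂ) = v + Real.pi by linear_combination 2 * l4', sin_add_pi]

/-- one caught quantum, own group -/
theorem rO_q1 {v : ℂ} (h : Gen v) : rO v * (4 * q v) = -4 * (rO (v + l) / rO (v + 2 * l)) := by
  have h0 := h 0
  have h1 := h 1
  have h1' := h (-1)
  have h2 := h 2
  have h2' := h (-2)
  push_cast at h0 h1 h1' h2 h2'
  rw [zero_mul, add_zero] at h0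
  rw [one_mul] at h1
  rw [show v + -1 * (l : ℂ) = v - l by ring] at h1'
  rw [show v + -2 * (l : ℂ) = v - 2 * l by ring] at h2'
  unfold rO q
  rw [show (v + l - 2 * l : ℂ) = v - l by ring, show (v + 2 * l - 2 * l : ℂ) = v by ring]
  field_simp

/-- one caught quantum, other group -/
theorem rC_g1 {v : ℂ} (h : Gen v) : rC v * (qg v / 4) = 1 / 4 * (rC (v + l) / rC (v + 2 * l)) := by
  have h3 := h 3
  have h3' := h (-3)
  push_cast at h3 h3'
  rw [show v + -3 * (l : ℂ) = v - 3 * l by ring] at h3'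
  unfold rC qg
  rw [show (v + l + 3 * l : ℂ) = v + 4 * l by ring, sin_p4,
    show (v + 2 * l + 3 * l : ℂ) = (v - 3 * l) + 8 * l by ring, sin_p8]
  field_simp

/-- two caught quanta, own group: the deleted row -/
theorem rO_q2 {v : ℂ} (h : Gen v) : rO v * (4 * q v) * (4 * q (v + l)) = 16 / rO (v + 3 * l) := by
  have h0 := h 0
  have h1 := h 1
  have h1' := h (-1)
  have h2 := h 2
  have h2' := h (-2)
  have h3 := h 3
  push_cast at h0 h1 h1' h2 h2' h3
  rw [zero_mul, add_zero] at h0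
  rw [one_mul] at h1
  rw [show v + -1 * (l : ℂ) = v - l by ring] at h1'
  rw [show v + -2 * (l : ℂ) = v - 2 * l by ring] at h2'
  unfold rO q
  rw [show (v + l - 2 * l : ℂ) = v - l by ring, show (v + l + 2 * l : ℂ) = v + 3 * l by ring,
    show (v + l + l : ℂ) = v + 2 * l by ring, show (v + l - l : ℂ) = v by ring,
    show (v + 3 * l - 2 * l : ℂ) = v + l by ring]
  field_simp
  ring

/-- two caught quanta, other group: the deleted row -/
theorem rC_g2 {v : ℂ} (h : Gen v) : rC v * (qg v / 4) * (qg (v + l) / 4) = 1 / (16 * rC (v + 3 * l)) := by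
  have h3 := h 3
  have h3' := h (-3)
  have h4 := h 4
  have h2' := h (-2)
  have h6 := h 6
  have hc := h.cos
  push_cast at h3 h3' h4 h2' h6
  rw [show v + -3 * (l : ℂ) = v - 3 * l by ring] at h3'
  rw [show v + -2 * (l : ℂ) = v - 2 * l by ring] at h2'
  have e6 : sin (v + 6 * l) = -sin (v - 2 * l) := by
    rw [show (v + 6 * l : ℂ) = (v - 2 * l) + 8 * l by ring, sin_p8]
  have ec : cos (v + l) = -sin (v - 3 * l) := by
    rw [← sin_p4, show (v + l + 4 * l : ℂ) = (v - 3 * l) + 8 * l by ring, sin_p8]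
  unfold rC qg
  rw [show (v + l + 3 * l : ℂ) = v + 4 * l by ring, sin_p4, show (v + l - 3 * l : ℂ) = v - 2 * l by ring,
    show (v + 3 * l + 3 * l : ℂ) = v + 6 * l by ring, e6, ec]
  field_simp
  ring

/-! ### mirror: quanta caught at `x + 2l`, `x + 3l` -/

lemma Gen.mir {v : ℂ} (h : Gen v) : Gen (2 * l - v) := fun j => by
  have := h (-j - 2)
  push_cast at this
  rw [show (2 * l - v + j * l : ℂ) = -(v + (-j - 2) * l) by ring, sin_neg]
  exact neg_ne_zero.2 this

theorem rO_p1 {v : ℂ} (h : Gen v) : rO v * (4 * q (v - 2 * l)) = -4 * (rO (v - l) / rO (v - 2 * l)) := by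
  have := rO_q1 (Gen.mir h)
  rw [rO_symm, show (2 * l - v : ℂ) = -(v - 2 * l) by ring, q_even,
    show (-(v - 2 * l) + l : ℂ) = 2 * l - (v - l) by ring, rO_symm,
    show (-(v - 2 * l) + 2 * l : ℂ) = 2 * l - (v - 2 * l) by ring, rO_symm] at this
  exact this

theorem rC_f1 {v : ℂ} (h : Gen v) : rC v * (qg (v - 2 * l) / 4) = 1 / 4 * (rC (v - l) / rC (v - 2 * l)) := by
  have := rC_g1 (Gen.mir h)
  rw [rC_symm, show (2 * l - v : ℂ) = -(v - 2 * l) by ring, qg_even,
    show (-(v - 2 * l) + l : ℂ) = 2 * l - (v - l) by ring, rC_symm,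
    show (-(v - 2 * l) + 2 * l : ℂ) = 2 * l - (v - 2 * l) by ring, rC_symm] at this
  exact this

theorem rO_p2 {v : ℂ} (h : Gen v) : rO v * (4 * q (v - 2 * l)) * (4 * q (v - 3 * l)) = 16 / rO (v - 3 * l) := by
  have := rO_q2 (Gen.mir h)
  rw [rO_symm, show (2 * l - v : ℂ) = -(v - 2 * l) by ring, q_even,
    show (-(v - 2 * l) + l : ℂ) = -(v - 3 * l) by ring, q_even,
    show (-(v - 2 * l) + 3 * l : ℂ) = 2 * l - (v - 3 * l) by ring, rO_symm] at this
  exact this

theorem rC_f2 {v : ℂ} (h : Gen v) :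
    rC v * (qg (v - 2 * l) / 4) * (qg (v - 3 * l) / 4) = 1 / (16 * rC (v - 3 * l)) := by
  have := rC_g2 (Gen.mir h)
  rw [rC_symm, show (2 * l - v : ℂ) = -(v - 2 * l) by ring, qg_even,
    show (-(v - 2 * l) + l : ℂ) = -(v - 3 * l) by ring, qg_even,
    show (-(v - 2 * l) + 3 * l : ℂ) = 2 * l - (v - 3 * l) by ring, rC_symm] at this
  exact this

end ISR
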