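import Pool.Agent.NUSea.HMF3
import Pool.Agent.NUMFH.Ath

/-!
# The mean field inequality of the far row

A row `x`, `11/5 l ≤ Re x ≤ 16/5 l`, of one list.  State `k` = number of quanta caught by the row
(`u = x`, then also `u = x - l`).  `own k (u - x)`, `crs k (u - x)`: modulus of the factor of row and caught
quanta on a free quantum `u` of the own / of the other list (line `Re u = l`).  `dr y`: inverse of the factor
on a quantum at `y` of one row `0` of each list.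

* `T1`, `T0` (rows `0`), `T1h`, `T0h` (a pair of rows `± l / 2`): state `1` is smaller than state `2`
  by `exp (- (1/5) / ch)` per row, state `0` is not larger than state `1`.
-/

set_option autoImplicit false
set_option linter.unusedVariables false

open MeasureTheory Set Filter Topology Complex

namespace FarMF

open NUMF (l l_pos h H P Ag zj mf ch)

noncomputable section

/-! ### the factors -/

/-- factor on the free quanta of the own list -/
def own : ℕ → ℂ → ℝ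
  | 0, v => 1 / (‖sin v‖ * ‖sin (v - 2 * l)‖)
  | 1, v => ‖sin v‖ * ‖sin (v + 2 * l)‖ / (‖sin (v - l)‖ * ‖sin (v + l)‖)
  | _, v => ‖sin (v + l)‖ * ‖sin (v + 3 * l)‖

/-- factor on the free quanta of the other list -/
def crs : ℕ → ℂ → ℝ
  | 0, v => ‖sin (v + 3 * l)‖ ^ 2
  | 1, v => ‖cos v‖ ^ 2 / ‖sin (v - 3 * l)‖ ^ 2
  | _, v => 1 / ‖sin (v - 2 * l)‖ ^ 2

lemma own0_eq (v : ℂ) : own 0 v = 1 / (‖sin v‖ * ‖sin (v - 2 * l)‖) := rfl
lemma own1_eq (v : ℂ) : own 1 v = ‖sin v‖ * ‖sin (v + 2 * l)‖ / (‖sin (v - l)‖ * ‖sin (v + l)‖) := rfl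
lemma own2_eq (v : ℂ) : own 2 v = ‖sin (v + l)‖ * ‖sin (v + 3 * l)‖ := rfl
lemma crs0_eq (v : ℂ) : crs 0 v = ‖sin (v + 3 * l)‖ ^ 2 := rfl
lemma crs1_eq (v : ℂ) : crs 1 v = ‖cos v‖ ^ 2 / ‖sin (v - 3 * l)‖ ^ 2 := rfl
lemma crs2_eq (v : ℂ) : crs 2 v = 1 / ‖sin (v - 2 * l)‖ ^ 2 := rfl

/-- inverse of the factor of a row `0` of each list on a quantum at `y` -/
def dr (y : ℂ) : ℝ := ‖sin y‖ * ‖sin (y - 2 * l)‖ / ‖sin (y + 3 * l)‖ ^ 2

/-- the quantum of height `s` seen from the row `x` -/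
def vv (x : ℂ) (s : ℝ) : ℂ := (l : ℂ) + s * I - x

lemma vv_eq (e t s : ℝ) : vv (zj (1 + e) t) s = zj (-e) (s - t) := by
  unfold vv zj
  push_cast
  ring

lemma zadd (j t : ℝ) (a : ℝ) : zj j t + (a * l : ℝ) = zj (j + a) t := NUMF.zj_add j t a

/-- `log |sin|` in terms of `h` -/
lemma lsin {j t : ℝ} (hn : sin (zj j t) ≠ 0) : Real.log ‖sin (zj j t)‖ =
    (h t ((4 - j) * l) - Real.log 2) / 2 := by
  have h1 := NUMF.log_norm_sin (x := j * l) (y := t) hn
  rw [show (4 - j) * l = 4 * l - j * l by ring, ← h1]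
  unfold NUMF.zj
  ring

lemma lcos {j t : ℝ} (hn : cos (zj j t) ≠ 0) : Real.log ‖cos (zj j t)‖ =
    (h t (j * l) - Real.log 2) / 2 := by
  have h1 := NUMF.log_norm_cos (x := j * l) (y := t) hn
  rw [← h1]
  unfold NUMF.zj
  ring

lemma log_own0 {e t : ℝ} (ht : t ≠ 0) : Real.log (own 0 (zj (-e) t)) =
    -(h t ((4 + e) * l) + h t ((6 + e) * l)) / 2 + Real.log 2 := by
  have e1 : zj (-e) t - 2 * l = zj (-e - 2) t := by
    rw [show -e - 2 = -e + (-2) by ring, ← zadd]; push_cast; ring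
  have n1 := NUMF.zsin_ne (j := -e) ht
  have n2 := NUMF.zsin_ne (j := -e - 2) ht
  rw [own0_eq]
  rw [e1, Real.log_div one_ne_zero (mul_ne_zero (norm_ne_zero_iff.2 n1) (norm_ne_zero_iff.2 n2)),
    Real.log_one, Real.log_mul (norm_ne_zero_iff.2 n1) (norm_ne_zero_iff.2 n2), lsin n1, lsin n2,
    show (4:ℝ) - -e = 4 + e by ring, show (4:ℝ) - (-e - 2) = 6 + e by ring]
  ring

lemma log_own1 {e t : ℝ} (ht : t ≠ 0) : Real.log (own 1 (zj (-e) t)) =
    (h t ((4 + e) * l) + h t ((2 + e) * l)) / 2 - (h t ((5 + e) * l) + h t ((3 + e) * l)) / 2 := by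
  have e1 : zj (-e) t + 2 * l = zj (-e + 2) t := by rw [← zadd]; push_cast; ring
  have e2 : zj (-e) t - l = zj (-e - 1) t := by
    rw [show -e - 1 = -e + (-1) by ring, ← zadd]; push_cast; ring
  have e3 : zj (-e) t + l = zj (-e + 1) t := by rw [← zadd]; push_cast; ring
  have n1 := NUMF.zsin_ne (j := -e) ht
  have n2 := NUMF.zsin_ne (j := -e + 2) ht
  have n3 := NUMF.zsin_ne (j := -e - 1) ht
  have n4 := NUMF.zsin_ne (j := -e + 1) ht
  rw [own1_eq]
  rw [e1, e2, e3, Real.log_div (mul_ne_zero (norm_ne_zero_iff.2 n1) (norm_ne_zero_iff.2 n2))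
    (mul_ne_zero (norm_ne_zero_iff.2 n3) (norm_ne_zero_iff.2 n4)),
    Real.log_mul (norm_ne_zero_iff.2 n1) (norm_ne_zero_iff.2 n2),
    Real.log_mul (norm_ne_zero_iff.2 n3) (norm_ne_zero_iff.2 n4), lsin n1, lsin n2, lsin n3, lsin n4,
    show (4:ℝ) - -e = 4 + e by ring, show (4:ℝ) - (-e + 2) = 2 + e by ring,
    show (4:ℝ) - (-e - 1) = 5 + e by ring, show (4:ℝ) - (-e + 1) = 3 + e by ring]
  ring

lemma log_own2 {e t : ℝ} (ht : t ≠ 0) : Real.log (own 2 (zj (-e) t)) =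
    (h t ((3 + e) * l) + h t ((1 + e) * l)) / 2 - Real.log 2 := by
  have e1 : zj (-e) t + l = zj (-e + 1) t := by rw [← zadd]; push_cast; ring
  have e2 : zj (-e) t + 3 * l = zj (-e + 3) t := by rw [← zadd]; push_cast; ring
  have n1 := NUMF.zsin_ne (j := -e + 1) ht
  have n2 := NUMF.zsin_ne (j := -e + 3) ht
  rw [own2_eq]
  rw [e1, e2, Real.log_mul (norm_ne_zero_iff.2 n1) (norm_ne_zero_iff.2 n2), lsin n1, lsin n2,
    show (4:ℝ) - (-e + 1) = 3 + e by ring, show (4:ℝ) - (-e + 3) = 1 + e by ring]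
  ring

lemma log_crs0 {e t : ℝ} (ht : t ≠ 0) : Real.log (crs 0 (zj (-e) t)) =
    h t ((1 + e) * l) - Real.log 2 := by
  have e2 : zj (-e) t + 3 * l = zj (-e + 3) t := by rw [← zadd]; push_cast; ring
  have n2 := NUMF.zsin_ne (j := -e + 3) ht
  rw [crs0_eq]
  rw [e2, Real.log_pow, lsin n2, show (4:ℝ) - (-e + 3) = 1 + e by ring]
  push_cast
  ring

lemma log_crs1 {e t : ℝ} (ht : t ≠ 0) : Real.log (crs 1 (zj (-e) t)) =
    h t (e * l) - h t ((7 + e) * l) := by
  have e2 : zj (-e) t - 3 * l = zj (-e - 3) t := by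
    rw [show -e - 3 = -e + (-3) by ring, ← zadd]; push_cast; ring
  have n1 := NUMF.zcos_ne (j := -e) ht
  have n2 := NUMF.zsin_ne (j := -e - 3) ht
  rw [crs1_eq]
  rw [e2, Real.log_div (pow_ne_zero 2 (norm_ne_zero_iff.2 n1)) (pow_ne_zero 2 (norm_ne_zero_iff.2 n2)),
    Real.log_pow, Real.log_pow, lsin n2, lcos n1, show (4:ℝ) - (-e - 3) = 7 + e by ring,
    show -e * l = -(e * l) by ring, NUMF.h_neg_right]
  push_cast
  ring

lemma log_crs2 {e t : ℝ} (ht : t ≠ 0) : Real.log (crs 2 (zj (-e) t)) =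
    -h t ((6 + e) * l) + Real.log 2 := by
  have e2 : zj (-e) t - 2 * l = zj (-e - 2) t := by
    rw [show -e - 2 = -e + (-2) by ring, ← zadd]; push_cast; ring
  have n2 := NUMF.zsin_ne (j := -e - 2) ht
  rw [crs2_eq]
  rw [e2, Real.log_div one_ne_zero (pow_ne_zero 2 (norm_ne_zero_iff.2 n2)), Real.log_one,
    Real.log_pow, lsin n2, show (4:ℝ) - (-e - 2) = 6 + e by ring]
  push_cast
  ring

/-! ### a density -/

section

variable {ρ : ℝ → ℝ}

/-- potential of the density -/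
def Hr (ρ : ℝ → ℝ) (t y : ℝ) : ℝ := ∫ s, ρ s * h (t - s) y

/-- mean of `log own` -/
def MO (ρ : ℝ → ℝ) (k : ℕ) (x : ℂ) : ℝ := ∫ s, ρ s * Real.log (own k (vv x s))

/-- mean of `log crs` -/
def MC (ρ : ℝ → ℝ) (k : ℕ) (x : ℂ) : ℝ := ∫ s, ρ s * Real.log (crs k (vv x s))

lemma ae_sub (t : ℝ) : ∀ᵐ s : ℝ, s - t ≠ 0 := by
  filter_upwards [NUMF.ae_ne t] with s hs
  exact fun h => hs (by linarith)

lemma two_int (hm : ∫ s, ρ s = 1) (hi : Integrable ρ)
    (hI : ∀ t y, Integrable fun s => ρ s * h (t - s) y) (t : ℝ) {f : ℝ → ℝ} (c y1 y2 y3 y4 a1 a2 a3 a4 : ℝ)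
    (hf : ∀ s, s - t ≠ 0 → f s = a1 * h (s - t) y1 + a2 * h (s - t) y2 + a3 * h (s - t) y3 +
      a4 * h (s - t) y4 + c) :
    Integrable (fun s => ρ s * f s) ∧ ∫ s, ρ s * f s =
      a1 * Hr ρ t y1 + a2 * Hr ρ t y2 + a3 * Hr ρ t y3 + a4 * Hr ρ t y4 + c := by
  have j1 := (hI t y1).const_mul a1
  have j2 := (hI t y2).const_mul a2
  have j3 := (hI t y3).const_mul a3
  have j4 := (hI t y4).const_mul a4
  have j5 := hi.const_mul c
  have k2 := j1.add j2
  have k3 := k2.add j3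
  have k4 := k3.add j4
  have k5 := k4.add j5
  have hae : (fun s => ρ s * f s) =ᵐ[volume] fun s => a1 * (ρ s * h (t - s) y1) +
      a2 * (ρ s * h (t - s) y2) + a3 * (ρ s * h (t - s) y3) + a4 * (ρ s * h (t - s) y4) + c * ρ s := by
    filter_upwards [ae_sub t] with s hs
    have e : ∀ y, h (s - t) y = h (t - s) y := fun y => by
      rw [← NUMF.h_neg_left, neg_sub]
    rw [hf s hs]
    simp only [e]
    ring
  refine ⟨k5.congr hae.symm, ?_⟩
  rw [integral_congr_ae hae]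
  have b2 := integral_add j1 j2
  have b3 := integral_add k2 j3
  have b4 := integral_add k3 j4
  have b5 := integral_add k4 j5
  simp only [Pi.add_apply] at b2 b3 b4 b5
  rw [b5, b4, b3, b2, integral_const_mul, integral_const_mul, integral_const_mul, integral_const_mul,
    integral_const_mul, hm, mul_one]
  rfl

variable (hm : ∫ s, ρ s = 1) (hi : Integrable ρ) (hI : ∀ t y, Integrable fun s => ρ s * h (t - s) y)
include hm hi hI

theorem MO0 (e t : ℝ) : Integrable (fun s => ρ s * Real.log (own 0 (vv (zj (1 + e) t) s))) ∧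
    MO ρ 0 (zj (1 + e) t) = -(Hr ρ t ((4 + e) * l) + Hr ρ t ((6 + e) * l)) / 2 + Real.log 2 := by
  obtain ⟨i1, e1⟩ := two_int hm hi hI t (f := fun s => Real.log (own 0 (vv (zj (1 + e) t) s))) (Real.log 2)
    ((4 + e) * l) ((6 + e) * l) 0 0 (-(1 / 2)) (-(1 / 2)) 0 0 (fun s hs => by
      rw [vv_eq, log_own0 hs]
      ring)
  refine ⟨i1, ?_⟩
  unfold MO
  rw [e1]
  ring

theorem MO1 (e t : ℝ) : Integrable (fun s => ρ s * Real.log (own 1 (vv (zj (1 + e) t) s))) ∧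
    MO ρ 1 (zj (1 + e) t) = (Hr ρ t ((4 + e) * l) + Hr ρ t ((2 + e) * l)) / 2 -
      (Hr ρ t ((5 + e) * l) + Hr ρ t ((3 + e) * l)) / 2 := by
  obtain ⟨i1, e1⟩ := two_int hm hi hI t (f := fun s => Real.log (own 1 (vv (zj (1 + e) t) s))) 0
    ((4 + e) * l) ((2 + e) * l) ((5 + e) * l) ((3 + e) * l) (1 / 2) (1 / 2) (-(1 / 2)) (-(1 / 2))
    (fun s hs => by
      rw [vv_eq, log_own1 hs]
      ring)
  refine ⟨i1, ?_⟩
  unfold MO
  rw [e1]
  ring

theorem MO2 (e t : ℝ) : Integrable (fun s => ρ s * Real.log (own 2 (vv (zj (1 + e) t) s))) ∧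
    MO ρ 2 (zj (1 + e) t) = (Hr ρ t ((3 + e) * l) + Hr ρ t ((1 + e) * l)) / 2 - Real.log 2 := by
  obtain ⟨i1, e1⟩ := two_int hm hi hI t (f := fun s => Real.log (own 2 (vv (zj (1 + e) t) s)))
    (-Real.log 2) ((3 + e) * l) ((1 + e) * l) 0 0 (1 / 2) (1 / 2) 0 0
    (fun s hs => by
      rw [vv_eq, log_own2 hs]
      ring)
  refine ⟨i1, ?_⟩
  unfold MO
  rw [e1]
  ring

theorem MC0 (e t : ℝ) : Integrable (fun s => ρ s * Real.log (crs 0 (vv (zj (1 + e) t) s))) ∧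
    MC ρ 0 (zj (1 + e) t) = Hr ρ t ((1 + e) * l) - Real.log 2 := by
  obtain ⟨i1, e1⟩ := two_int hm hi hI t (f := fun s => Real.log (crs 0 (vv (zj (1 + e) t) s)))
    (-Real.log 2) ((1 + e) * l) 0 0 0 1 0 0 0
    (fun s hs => by
      rw [vv_eq, log_crs0 hs]
      ring)
  refine ⟨i1, ?_⟩
  unfold MC
  rw [e1]
  ring

theorem MC1 (e t : ℝ) : Integrable (fun s => ρ s * Real.log (crs 1 (vv (zj (1 + e) t) s))) ∧
    MC ρ 1 (zj (1 + e) t) = Hr ρ t (e * l) - Hr ρ t ((7 + e) * l) := by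
  obtain ⟨i1, e1⟩ := two_int hm hi hI t (f := fun s => Real.log (crs 1 (vv (zj (1 + e) t) s)))
    0 (e * l) ((7 + e) * l) 0 0 1 (-1) 0 0
    (fun s hs => by
      rw [vv_eq, log_crs1 hs]
      ring)
  refine ⟨i1, ?_⟩
  unfold MC
  rw [e1]
  ring

theorem MC2 (e t : ℝ) : Integrable (fun s => ρ s * Real.log (crs 2 (vv (zj (1 + e) t) s))) ∧
    MC ρ 2 (zj (1 + e) t) = -Hr ρ t ((6 + e) * l) + Real.log 2 := by
  obtain ⟨i1, e1⟩ := two_int hm hi hI t (f := fun s => Real.log (crs 2 (vv (zj (1 + e) t) s)))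
    (Real.log 2) ((6 + e) * l) 0 0 0 (-1) 0 0 0
    (fun s hs => by
      rw [vv_eq, log_crs2 hs]
      ring)
  refine ⟨i1, ?_⟩
  unfold MC
  rw [e1]
  ring

end

/-! ### the direct factors -/

lemma log_dr {j t : ℝ} (n1 : sin (zj j t) ≠ 0) (n2 : sin (zj (j - 2) t) ≠ 0) (n3 : sin (zj (j + 3) t) ≠ 0) :
    0 < dr (zj j t) ∧ Real.log (dr (zj j t)) =
      (h t ((4 - j) * l) + h t ((6 - j) * l)) / 2 - h t ((1 - j) * l) := by
  have e1 : zj j t - 2 * l = zj (j - 2) t := by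
    rw [show j - 2 = j + (-2) by ring, ← zadd]; push_cast; ring
  have e2 : zj j t + 3 * l = zj (j + 3) t := by rw [← zadd]; push_cast; ring
  have m1 := norm_pos_iff.2 n1
  have m2 := norm_pos_iff.2 n2
  have m3 := norm_pos_iff.2 n3
  unfold dr
  rw [e1, e2]
  refine ⟨by positivity, ?_⟩
  rw [Real.log_div (by positivity) (by positivity), Real.log_mul m1.ne' m2.ne', Real.log_pow, lsin n1,
    lsin n2, lsin n3, show (4:ℝ) - (j - 2) = 6 - j by ring, show (4:ℝ) - (j + 3) = 1 - j by ring]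
  push_cast
  ring

lemma dr_nonneg (y : ℂ) : 0 ≤ dr y := by
  unfold dr
  positivity


/-! ### closed forms: rows `0` -/

lemma hP (t y : ℝ) : Integrable fun s => P s * h (t - s) y := NUMF.Ph_integrable t y

/-- total mean of the state `k` -/
def MT (ρ : ℝ → ℝ) (k : ℕ) (x : ℂ) : ℝ := MO ρ k x + MC ρ k x

lemma Hr_P (t y : ℝ) : Hr P t y = H t y := rfl

lemma Hr_Ph (t y : ℝ) : Hr NUSea.Ph t y = NUHM.Hh t y := rfl

/-- state `1` against state `2` -/
theorem idA {e t : ℝ} (n1 : sin (zj e t) ≠ 0) (n2 : sin (zj (e - 2) t) ≠ 0) (n3 : sin (zj (e + 3) t) ≠ 0) :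
    Real.log (dr (zj e t)) + (MT P 1 (zj (1 + e) t) - MT P 2 (zj (1 + e) t)) = -mf (e - 1) t := by
  have a1 := (MO1 NUMF.integral_P NUMF.P_integrable hP e t).2
  have a2 := (MO2 NUMF.integral_P NUMF.P_integrable hP e t).2
  have a3 := (MC1 NUMF.integral_P NUMF.P_integrable hP e t).2
  have a4 := (MC2 NUMF.integral_P NUMF.P_integrable hP e t).2
  simp only [Hr_P] at a1 a2 a3 a4
  unfold MT
  rw [(log_dr n1 n2 n3).2, NUMF.mf_eq, a1, a2, a3, a4]
  have r1 := NUMF.H_refl t (4 + e)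
  have r2 := NUMF.H_refl t (2 + e)
  have r3 := NUMF.H_refl t (5 + e)
  have r4 := NUMF.H_refl t (3 + e)
  have r5 := NUMF.H_refl t (7 + e)
  have r6 := NUMF.H_refl t (6 + e)
  have q1 := NUMF.H_neg_right t ((1 - e) * l)
  have q2 := NUMF.H_neg_right t ((2 - e) * l)
  have q3 := NUMF.h_neg_right t ((1 - e) * l)
  rw [show (8:ℝ) - (4 + e) = 4 - e by ring] at r1
  rw [show (8:ℝ) - (2 + e) = 6 - e by ring] at r2
  rw [show (8:ℝ) - (5 + e) = 3 - e by ring] at r3
  rw [show (8:ℝ) - (3 + e) = 5 - e by ring] at r4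
  rw [show (8:ℝ) - (7 + e) = 1 - e by ring] at r5
  rw [show (8:ℝ) - (6 + e) = 2 - e by ring] at r6
  rw [show -((1 - e) * l) = (e - 1) * l by ring] at q1 q3
  rw [show -((2 - e) * l) = (e - 2) * l by ring] at q2
  rw [show (3:ℝ) - (e - 1) = 4 - e by ring, show (5:ℝ) - (e - 1) = 6 - e by ring,
    show (4:ℝ) - (e - 1) = 5 - e by ring, show (2:ℝ) - (e - 1) = 3 - e by ring,
    show (2:ℝ) + (e - 1) = 1 + e by ring, show e - 1 + 1 = e by ring, show e - 1 - 1 = e - 2 by ring]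
  linarith

/-- state `0` against state `1` -/
theorem idB {e t : ℝ} (n1 : sin (zj (1 + e) t) ≠ 0) (n2 : sin (zj (1 + e - 2) t) ≠ 0)
    (n3 : sin (zj (1 + e + 3) t) ≠ 0) :
    Real.log (dr (zj (1 + e) t)) + (MT P 0 (zj (1 + e) t) - MT P 1 (zj (1 + e) t)) = -mf e t := by
  have a1 := (MO0 NUMF.integral_P NUMF.P_integrable hP e t).2
  have a2 := (MO1 NUMF.integral_P NUMF.P_integrable hP e t).2
  have a3 := (MC0 NUMF.integral_P NUMF.P_integrable hP e t).2
  have a4 := (MC1 NUMF.integral_P NUMF.P_integrable hP e t).2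
  simp only [Hr_P] at a1 a2 a3 a4
  unfold MT
  rw [(log_dr n1 n2 n3).2, NUMF.mf_eq, a1, a2, a3, a4]
  have r1 := NUMF.H_refl t (4 + e)
  have r3 := NUMF.H_refl t (5 + e)
  have r4 := NUMF.H_refl t (3 + e)
  have r5 := NUMF.H_refl t (7 + e)
  have r6 := NUMF.H_refl t (6 + e)
  have q1 := NUMF.H_neg_right t ((1 - e) * l)
  have q3 := NUMF.h_neg_right t (e * l)
  rw [show (8:ℝ) - (4 + e) = 4 - e by ring] at r1
  rw [show (8:ℝ) - (5 + e) = 3 - e by ring] at r3
  rw [show (8:ℝ) - (3 + e) = 5 - e by ring] at r4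
  rw [show (8:ℝ) - (7 + e) = 1 - e by ring] at r5
  rw [show (8:ℝ) - (6 + e) = 2 - e by ring] at r6
  rw [show -((1 - e) * l) = (e - 1) * l by ring] at q1
  rw [show (4:ℝ) - (1 + e) = 3 - e by ring, show (6:ℝ) - (1 + e) = 5 - e by ring,
    show (1:ℝ) - (1 + e) = -e by ring, show -e * l = -(e * l) by ring, q3,
    show e + 1 = 1 + e by ring]
  linarith

/-! ### closed forms: a pair of rows `± l / 2` -/

lemma hPh (t y : ℝ) : Integrable fun s => NUSea.Ph s * h (t - s) y := NUHM.Hh_int t y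

/-- mean field weight of a single quantum, rows `± l / 2` -/
def mfh (j t : ℝ) : ℝ := NUHM.mo j t + NUHM.mc j t

theorem idAh {e t : ℝ} (n1 : sin (zj (e + 1 / 2) t) ≠ 0) (n2 : sin (zj (e + 1 / 2 - 2) t) ≠ 0)
    (n3 : sin (zj (e + 1 / 2 + 3) t) ≠ 0) (m1 : sin (zj (e - 1 / 2) t) ≠ 0)
    (m2 : sin (zj (e - 1 / 2 - 2) t) ≠ 0) (m3 : sin (zj (e - 1 / 2 + 3) t) ≠ 0) :
    Real.log (dr (zj (e + 1 / 2) t)) + Real.log (dr (zj (e - 1 / 2) t)) +
      2 * (MT NUSea.Ph 1 (zj (1 + e) t) - MT NUSea.Ph 2 (zj (1 + e) t)) = -2 * mfh (e - 1) t := by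
  have a1 := (MO1 NUHM.Ph_mass NUHM.Ph_integrable hPh e t).2
  have a2 := (MO2 NUHM.Ph_mass NUHM.Ph_integrable hPh e t).2
  have a3 := (MC1 NUHM.Ph_mass NUHM.Ph_integrable hPh e t).2
  have a4 := (MC2 NUHM.Ph_mass NUHM.Ph_integrable hPh e t).2
  simp only [Hr_Ph] at a1 a2 a3 a4
  unfold MT mfh
  rw [(log_dr n1 n2 n3).2, (log_dr m1 m2 m3).2, a1, a2, a3, a4]
  unfold NUHM.mo NUHM.mc NUHM.hh
  have r1 := NUHM.Hh_refl t (4 + e)
  have r2 := NUHM.Hh_refl t (2 + e)
  have r3 := NUHM.Hh_refl t (5 + e)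
  have r4 := NUHM.Hh_refl t (3 + e)
  have r5 := NUHM.Hh_refl t (7 + e)
  have r6 := NUHM.Hh_refl t (6 + e)
  have q1 := NUHM.Hh_neg t ((1 - e) * l)
  have q2 := NUHM.Hh_neg t ((2 - e) * l)
  have q3 := NUMF.h_neg_right t ((1 - (e + 1 / 2)) * l)
  have q4 := NUMF.h_neg_right t ((1 - (e - 1 / 2)) * l)
  rw [show (8:ℝ) - (4 + e) = 4 - e by ring] at r1
  rw [show (8:ℝ) - (2 + e) = 6 - e by ring] at r2
  rw [show (8:ℝ) - (5 + e) = 3 - e by ring] at r3
  rw [show (8:ℝ) - (3 + e) = 5 - e by ring] at r4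
  rw [show (8:ℝ) - (7 + e) = 1 - e by ring] at r5
  rw [show (8:ℝ) - (6 + e) = 2 - e by ring] at r6
  rw [show -((1 - e) * l) = (e - 1) * l by ring] at q1
  rw [show -((2 - e) * l) = (e - 2) * l by ring] at q2
  rw [show -((1 - (e + 1 / 2)) * l) = (e - 1 + 1 / 2) * l by ring] at q3
  rw [show -((1 - (e - 1 / 2)) * l) = (e - 1 - 1 / 2) * l by ring] at q4
  rw [show (3:ℝ) - (e - 1) + 1 / 2 = 4 - (e - 1 / 2) by ring,
    show (3:ℝ) - (e - 1) - 1 / 2 = 4 - (e + 1 / 2) by ring,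
    show (5:ℝ) - (e - 1) + 1 / 2 = 6 - (e - 1 / 2) by ring,
    show (5:ℝ) - (e - 1) - 1 / 2 = 6 - (e + 1 / 2) by ring,
    show (3:ℝ) - (e - 1) = 4 - e by ring, show (5:ℝ) - (e - 1) = 6 - e by ring,
    show (4:ℝ) - (e - 1) = 5 - e by ring, show (2:ℝ) - (e - 1) = 3 - e by ring,
    show (2:ℝ) + (e - 1) = 1 + e by ring, show e - 1 + 1 = e by ring, show e - 1 - 1 = e - 2 by ring]
  linarith

theorem idBh {e t : ℝ} (n1 : sin (zj (1 + e + 1 / 2) t) ≠ 0) (n2 : sin (zj (1 + e + 1 / 2 - 2) t) ≠ 0)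
    (n3 : sin (zj (1 + e + 1 / 2 + 3) t) ≠ 0) (m1 : sin (zj (1 + e - 1 / 2) t) ≠ 0)
    (m2 : sin (zj (1 + e - 1 / 2 - 2) t) ≠ 0) (m3 : sin (zj (1 + e - 1 / 2 + 3) t) ≠ 0) :
    Real.log (dr (zj (1 + e + 1 / 2) t)) + Real.log (dr (zj (1 + e - 1 / 2) t)) +
      2 * (MT NUSea.Ph 0 (zj (1 + e) t) - MT NUSea.Ph 1 (zj (1 + e) t)) = -2 * mfh e t := by
  have a1 := (MO0 NUHM.Ph_mass NUHM.Ph_integrable hPh e t).2
  have a2 := (MO1 NUHM.Ph_mass NUHM.Ph_integrable hPh e t).2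
  have a3 := (MC0 NUHM.Ph_mass NUHM.Ph_integrable hPh e t).2
  have a4 := (MC1 NUHM.Ph_mass NUHM.Ph_integrable hPh e t).2
  simp only [Hr_Ph] at a1 a2 a3 a4
  unfold MT mfh
  rw [(log_dr n1 n2 n3).2, (log_dr m1 m2 m3).2, a1, a2, a3, a4]
  unfold NUHM.mo NUHM.mc NUHM.hh
  have r1 := NUHM.Hh_refl t (4 + e)
  have r3 := NUHM.Hh_refl t (5 + e)
  have r4 := NUHM.Hh_refl t (3 + e)
  have r5 := NUHM.Hh_refl t (7 + e)
  have r6 := NUHM.Hh_refl t (6 + e)
  have q1 := NUHM.Hh_neg t ((1 - e) * l)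
  have q3 := NUMF.h_neg_right t ((e + 1 / 2) * l)
  have q4 := NUMF.h_neg_right t ((e - 1 / 2) * l)
  rw [show (8:ℝ) - (4 + e) = 4 - e by ring] at r1
  rw [show (8:ℝ) - (5 + e) = 3 - e by ring] at r3
  rw [show (8:ℝ) - (3 + e) = 5 - e by ring] at r4
  rw [show (8:ℝ) - (7 + e) = 1 - e by ring] at r5
  rw [show (8:ℝ) - (6 + e) = 2 - e by ring] at r6
  rw [show -((1 - e) * l) = (e - 1) * l by ring] at q1
  rw [show -((e + 1 / 2) * l) = (1 - (1 + e + 1 / 2)) * l by ring] at q3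
  rw [show -((e - 1 / 2) * l) = (1 - (1 + e - 1 / 2)) * l by ring] at q4
  rw [show (4:ℝ) - (1 + e + 1 / 2) = 3 - e - 1 / 2 by ring,
    show (6:ℝ) - (1 + e + 1 / 2) = 5 - e - 1 / 2 by ring,
    show (4:ℝ) - (1 + e - 1 / 2) = 3 - e + 1 / 2 by ring,
    show (6:ℝ) - (1 + e - 1 / 2) = 5 - e + 1 / 2 by ring, show e + 1 = 1 + e by ring]
  linarith


/-! ### lower bounds of the weights -/

open NUMFH (Ath ta Tg)

lemma sin_ge {a : ℝ} (h0 : 0 ≤ a) (h1 : a ≤ 3 / 2) : 2 / 3 * a ≤ Real.sin (ta a) := by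
  have hpi := Real.pi_pos
  have h := Real.mul_le_sin (x := ta a) (by rw [NUMFH.ta_eq]; positivity)
    (by rw [NUMFH.ta_eq]; nlinarith)
  refine le_trans (le_of_eq ?_) h
  rw [NUMFH.ta_eq]
  field_simp

lemma ch_pos (t : ℝ) : 0 < ch t := NUMF.ch_pos t

/-- `Ag a ≥ a / ch` -/
theorem Ag_ge {a : ℝ} (h0 : 0 ≤ a) (h1 : a < 1) (t : ℝ) : a / ch t ≤ Ag a t := by
  have hpi := Real.pi_pos
  have hc := NUMF.one_le_ch t
  have hc0 := ch_pos t
  have hs := sin_ge h0 (by linarith)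
  obtain ⟨p1, -⟩ := NUMFH.sin_pm (ta a)
  have h3 : 3 / 2 ≤ √3 := by
    rw [show (3:ℝ) / 2 = √((3 / 2) ^ 2) by rw [Real.sqrt_sq (by norm_num)]]
    exact Real.sqrt_le_sqrt (by norm_num)
  have hsum : a ≤ Real.sin (ta a + Real.pi / 6) + Real.sin (ta a - Real.pi / 6) := by
    rw [p1]
    nlinarith
  have hy : Real.sin (ta a + Real.pi / 6) < ch t := by
    refine lt_of_lt_of_le (lt_of_le_of_lt (le_abs_self _) (NUMFH.sin_abs_lt ?_)) hc
    rw [NUMFH.ta_eq, abs_lt]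
    constructor <;> nlinarith
  rw [NUMFH.Ag_ath (by rw [abs_of_nonneg h0]; exact h1)]
  unfold NUMFH.Tg
  have key : (Real.sin (ta a + Real.pi / 6) + Real.sin (ta a - Real.pi / 6)) / ch t ≤
      Ath (Real.sin (ta a + Real.pi / 6)) (ch t) + Ath (Real.sin (ta a - Real.pi / 6)) (ch t) := by
    have hta : 0 ≤ ta a := by rw [NUMFH.ta_eq]; positivity
    have hta1 : ta a ≤ Real.pi / 3 := by rw [NUMFH.ta_eq]; nlinarith
    rcases le_or_gt (ta a) (Real.pi / 6) with hh | hh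
    · have e : Real.sin (ta a - Real.pi / 6) = -Real.sin (Real.pi / 6 - ta a) := by
        rw [← Real.sin_neg, neg_sub]
      have h4 : 0 ≤ Real.sin (Real.pi / 6 - ta a) :=
        Real.sin_nonneg_of_nonneg_of_le_pi (by linarith) (by linarith)
      have h5 : Real.sin (Real.pi / 6 - ta a) ≤ Real.sin (ta a + Real.pi / 6) :=
        Real.sin_le_sin_of_le_of_le_pi_div_two (by linarith) (by linarith) (by linarith)
      have h6 := NUMFH.Ath_sub_ge h4 h5 hy
      rw [e, NUMFH.Ath_neg]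
      refine le_trans (le_of_eq ?_) (h6.trans (le_of_eq ?_)) <;> ring
    · have h4 : 0 ≤ Real.sin (ta a - Real.pi / 6) :=
        Real.sin_nonneg_of_nonneg_of_le_pi (by linarith) (by linarith)
      have h5 : Real.sin (ta a - Real.pi / 6) ≤ Real.sin (ta a + Real.pi / 6) :=
        Real.sin_le_sin_of_le_of_le_pi_div_two (by linarith) (by linarith) (by linarith)
      have h6 := NUMFH.Ath_ge (h4.trans h5) hy
      have h7 := NUMFH.Ath_ge h4 (lt_of_le_of_lt h5 hy)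
      rw [add_div]
      exact add_le_add h6 h7
  refine le_trans ?_ key
  gcongr

/-- `Agh a ≥ a / ch` -/
theorem Agh_ge {a : ℝ} (h0 : 0 ≤ a) (h1 : a < 1 / 2) (t : ℝ) : a / ch t ≤ NUHM.Agh a t := by
  have hpi := Real.pi_pos
  have hc := NUMF.one_le_ch t
  have hc0 := ch_pos t
  have hs := sin_ge h0 (by linarith)
  have e0 : Ag (a - 1 / 2) t = -Ag (1 / 2 - a) t := by
    rw [← NUHM.Ag_neg _ _ (by rw [abs_of_pos (by linarith)]; linarith), neg_sub]
  have hta : 0 ≤ ta a := by rw [NUMFH.ta_eq]; positivity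
  have hta1 : ta a < Real.pi / 6 := by rw [NUMFH.ta_eq]; nlinarith
  have t1 : ta (a + 1 / 2) = ta a + Real.pi / 6 := by rw [NUMFH.ta_eq, NUMFH.ta_eq]; ring
  have t2 : ta (1 / 2 - a) = Real.pi / 6 - ta a := by rw [NUMFH.ta_eq, NUMFH.ta_eq]; ring
  have hy : Real.sin (ta a + Real.pi / 3) < ch t := by
    refine lt_of_lt_of_le (lt_of_le_of_lt (le_abs_self _) (NUMFH.sin_abs_lt ?_)) hc
    rw [abs_lt]
    constructor <;> linarith
  have s0 : 0 ≤ Real.sin (ta a) := Real.sin_nonneg_of_nonneg_of_le_pi hta (by linarith)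
  have s1 : 0 ≤ Real.sin (Real.pi / 3 - ta a) :=
    Real.sin_nonneg_of_nonneg_of_le_pi (by linarith) (by linarith)
  have s2 : Real.sin (Real.pi / 3 - ta a) ≤ Real.sin (ta a + Real.pi / 3) :=
    Real.sin_le_sin_of_le_of_le_pi_div_two (by linarith) (by linarith) (by linarith)
  have s3 : Real.sin (ta a) ≤ Real.sin (ta a + Real.pi / 3) :=
    Real.sin_le_sin_of_le_of_le_pi_div_two (by linarith) (by linarith) (by linarith)
  have b1 := NUMFH.Ath_sub_ge s1 s2 hy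
  have b2 := NUMFH.Ath_ge s0 (lt_of_le_of_lt s3 hy)
  have e3 : Real.sin (ta a + Real.pi / 3) - Real.sin (Real.pi / 3 - ta a) = Real.sin (ta a) := by
    rw [Real.sin_add, Real.sin_sub, Real.cos_pi_div_three, Real.sin_pi_div_three]
    ring
  unfold NUHM.Agh
  rw [e0, NUMFH.Ag_ath (by rw [abs_of_nonneg (by linarith)]; linarith),
    NUMFH.Ag_ath (by rw [abs_of_pos (by linarith)]; linarith)]
  unfold NUMFH.Tg
  rw [t1, t2, show ta a + Real.pi / 6 + Real.pi / 6 = ta a + Real.pi / 3 by ring,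
    show ta a + Real.pi / 6 - Real.pi / 6 = ta a by ring,
    show Real.pi / 6 - ta a + Real.pi / 6 = Real.pi / 3 - ta a by ring,
    show Real.pi / 6 - ta a - Real.pi / 6 = -ta a by ring, Real.sin_neg, NUMFH.Ath_neg]
  rw [e3] at b1
  have b3 : a / ch t ≤ 3 / 2 * (Real.sin (ta a) / ch t) := by
    rw [← mul_div_assoc]
    gcongr
    linarith
  linarith

lemma Ag_nonneg {a : ℝ} (h0 : 0 ≤ a) (h1 : a < 1) (t : ℝ) : 0 ≤ Ag a t :=
  (div_nonneg h0 (ch_pos t).le).trans (Ag_ge h0 h1 t)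

lemma Th_ge' {a : ℝ} (h0 : 0 ≤ a) (h1 : a ≤ 1) (h2 : a ≠ 1 / 2) (t : ℝ) :
    min a (1 / 2) / ch t ≤ NUHM.Th a t := by
  have hc0 := ch_pos t
  rcases lt_or_gt_of_ne h2 with h | h
  · rw [NUHM.Th_lt h, min_eq_left h.le]
    exact Agh_ge h0 h t
  · rw [NUHM.Th_ge h.le, min_eq_right h.le]
    have a1 := Ag_ge (a := 3 / 2 - a) (by linarith) (by linarith) t
    have a2 := Ag_ge (a := a - 1 / 2) (by linarith) (by linarith) t
    have e : (3 / 2 - a) / ch t + 2 * ((a - 1 / 2) / ch t) = (a + 1 / 2) / ch t := by ring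
    have h3 : 1 / ch t ≤ (a + 1 / 2) / ch t := by gcongr; linarith
    have h4 : 1 / 2 / ch t = (1 / ch t) / 2 := by ring
    rw [h4]
    linarith

/-! ### continuity in the offset off the singularity -/

lemma h_contR {t : ℝ} (ht : t ≠ 0) : Continuous fun y => h t y := by
  unfold NUMF.h
  refine Continuous.log (by fun_prop) fun y => ?_
  have h1 := NUMF.arg_ge t y
  have h2 : 0 < 2 * t ^ 2 := by positivity
  exact (lt_of_lt_of_le h2 h1).ne'

lemma mf_cont {t : ℝ} (ht : t ≠ 0) : Continuous fun j => mf j t := by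
  have c1 := h_contR ht
  have c2 := NUMF.H_cont t
  simp_rw [NUMF.mf_eq]
  have k1 : ∀ {f : ℝ → ℝ}, Continuous f → Continuous fun j => h t (f j) := fun hf => c1.comp hf
  have k2 : ∀ {f : ℝ → ℝ}, Continuous f → Continuous fun j => H t (f j) := fun hf => c2.comp hf
  refine ((((((k1 (by fun_prop)).sub (((k1 (by fun_prop)).add (k1 (by fun_prop))).div_const 2)).add
    (k2 (by fun_prop))).add (((k2 (by fun_prop)).add (k2 (by fun_prop))).div_const 2)).sub
    (((k2 (by fun_prop)).add (k2 (by fun_prop))).div_const 2)).add (k2 (by fun_prop))).sub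
    ((k2 (by fun_prop)).add (k2 (by fun_prop)))

lemma mfh_cont {t : ℝ} (ht : t ≠ 0) : Continuous fun j => mfh j t := by
  have c1 := h_contR ht
  have c2 := NUHM.Hh_cont t
  unfold mfh NUHM.mo NUHM.mc NUHM.hh
  have k1 : ∀ {f : ℝ → ℝ}, Continuous f → Continuous fun j => h t (f j) := fun hf => c1.comp hf
  have k2 : ∀ {f : ℝ → ℝ}, Continuous f → Continuous fun j => NUHM.Hh t (f j) := fun hf => c2.comp hf
  have m1 : Continuous fun j : ℝ => (h t ((3 - j + 1 / 2) * l) + h t ((3 - j - 1 / 2) * l)) / 2 :=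
    ((k1 (by fun_prop)).add (k1 (by fun_prop))).div_const 2
  have m2 : Continuous fun j : ℝ => (h t ((5 - j + 1 / 2) * l) + h t ((5 - j - 1 / 2) * l)) / 2 :=
    ((k1 (by fun_prop)).add (k1 (by fun_prop))).div_const 2
  have m3 : Continuous fun j : ℝ => (h t ((j + 1 / 2) * l) + h t ((j - 1 / 2) * l)) / 2 :=
    ((k1 (by fun_prop)).add (k1 (by fun_prop))).div_const 2
  exact ((((m1.add m2).neg.div_const 2).add (k2 (by fun_prop))).add
    (((k2 (by fun_prop)).add (k2 (by fun_prop))).div_const 2)).sub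
    (((k2 (by fun_prop)).add (k2 (by fun_prop))).div_const 2) |>.add
    ((m3.add (k2 (by fun_prop))).sub ((k2 (by fun_prop)).add (k2 (by fun_prop))))

lemma closure_le {f : ℝ → ℝ} (hf : Continuous f) {c a b : ℝ} (hab : a < b)
    (h : ∀ j, a ≤ j → j < b → c ≤ f j) : c ≤ f b := by
  have h1 : IsClosed {j | c ≤ f j} := isClosed_le continuous_const hf
  have h2 : closure (Ico a b) ⊆ {j | c ≤ f j} := h1.closure_subset_iff.2 fun j hj => h j hj.1 hj.2
  rw [closure_Ico hab.ne] at h2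
  exact h2 ⟨hab.le, le_rfl⟩

/-- rows `0`, state `1` -/
theorem mf_ge {j t : ℝ} (h0 : 1 / 5 ≤ j) (h1 : j ≤ 6 / 5) (h2 : t ≠ 0 ∨ j ≠ 1) : 1 / 5 / ch t ≤ mf j t := by
  have hc0 := ch_pos t
  have low : ∀ j, 1 / 5 ≤ j → j < 1 → 1 / 5 / ch t ≤ mf j t := fun j h0 h1 => by
    rw [NUMF.mf_low (by linarith) h1]
    refine le_trans ?_ (Ag_ge (by linarith) h1 t)
    gcongr
  rcases lt_trichotomy j 1 with h | h | h
  · exact low j h0 h
  · subst h
    rcases h2 with h2 | h2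
    · exact closure_le (mf_cont h2) (by norm_num) low
    · exact absurd rfl h2
  · rw [NUMF.mf_mid h (by linarith)]
    refine le_trans ?_ (Ag_ge (by linarith) (by linarith) t)
    gcongr
    linarith

/-- rows `0`, state `0` -/
theorem mf_nonneg {j t : ℝ} (h0 : 6 / 5 ≤ j) (h1 : j ≤ 11 / 5) : 0 ≤ mf j t := by
  rcases le_or_gt j 2 with h | h
  · rw [NUMF.mf_mid (by linarith) h]
    exact Ag_nonneg (by linarith) (by linarith) t
  · rw [NUMF.mf_neutral h.le (by linarith)]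

/-- rows `± l / 2`, state `1` -/
theorem mfh_ge {j t : ℝ} (h0 : 1 / 5 ≤ j) (h1 : j ≤ 6 / 5) (h2 : t ≠ 0 ∨ j ≠ 1 / 2) :
    1 / 5 / ch t ≤ mfh j t := by
  have hc0 := ch_pos t
  have hz : ∀ j : ℝ, 0 ≤ j → j ≤ 3 → NUHM.mc j t = 0 := fun j a b =>
    NUHM.mc_zero (by rw [abs_of_nonneg a]; exact b) t
  have low : ∀ j, 1 / 5 ≤ j → j ≤ 1 → j ≠ 1 / 2 → 1 / 5 / ch t ≤ mfh j t := fun j h0 h1 h2 => by
    unfold mfh
    rw [hz j (by linarith) (by linarith), NUHM.mo_low (by linarith) h1 h2, add_zero]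
    refine le_trans ?_ (Th_ge' (by linarith) h1 h2 t)
    gcongr
    exact le_min h0 (by norm_num)
  rcases le_or_gt j 1 with h | h
  · by_cases h3 : j = 1 / 2
    · subst h3
      rcases h2 with h2 | h2
      · exact closure_le (mfh_cont h2) (by norm_num) fun j a b => low j a (by linarith) b.ne
      · exact absurd rfl h2
    · exact low j h0 h h3
  · unfold mfh
    rw [hz j (by linarith) (by linarith), NUHM.mo_mid h.le (by linarith) (by linarith), add_zero]
    refine le_trans ?_ (Th_ge' (by linarith) (by linarith) (by linarith) t)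
    gcongr
    exact le_min (by linarith) (by norm_num)

/-- rows `± l / 2`, state `0` -/
theorem mfh_nonneg {j t : ℝ} (h0 : 6 / 5 ≤ j) (h1 : j ≤ 11 / 5) (h2 : t ≠ 0 ∨ j ≠ 3 / 2) : 0 ≤ mfh j t := by
  have hc0 := ch_pos t
  have hz : ∀ j : ℝ, 0 ≤ j → j ≤ 3 → NUHM.mc j t = 0 := fun j a b =>
    NUHM.mc_zero (by rw [abs_of_nonneg a]; exact b) t
  have low : ∀ j, 6 / 5 ≤ j → j ≤ 2 → j ≠ 3 / 2 → 0 ≤ mfh j t := fun j h0 h1 h2 => by
    unfold mfh
    rw [hz j (by linarith) (by linarith), NUHM.mo_mid (by linarith) h1 h2, add_zero]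
    refine le_trans ?_ (Th_ge' (by linarith) (by linarith) (fun e => h2 (by linarith)) t)
    exact div_nonneg (le_min (by linarith) (by norm_num)) hc0.le
  rcases le_or_gt j 2 with h | h
  · by_cases h3 : j = 3 / 2
    · subst h3
      rcases h2 with h2 | h2
      · exact closure_le (mfh_cont h2) (by norm_num) fun j a b => low j a (by linarith) b.ne
      · exact absurd rfl h2
    · exact low j h0 h h3
  · unfold mfh
    rw [hz j (by linarith) (by linarith), NUHM.mo_zero h.le (by linarith), add_zero]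


/-! ### the far row -/

lemma sin_zj_ne {a t : ℝ} (h : t ≠ 0 ∨ (a ≠ 0 ∧ |a| < 8)) : sin (zj a t) ≠ 0 := by
  rcases eq_or_ne t 0 with ht | ht
  · subst ht
    obtain ⟨h1, h2⟩ := h.resolve_left (fun h => h rfl)
    have hl := l_pos
    have h8 : 8 * l = Real.pi := NUHM.l8
    have e : zj a 0 = ((a * l : ℝ) : ℂ) := by unfold NUMF.zj; simp
    rw [e, ← Complex.ofReal_sin, Complex.ofReal_ne_zero]
    obtain ⟨h3, h4⟩ := abs_lt.1 h2
    rcases lt_or_gt_of_ne h1 with hn | hp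
    · have := Real.sin_pos_of_pos_of_lt_pi (x := -(a * l)) (by nlinarith) (by nlinarith)
      rw [Real.sin_neg] at this
      linarith
    · exact (Real.sin_pos_of_pos_of_lt_pi (x := a * l) (by positivity) (by nlinarith)).ne'
  · exact NUMF.zsin_ne ht

lemma as_zj (x : ℂ) : x = zj (1 + (x.re / l - 1)) x.im := by
  have hl := l_pos.ne'
  unfold NUMF.zj
  rw [show (1 + (x.re / l - 1)) * l = x.re by field_simp; ring]
  exact (Complex.re_add_im x).symm

lemma zj_sub (j t : ℝ) : zj (1 + j) t - l = zj j t := by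
  unfold NUMF.zj
  push_cast
  ring

lemma exp_ch (t : ℝ) : Real.exp (-(8 / 3) * |t|) ≤ 1 / ch t := by
  rw [le_div_iff₀ (ch_pos t)]
  unfold NUMF.ch
  rw [Real.cosh_eq]
  have h1 : Real.exp (8 / 3 * t) ≤ Real.exp (8 / 3 * |t|) := Real.exp_le_exp.2 (by
    have := le_abs_self t
    linarith)
  have h2 : Real.exp (-(8 / 3 * t)) ≤ Real.exp (8 / 3 * |t|) := Real.exp_le_exp.2 (by
    have := neg_abs_le t
    linarith)
  have h3 : Real.exp (-(8 / 3) * |t|) * Real.exp (8 / 3 * |t|) = 1 := by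
    rw [← Real.exp_add, show -(8 / 3) * |t| + 8 / 3 * |t| = 0 by ring, Real.exp_zero]
  have h4 := Real.exp_pos (-(8 / 3) * |t|)
  nlinarith

/-- rows `0`, state `1` against state `2` -/
theorem T1 {x : ℂ} (h1 : 11 / 5 * l ≤ x.re) (h2 : x.re ≤ 16 / 5 * l) :
    dr (x - l) * Real.exp (MT P 1 x - MT P 2 x) ≤ Real.exp (-(1 / 5) * Real.exp (-(8 / 3) * |x.im|)) := by
  have hl := l_pos
  obtain ⟨e, he⟩ : ∃ e : ℝ, e = x.re / l - 1 := ⟨_, rfl⟩
  obtain ⟨t, ht⟩ : ∃ t : ℝ, t = x.im := ⟨_, rfl⟩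
  have e1 : 6 / 5 ≤ e := by
    have : 11 / 5 ≤ x.re / l := by rw [le_div_iff₀ hl]; exact h1
    linarith
  have e2 : e ≤ 11 / 5 := by
    have : x.re / l ≤ 16 / 5 := by rw [div_le_iff₀ hl]; exact h2
    linarith
  have hx := as_zj x
  rw [← he, ← ht] at hx
  rw [← ht, hx, zj_sub]
  by_cases hs : t ≠ 0 ∨ e ≠ 2
  · have n1 : sin (zj e t) ≠ 0 := sin_zj_ne (by
      rcases hs with hs | _
      · exact Or.inl hs
      · exact Or.inr ⟨by linarith, by rw [abs_of_pos (by linarith)]; linarith⟩)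
    have n2 : sin (zj (e - 2) t) ≠ 0 := sin_zj_ne (by
      rcases hs with hs | hs
      · exact Or.inl hs
      · exact Or.inr ⟨fun h => hs (by linarith), by rw [abs_lt]; constructor <;> linarith⟩)
    have n3 : sin (zj (e + 3) t) ≠ 0 := sin_zj_ne (by
      rcases hs with hs | _
      · exact Or.inl hs
      · exact Or.inr ⟨by linarith, by rw [abs_of_pos (by linarith)]; linarith⟩)
    have hp := (log_dr n1 n2 n3).1
    have hid := idA n1 n2 n3
    have hm := mf_ge (j := e - 1) (t := t) (by linarith) (by linarith) (by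
      rcases hs with hs | hs
      · exact Or.inl hs
      · exact Or.inr fun h => hs (by linarith))
    have hc := exp_ch t
    calc dr (zj e t) * Real.exp (MT P 1 (zj (1 + e) t) - MT P 2 (zj (1 + e) t)) =
          Real.exp (Real.log (dr (zj e t)) + (MT P 1 (zj (1 + e) t) - MT P 2 (zj (1 + e) t))) := by
          rw [Real.exp_add, Real.exp_log hp]
      _ ≤ _ := by
          rw [hid]
          refine Real.exp_le_exp.2 ?_
          have : 1 / 5 / ch t = 1 / 5 * (1 / ch t) := by ring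
          rw [this] at hm
          linarith
  · push Not at hs
    obtain ⟨a1, a2⟩ := hs
    have : dr (zj e t) = 0 := by
      unfold dr
      have e3 : zj e t - 2 * l = 0 := by
        rw [a1, a2]
        unfold NUMF.zj
        push_cast
        ring
      rw [e3, Complex.sin_zero, norm_zero, mul_zero, zero_div]
    rw [this, zero_mul]
    positivity

/-- rows `0`, state `0` against state `1` -/
theorem T0 {x : ℂ} (h1 : 11 / 5 * l ≤ x.re) (h2 : x.re ≤ 16 / 5 * l) :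
    dr x * Real.exp (MT P 0 x - MT P 1 x) ≤ 1 := by
  have hl := l_pos
  obtain ⟨e, he⟩ : ∃ e : ℝ, e = x.re / l - 1 := ⟨_, rfl⟩
  obtain ⟨t, ht⟩ : ∃ t : ℝ, t = x.im := ⟨_, rfl⟩
  have e1 : 6 / 5 ≤ e := by
    have : 11 / 5 ≤ x.re / l := by rw [le_div_iff₀ hl]; exact h1
    linarith
  have e2 : e ≤ 11 / 5 := by
    have : x.re / l ≤ 16 / 5 := by rw [div_le_iff₀ hl]; exact h2
    linarith
  have hx := as_zj x
  rw [← he, ← ht] at hx
  rw [hx]
  have n1 : sin (zj (1 + e) t) ≠ 0 := sin_zj_ne (Or.inr ⟨by linarith, by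
    rw [abs_of_pos (by linarith)]; linarith⟩)
  have n2 : sin (zj (1 + e - 2) t) ≠ 0 := sin_zj_ne (Or.inr ⟨by linarith, by
    rw [abs_of_pos (by linarith)]; linarith⟩)
  have n3 : sin (zj (1 + e + 3) t) ≠ 0 := sin_zj_ne (Or.inr ⟨by linarith, by
    rw [abs_of_pos (by linarith)]; linarith⟩)
  have hp := (log_dr n1 n2 n3).1
  have hid := idB n1 n2 n3
  have hm := mf_nonneg (j := e) (t := t) e1 e2
  calc dr (zj (1 + e) t) * Real.exp (MT P 0 (zj (1 + e) t) - MT P 1 (zj (1 + e) t)) =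
        Real.exp (Real.log (dr (zj (1 + e) t)) + (MT P 0 (zj (1 + e) t) - MT P 1 (zj (1 + e) t))) := by
        rw [Real.exp_add, Real.exp_log hp]
    _ ≤ Real.exp 0 := by
        rw [hid]
        exact Real.exp_le_exp.2 (by linarith)
    _ = 1 := Real.exp_zero

lemma zj_half (j t : ℝ) : zj (1 + j) t - l + l / 2 = zj (j + 1 / 2) t ∧
    zj (1 + j) t - l - l / 2 = zj (j - 1 / 2) t ∧ zj (1 + j) t + l / 2 = zj (1 + j + 1 / 2) t ∧
    zj (1 + j) t - l / 2 = zj (1 + j - 1 / 2) t := by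
  unfold NUMF.zj
  push_cast
  refine ⟨?_, ?_, ?_, ?_⟩ <;> ring

/-- rows `± l / 2`, state `1` against state `2` -/
theorem T1h {x : ℂ} (h1 : 11 / 5 * l ≤ x.re) (h2 : x.re ≤ 16 / 5 * l) :
    dr (x - l + l / 2) * dr (x - l - l / 2) * Real.exp (2 * (MT NUSea.Ph 1 x - MT NUSea.Ph 2 x)) ≤
      Real.exp (-(2 / 5) * Real.exp (-(8 / 3) * |x.im|)) := by
  have hl := l_pos
  obtain ⟨e, he⟩ : ∃ e : ℝ, e = x.re / l - 1 := ⟨_, rfl⟩
  obtain ⟨t, ht⟩ : ∃ t : ℝ, t = x.im := ⟨_, rfl⟩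
  have e1 : 6 / 5 ≤ e := by
    have : 11 / 5 ≤ x.re / l := by rw [le_div_iff₀ hl]; exact h1
    linarith
  have e2 : e ≤ 11 / 5 := by
    have : x.re / l ≤ 16 / 5 := by rw [div_le_iff₀ hl]; exact h2
    linarith
  have hx := as_zj x
  rw [← he, ← ht] at hx
  obtain ⟨z1, z2, -, -⟩ := zj_half e t
  rw [← ht, hx, z1, z2]
  by_cases hs : t ≠ 0 ∨ e ≠ 3 / 2
  · have hn : ∀ a : ℝ, a ≠ 0 ∨ t ≠ 0 → |a| < 8 → sin (zj a t) ≠ 0 := fun a h h' => sin_zj_ne (by
      rcases h with h | h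
      · exact Or.inr ⟨h, h'⟩
      · exact Or.inl h)
    have n1 := hn (e + 1 / 2) (Or.inl (by linarith)) (by rw [abs_of_pos (by linarith)]; linarith)
    have n2 := hn (e + 1 / 2 - 2) (by
      rcases hs with hs | hs
      · exact Or.inr hs
      · exact Or.inl fun h => hs (by linarith)) (by rw [abs_lt]; constructor <;> linarith)
    have n3 := hn (e + 1 / 2 + 3) (Or.inl (by linarith)) (by rw [abs_of_pos (by linarith)]; linarith)
    have m1 := hn (e - 1 / 2) (Or.inl (by linarith)) (by rw [abs_of_pos (by linarith)]; linarith)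
    have m2 := hn (e - 1 / 2 - 2) (Or.inl (by linarith)) (by rw [abs_lt]; constructor <;> linarith)
    have m3 := hn (e - 1 / 2 + 3) (Or.inl (by linarith)) (by rw [abs_of_pos (by linarith)]; linarith)
    have hp := (log_dr n1 n2 n3).1
    have hq := (log_dr m1 m2 m3).1
    have hid := idAh n1 n2 n3 m1 m2 m3
    have hm := mfh_ge (j := e - 1) (t := t) (by linarith) (by linarith) (by
      rcases hs with hs | hs
      · exact Or.inl hs
      · exact Or.inr fun h => hs (by linarith))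
    have hc := exp_ch t
    calc dr (zj (e + 1 / 2) t) * dr (zj (e - 1 / 2) t) *
          Real.exp (2 * (MT NUSea.Ph 1 (zj (1 + e) t) - MT NUSea.Ph 2 (zj (1 + e) t))) =
          Real.exp (Real.log (dr (zj (e + 1 / 2) t)) + Real.log (dr (zj (e - 1 / 2) t)) +
            2 * (MT NUSea.Ph 1 (zj (1 + e) t) - MT NUSea.Ph 2 (zj (1 + e) t))) := by
          rw [Real.exp_add, Real.exp_add, Real.exp_log hp, Real.exp_log hq]
      _ ≤ _ := by
          rw [hid]
          refine Real.exp_le_exp.2 ?_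
          have : 1 / 5 / ch t = 1 / 5 * (1 / ch t) := by ring
          rw [this] at hm
          linarith
  · push Not at hs
    obtain ⟨a1, a2⟩ := hs
    have : dr (zj (e + 1 / 2) t) = 0 := by
      unfold dr
      have e3 : zj (e + 1 / 2) t - 2 * l = 0 := by
        rw [a1, a2]
        unfold NUMF.zj
        push_cast
        ring
      rw [e3, Complex.sin_zero, norm_zero, mul_zero, zero_div]
    rw [this, zero_mul, zero_mul]
    positivity

/-- rows `± l / 2`, state `0` against state `1` -/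
theorem T0h {x : ℂ} (h1 : 11 / 5 * l ≤ x.re) (h2 : x.re ≤ 16 / 5 * l) :
    dr (x + l / 2) * dr (x - l / 2) * Real.exp (2 * (MT NUSea.Ph 0 x - MT NUSea.Ph 1 x)) ≤ 1 := by
  have hl := l_pos
  obtain ⟨e, he⟩ : ∃ e : ℝ, e = x.re / l - 1 := ⟨_, rfl⟩
  obtain ⟨t, ht⟩ : ∃ t : ℝ, t = x.im := ⟨_, rfl⟩
  have e1 : 6 / 5 ≤ e := by
    have : 11 / 5 ≤ x.re / l := by rw [le_div_iff₀ hl]; exact h1
    linarith
  have e2 : e ≤ 11 / 5 := by
    have : x.re / l ≤ 16 / 5 := by rw [div_le_iff₀ hl]; exact h2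
    linarith
  have hx := as_zj x
  rw [← he, ← ht] at hx
  obtain ⟨-, -, z1, z2⟩ := zj_half e t
  rw [hx, z1, z2]
  by_cases hs : t ≠ 0 ∨ e ≠ 3 / 2
  · have hn : ∀ a : ℝ, a ≠ 0 ∨ t ≠ 0 → |a| < 8 → sin (zj a t) ≠ 0 := fun a h h' => sin_zj_ne (by
      rcases h with h | h
      · exact Or.inr ⟨h, h'⟩
      · exact Or.inl h)
    have n1 := hn (1 + e + 1 / 2) (Or.inl (by linarith)) (by rw [abs_of_pos (by linarith)]; linarith)
    have n2 := hn (1 + e + 1 / 2 - 2) (Or.inl (by linarith)) (by rw [abs_lt]; constructor <;> linarith)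
    have n3 := hn (1 + e + 1 / 2 + 3) (Or.inl (by linarith)) (by rw [abs_of_pos (by linarith)]; linarith)
    have m1 := hn (1 + e - 1 / 2) (Or.inl (by linarith)) (by rw [abs_of_pos (by linarith)]; linarith)
    have m2 := hn (1 + e - 1 / 2 - 2) (by
      rcases hs with hs | hs
      · exact Or.inr hs
      · exact Or.inl fun h => hs (by linarith)) (by rw [abs_lt]; constructor <;> linarith)
    have m3 := hn (1 + e - 1 / 2 + 3) (Or.inl (by linarith)) (by rw [abs_of_pos (by linarith)]; linarith)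
    have hp := (log_dr n1 n2 n3).1
    have hq := (log_dr m1 m2 m3).1
    have hid := idBh n1 n2 n3 m1 m2 m3
    have hm := mfh_nonneg (j := e) (t := t) e1 e2 hs
    calc dr (zj (1 + e + 1 / 2) t) * dr (zj (1 + e - 1 / 2) t) *
          Real.exp (2 * (MT NUSea.Ph 0 (zj (1 + e) t) - MT NUSea.Ph 1 (zj (1 + e) t))) =
          Real.exp (Real.log (dr (zj (1 + e + 1 / 2) t)) + Real.log (dr (zj (1 + e - 1 / 2) t)) +
            2 * (MT NUSea.Ph 0 (zj (1 + e) t) - MT NUSea.Ph 1 (zj (1 + e) t))) := by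
          rw [Real.exp_add, Real.exp_add, Real.exp_log hp, Real.exp_log hq]
      _ ≤ Real.exp 0 := by
          rw [hid]
          exact Real.exp_le_exp.2 (by linarith)
      _ = 1 := Real.exp_zero
  · push Not at hs
    obtain ⟨a1, a2⟩ := hs
    have : dr (zj (1 + e - 1 / 2) t) = 0 := by
      unfold dr
      have e3 : zj (1 + e - 1 / 2) t - 2 * l = 0 := by
        rw [a1, a2]
        unfold NUMF.zj
        push_cast
        ring
      rw [e3, Complex.sin_zero, norm_zero, mul_zero, zero_div]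
    rw [this, mul_zero, zero_mul]
    exact zero_le_one

/-! ### mixed contents: `p` rows `0`, `q` pairs `± l / 2` -/

/-- weight of the state `k` of the far row relative to the state `2` (one list) -/
def Wk (p q : ℕ) : ℕ → ℂ → ℝ
  | 0, x => (dr x * dr (x - l)) ^ p * (dr (x + l / 2) * dr (x - l / 2) *
      (dr (x - l + l / 2) * dr (x - l - l / 2))) ^ q *
      Real.exp (p * (MT P 0 x - MT P 2 x) + q * (2 * (MT NUSea.Ph 0 x - MT NUSea.Ph 2 x)))
  | 1, x => dr (x - l) ^ p * (dr (x - l + l / 2) * dr (x - l - l / 2)) ^ q *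
      Real.exp (p * (MT P 1 x - MT P 2 x) + q * (2 * (MT NUSea.Ph 1 x - MT NUSea.Ph 2 x)))
  | _, _ => 1

lemma Wk_nonneg (p q k : ℕ) (x : ℂ) : 0 ≤ Wk p q k x := by
  have h := dr_nonneg
  match k with
  | 0 =>
    have h1 := h x
    have h2 := h (x - l)
    have h3 := h (x + l / 2)
    have h4 := h (x - l / 2)
    have h5 := h (x - l + l / 2)
    have h6 := h (x - l - l / 2)
    change 0 ≤ (dr x * dr (x - l)) ^ p * _ * _
    positivity
  | 1 =>
    have h2 := h (x - l)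
    have h5 := h (x - l + l / 2)
    have h6 := h (x - l - l / 2)
    change 0 ≤ dr (x - l) ^ p * _ * _
    positivity
  | (n + 2) => exact zero_le_one

/-- **the states `0`, `1` of a far row are exponentially smaller than the state `2`** -/
theorem Wk_le {x : ℂ} (h1 : 11 / 5 * l ≤ x.re) (h2 : x.re ≤ 16 / 5 * l) (p q : ℕ) {k : ℕ} (hk : k ≤ 1) :
    Wk p q k x ≤ Real.exp (-(1 / 5) * (p + 2 * q) * Real.exp (-(8 / 3) * |x.im|)) := by
  have a1 := T1 h1 h2
  have a0 := T0 h1 h2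
  have b1 := T1h h1 h2
  have b0 := T0h h1 h2
  have hd := dr_nonneg
  have E : ∀ r s : ℝ, Real.exp (p * r + q * s) = Real.exp r ^ p * Real.exp s ^ q := fun r s => by
    rw [Real.exp_add, Real.exp_nat_mul, Real.exp_nat_mul]
  have hR : Real.exp (-(1 / 5) * (p + 2 * q) * Real.exp (-(8 / 3) * |x.im|)) =
      Real.exp (-(1 / 5) * Real.exp (-(8 / 3) * |x.im|)) ^ p *
        Real.exp (-(2 / 5) * Real.exp (-(8 / 3) * |x.im|)) ^ q := by
    rw [← E]
    congr 1
    ring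
  have d1 := hd x
  have d2 := hd (x - l)
  have d3 := hd (x + l / 2)
  have d4 := hd (x - l / 2)
  have d5 := hd (x - l + l / 2)
  have d6 := hd (x - l - l / 2)
  rw [hR]
  rcases Nat.le_one_iff_eq_zero_or_eq_one.1 hk with h | h
  · subst h
    change (dr x * dr (x - l)) ^ p * (dr (x + l / 2) * dr (x - l / 2) *
      (dr (x - l + l / 2) * dr (x - l - l / 2))) ^ q *
      Real.exp (p * (MT P 0 x - MT P 2 x) + q * (2 * (MT NUSea.Ph 0 x - MT NUSea.Ph 2 x))) ≤ _
    rw [E]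
    have e1 : Real.exp (MT P 0 x - MT P 2 x) = Real.exp (MT P 0 x - MT P 1 x) *
        Real.exp (MT P 1 x - MT P 2 x) := by
      rw [← Real.exp_add]
      congr 1
      ring
    have e2 : Real.exp (2 * (MT NUSea.Ph 0 x - MT NUSea.Ph 2 x)) =
        Real.exp (2 * (MT NUSea.Ph 0 x - MT NUSea.Ph 1 x)) *
        Real.exp (2 * (MT NUSea.Ph 1 x - MT NUSea.Ph 2 x)) := by
      rw [← Real.exp_add]
      congr 1
      ring
    rw [e1, e2]
    have c1 : dr x * dr (x - l) * (Real.exp (MT P 0 x - MT P 1 x) * Real.exp (MT P 1 x - MT P 2 x)) ≤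
        Real.exp (-(1 / 5) * Real.exp (-(8 / 3) * |x.im|)) := by
      calc _ = (dr x * Real.exp (MT P 0 x - MT P 1 x)) * (dr (x - l) * Real.exp (MT P 1 x - MT P 2 x)) := by
            ring
        _ ≤ 1 * Real.exp (-(1 / 5) * Real.exp (-(8 / 3) * |x.im|)) :=
            mul_le_mul a0 a1 (by positivity) zero_le_one
        _ = _ := one_mul _
    have c2 : dr (x + l / 2) * dr (x - l / 2) * (dr (x - l + l / 2) * dr (x - l - l / 2)) *
        (Real.exp (2 * (MT NUSea.Ph 0 x - MT NUSea.Ph 1 x)) *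
          Real.exp (2 * (MT NUSea.Ph 1 x - MT NUSea.Ph 2 x))) ≤
        Real.exp (-(2 / 5) * Real.exp (-(8 / 3) * |x.im|)) := by
      calc _ = (dr (x + l / 2) * dr (x - l / 2) * Real.exp (2 * (MT NUSea.Ph 0 x - MT NUSea.Ph 1 x))) *
            (dr (x - l + l / 2) * dr (x - l - l / 2) *
              Real.exp (2 * (MT NUSea.Ph 1 x - MT NUSea.Ph 2 x))) := by ring
        _ ≤ 1 * Real.exp (-(2 / 5) * Real.exp (-(8 / 3) * |x.im|)) :=
            mul_le_mul b0 b1 (by positivity) zero_le_one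
        _ = _ := one_mul _
    calc _ = (dr x * dr (x - l) * (Real.exp (MT P 0 x - MT P 1 x) *
            Real.exp (MT P 1 x - MT P 2 x))) ^ p *
          (dr (x + l / 2) * dr (x - l / 2) * (dr (x - l + l / 2) * dr (x - l - l / 2)) *
          (Real.exp (2 * (MT NUSea.Ph 0 x - MT NUSea.Ph 1 x)) *
            Real.exp (2 * (MT NUSea.Ph 1 x - MT NUSea.Ph 2 x)))) ^ q := by
          rw [mul_pow _ _ p, mul_pow _ _ q]
          ring
      _ ≤ _ := mul_le_mul (pow_le_pow_left₀ (by positivity) c1 p) (pow_le_pow_left₀ (by positivity) c2 q)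
          (by positivity) (by positivity)
  · subst h
    change dr (x - l) ^ p * (dr (x - l + l / 2) * dr (x - l - l / 2)) ^ q *
      Real.exp (p * (MT P 1 x - MT P 2 x) + q * (2 * (MT NUSea.Ph 1 x - MT NUSea.Ph 2 x))) ≤ _
    rw [E]
    calc _ = (dr (x - l) * Real.exp (MT P 1 x - MT P 2 x)) ^ p *
          (dr (x - l + l / 2) * dr (x - l - l / 2) *
            Real.exp (2 * (MT NUSea.Ph 1 x - MT NUSea.Ph 2 x))) ^ q := by
          rw [mul_pow _ _ p, mul_pow _ _ q]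
          ring
      _ ≤ _ := mul_le_mul (pow_le_pow_left₀ (by positivity) a1 p) (pow_le_pow_left₀ (by positivity) b1 q)
          (by positivity) (by positivity)

/-- the eight classes `(j, k) ≠ (2, 2)` -/
theorem Wk_two {x : ℂ} (h1 : 11 / 5 * l ≤ x.re) (h2 : x.re ≤ 16 / 5 * l) (p q : ℕ) {j k : ℕ}
    (hj : j ≤ 2) (hk : k ≤ 2) (hjk : (j, k) ≠ (2, 2)) :
    Wk p q j x * Wk p q k x ≤ Real.exp (-(1 / 5) * (p + 2 * q) * Real.exp (-(8 / 3) * |x.im|)) := by
  have hle : ∀ k ≤ 2, Wk p q k x ≤ 1 := by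
    intro k hk
    rcases Nat.lt_or_ge k 2 with h | h
    · refine (Wk_le h1 h2 p q (by omega)).trans (Real.exp_le_one_iff.2 ?_)
      have h3 : 0 ≤ ((p : ℝ) + 2 * q) * Real.exp (-(8 / 3) * |x.im|) := by positivity
      linarith
    · have : k = 2 := by omega
      subst this
      exact le_rfl
  rcases Nat.lt_or_ge j 2 with h | h
  · calc _ ≤ Wk p q j x * 1 := mul_le_mul_of_nonneg_left (hle k hk) (Wk_nonneg _ _ _ _)
      _ = Wk p q j x := mul_one _
      _ ≤ _ := Wk_le h1 h2 p q (by omega)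
  · have hj2 : j = 2 := by omega
    have hk2 : k < 2 := by
      by_contra hh
      exact hjk (by rw [hj2, show k = 2 by omega])
    calc _ ≤ 1 * Wk p q k x := mul_le_mul_of_nonneg_right (hle j hj) (Wk_nonneg _ _ _ _)
      _ = Wk p q k x := one_mul _
      _ ≤ _ := Wk_le h1 h2 p q (by omega)

end

end FarMF
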