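import Mathlib

/-!
# A polynomial on a circle is controlled by its values on an arc (helper91)

`remez`: `P` of degree `≤ D`, `‖P (exp (2 i y))‖ ≤ M` for `Im y = h`, `|Re y| ≤ δ` (`0 < δ ≤ π / 4`) gives
`‖P (exp (2 i x))‖ ≤ (π e / (2 δ)) ^ D * M` for every `x` with `Im x = h`.
-/

set_option autoImplicit false

open Complex Finset Polynomial

noncomputable section

namespace ISR

theorem prod_abs_sub (D j : ℕ) (hj : j ≤ D) :
    ∏ k ∈ (range (D + 1)).erase j, |(j : ℝ) - k| = (j.factorial : ℝ) * ((D - j).factorial : ℝ) := by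
  obtain ⟨m, rfl⟩ := Nat.exists_eq_add_of_le hj
  have h1 : (range (j + m + 1)).erase j = range j ∪ (range m).map ⟨fun i => j + 1 + i, fun a b h => by
      simpa using h⟩ := by
    ext k
    simp only [mem_erase, mem_range, mem_union, mem_map, Function.Embedding.coeFn_mk]
    constructor
    · rintro ⟨h, h'⟩
      rcases lt_or_gt_of_ne h with h2 | h2
      · exact Or.inl h2
      · exact Or.inr ⟨k - (j + 1), by omega, by omega⟩
    · rintro (h | ⟨i, hi, rfl⟩)
      · exact ⟨by omega, by omega⟩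
      · exact ⟨by omega, by omega⟩
  have h2 : Disjoint (range j) ((range m).map ⟨fun i => j + 1 + i, fun a b h => by simpa using h⟩) := by
    rw [disjoint_left]
    intro a ha hb
    simp only [mem_map, mem_range, Function.Embedding.coeFn_mk] at ha hb
    obtain ⟨i, _, rfl⟩ := hb
    omega
  rw [h1, prod_union h2, prod_map]
  congr 1
  · have : ∀ n : ℕ, ∏ k ∈ range n, |(n : ℝ) - k| = (n.factorial : ℝ) := by
      intro n
      rw [← prod_range_reflect]
      rw [← Finset.prod_range_add_one_eq_factorial]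
      push_cast
      refine prod_congr rfl fun k hk => ?_
      have hk' : k < n := mem_range.1 hk
      have e : ((n - 1 - k : ℕ) : ℝ) = (n : ℝ) - 1 - k := by
        rw [Nat.cast_sub (by omega), Nat.cast_sub (by omega)]
        push_cast
        ring
      rw [e]
      rw [show (n : ℝ) - ((n : ℝ) - 1 - k) = k + 1 by ring]
      exact abs_of_nonneg (by positivity)
    exact this j
  · rw [show j + m - j = m by omega, ← Finset.prod_range_add_one_eq_factorial]
    push_cast
    refine prod_congr rfl fun k _ => ?_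
    simp only [Function.Embedding.coeFn_mk]
    push_cast
    rw [show (j : ℝ) - (j + 1 + k) = -(k + 1) by ring, abs_neg]
    exact abs_of_nonneg (by positivity)

theorem pow_le_exp_fac (D : ℕ) : (D : ℝ) ^ D ≤ Real.exp D * D.factorial := by
  have h := Real.pow_div_factorial_le_exp (x := (D : ℝ)) (by positivity) D
  rwa [div_le_iff₀ (by positivity)] at h

/-- **a polynomial on a circle is controlled by its values on an arc** -/
theorem remez {P : ℂ[X]} {D : ℕ} (hP : P.natDegree ≤ D) {δ h M : ℝ} (hδ : 0 < δ)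
    (hδ' : δ ≤ Real.pi / 4) (hM : ∀ y : ℂ, y.im = h → |y.re| ≤ δ → ‖P.eval (exp (2 * y * I))‖ ≤ M)
    {x : ℂ} (hx : x.im = h) :
    ‖P.eval (exp (2 * x * I))‖ ≤ (Real.pi * Real.exp 1 / (2 * δ)) ^ D * M := by
  have hpi := Real.pi_pos
  rcases Nat.eq_zero_or_pos D with rfl | hD
  · have h1 := Polynomial.eq_C_of_natDegree_le_zero hP
    have h2 := hM ⟨0, h⟩ rfl (by simpa using hδ.le)
    rw [h1] at h2 ⊢
    simpa using h2
  have hM0 : 0 ≤ M := (norm_nonneg _).trans (hM ⟨0, h⟩ rfl (by simpa using hδ.le))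
  have hDr : (0 : ℝ) < D := by exact_mod_cast hD
  set r : ℝ := Real.exp (-(2 * h)) with hr
  have hr0 : 0 < r := Real.exp_pos _
  -- the nodes
  set φ : ℕ → ℝ := fun j => δ * (2 * j / D - 1) with hφ
  set y : ℕ → ℂ := fun j => ⟨φ j, h⟩ with hy
  set v : ℕ → ℂ := fun j => exp (2 * y j * I) with hv
  have hφδ : ∀ j, j ≤ D → |φ j| ≤ δ := by
    intro j hj
    have hj' : (j : ℝ) ≤ D := by exact_mod_cast hj
    have h1 : 0 ≤ 2 * (j : ℝ) / D := by positivity
    have h2 : 2 * (j : ℝ) / D ≤ 2 := by
      rw [div_le_iff₀ hDr]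
      linarith
    rw [hφ]
    show |δ * (2 * j / D - 1)| ≤ δ
    rw [abs_mul, abs_of_pos hδ]
    have : |2 * (j : ℝ) / D - 1| ≤ 1 := abs_le.2 ⟨by linarith, by linarith⟩
    nlinarith
  have hnorm : ∀ z : ℂ, z.im = h → ‖exp (2 * z * I)‖ = r := by
    intro z hz
    rw [Complex.norm_exp, hr]
    congr 1
    simp [hz]
  -- distance of two nodes
  have hdist : ∀ j k : ℕ, j ≤ D → k ≤ D → 2 * r * (2 * δ / Real.pi) * 2 / D * |(j : ℝ) - k| ≤ ‖v j - v k‖ := by
    intro j k hj hk
    have e1 : v j - v k = exp ((y j + y k) * I) * (2 * I * sin ((φ j - φ k : ℝ) : ℂ)) := by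
      have e2 : ((φ j - φ k : ℝ) : ℂ) = y j - y k := by
        apply Complex.ext
        · simp [hy]
        · simp [hy]
      rw [e2, Complex.sin, hv]
      show exp (2 * y j * I) - exp (2 * y k * I) = _
      have e3 : exp ((y j + y k) * I) * exp (-(y j - y k) * I) = exp (2 * y k * I) := by
        rw [← exp_add]; ring_nf
      have e4 : exp ((y j + y k) * I) * exp ((y j - y k) * I) = exp (2 * y j * I) := by
        rw [← exp_add]; ring_nf
      rw [← e3, ← e4]
      have hI : I * I = -1 := Complex.I_mul_I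
      linear_combination (- exp ((y j + y k) * I) * (exp (-(y j - y k) * I) - exp ((y j - y k) * I))) * hI
    have e5 : ‖exp ((y j + y k) * I)‖ = r := by
      rw [Complex.norm_exp, hr]
      congr 1
      simp [hy]
      ring
    rw [e1, norm_mul, e5, norm_mul, norm_mul, Complex.norm_ofNat, Complex.norm_I, ← Complex.ofReal_sin,
      Complex.norm_real, Real.norm_eq_abs, mul_one]
    have h6 : φ j - φ k = 2 * δ / D * ((j : ℝ) - k) := by
      show δ * (2 * j / D - 1) - δ * (2 * k / D - 1) = _
      field_simp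
      ring
    have h7 : |φ j - φ k| ≤ Real.pi / 2 := by
      have h8 := hφδ j hj
      have h9 := hφδ k hk
      calc |φ j - φ k| ≤ |φ j| + |φ k| := abs_sub _ _
        _ ≤ _ := by linarith
    have h10 : 2 / Real.pi * |φ j - φ k| ≤ |Real.sin (φ j - φ k)| :=
      Real.mul_abs_le_abs_sin h7
    rw [h6, abs_mul, abs_of_pos (show 0 < 2 * δ / D by positivity)] at h10
    have h11 := mul_le_mul_of_nonneg_left h10 (show 0 ≤ 2 * r by positivity)
    rw [h6]
    refine le_trans (le_of_eq ?_) (h11.trans (le_of_eq ?_))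
    · field_simp
    · ring
  have hinj : Set.InjOn v (range (D + 1) : Finset ℕ) := by
    intro j hj k hk hjk
    have hj' : j ≤ D := by
      have := mem_range.1 (Finset.mem_coe.1 hj)
      omega
    have hk' : k ≤ D := by
      have := mem_range.1 (Finset.mem_coe.1 hk)
      omega
    have h1 := hdist j k hj' hk'
    rw [hjk, sub_self, norm_zero] at h1
    by_contra hne
    have h2 : 0 < |(j : ℝ) - k| := abs_pos.2 (sub_ne_zero.2 (by exact_mod_cast hne))
    have h3 : 0 < 2 * r * (2 * δ / Real.pi) * 2 / D * |(j : ℝ) - k| := by positivity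
    linarith
  have hdeg : P.degree < ((range (D + 1)).card : WithBot ℕ) := by
    rw [card_range]
    exact lt_of_le_of_lt (Polynomial.degree_le_natDegree) (by exact_mod_cast (by omega : P.natDegree < D + 1))
  have hI := Lagrange.eq_interpolate hinj hdeg
  rw [hI, Lagrange.interpolate_apply, Polynomial.eval_finsetSum]
  set w : ℂ := exp (2 * x * I) with hw
  have hwn : ‖w‖ = r := hnorm x hx
  have hterm : ∀ j ∈ range (D + 1), ‖(C (P.eval (v j)) * Lagrange.basis (range (D + 1)) v j).eval w‖ ≤
      M * ((Real.pi / (2 * δ)) ^ D * Real.exp D * ((D.choose j : ℕ) : ℝ) * (1 / 2) ^ D) := by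
    intro j hj
    have hj' : j ≤ D := by
      have := mem_range.1 hj
      omega
    rw [Polynomial.eval_mul, Polynomial.eval_C, norm_mul]
    refine mul_le_mul (hM (y j) rfl (hφδ j hj')) ?_ (norm_nonneg _) hM0
    unfold Lagrange.basis Lagrange.basisDivisor
    rw [Polynomial.eval_prod, norm_prod]
    have hc0 : 0 < 2 * r * (2 * δ / Real.pi) * 2 / D := by positivity
    have h1 : ∀ k ∈ (range (D + 1)).erase j, ‖(C (v j - v k)⁻¹ * (X - C (v k))).eval w‖ ≤
        Real.pi * D / (4 * δ) * |(j : ℝ) - k|⁻¹ := by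
      intro k hk
      have hk1 := (mem_erase.1 hk).1
      have hk2 : k ≤ D := by
        have := mem_range.1 (mem_erase.1 hk).2
        omega
      have h2 : 0 < |(j : ℝ) - k| := abs_pos.2 (sub_ne_zero.2 (by exact_mod_cast hk1.symm))
      have h3 := hdist j k hj' hk2
      have h4 : 0 < 2 * r * (2 * δ / Real.pi) * 2 / D * |(j : ℝ) - k| := by positivity
      rw [Polynomial.eval_mul, Polynomial.eval_C, Polynomial.eval_sub, Polynomial.eval_X,
        Polynomial.eval_C, norm_mul, norm_inv]
      have h5 : ‖w - v k‖ ≤ 2 * r := by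
        calc ‖w - v k‖ ≤ ‖w‖ + ‖v k‖ := norm_sub_le _ _
          _ = 2 * r := by rw [hwn, show ‖v k‖ = r from hnorm _ rfl]; ring
      calc ‖v j - v k‖⁻¹ * ‖w - v k‖
          ≤ (2 * r * (2 * δ / Real.pi) * 2 / D * |(j : ℝ) - k|)⁻¹ * (2 * r) :=
            mul_le_mul (inv_anti₀ h4 h3) h5 (norm_nonneg _) (by positivity)
        _ = _ := by
            field_simp
            ring
    refine (Finset.prod_le_prod (fun _ _ => norm_nonneg _) h1).trans ?_
    rw [Finset.prod_mul_distrib, Finset.prod_const, Finset.prod_inv_distrib, prod_abs_sub D j hj',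
      card_erase_of_mem hj, card_range, Nat.add_sub_cancel]
    have h6 : ((D.choose j : ℕ) : ℝ) = (D.factorial : ℝ) / ((j.factorial : ℝ) * ((D - j).factorial : ℝ)) :=
      Nat.cast_choose ℝ hj'
    have h7 : (0 : ℝ) < (j.factorial : ℝ) * ((D - j).factorial : ℝ) := by positivity
    have h8 := pow_le_exp_fac D
    have h9 : (Real.pi * D / (4 * δ)) ^ D = (Real.pi / (2 * δ)) ^ D * (1 / 2) ^ D * (D : ℝ) ^ D := by
      rw [← mul_pow, ← mul_pow]
      congr 1
      field_simp
      ring
    rw [h9, h6]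
    calc (Real.pi / (2 * δ)) ^ D * (1 / 2) ^ D * (D : ℝ) ^ D * ((j.factorial : ℝ) * ((D - j).factorial : ℝ))⁻¹
        ≤ (Real.pi / (2 * δ)) ^ D * (1 / 2) ^ D * (Real.exp D * D.factorial) *
            ((j.factorial : ℝ) * ((D - j).factorial : ℝ))⁻¹ := by gcongr
      _ = (Real.pi / (2 * δ)) ^ D * Real.exp D * ((D.factorial : ℝ) /
            ((j.factorial : ℝ) * ((D - j).factorial : ℝ))) * (1 / 2) ^ D := by
          rw [div_eq_mul_inv]
          ring
  refine (norm_sum_le _ _).trans ((Finset.sum_le_sum hterm).trans ?_)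
  rw [← Finset.mul_sum]
  have h11 : ∑ j ∈ range (D + 1), ((Real.pi / (2 * δ)) ^ D * Real.exp D * ((D.choose j : ℕ) : ℝ) *
      (1 / 2) ^ D) = (Real.pi * Real.exp 1 / (2 * δ)) ^ D := by
    have h12 : ∑ j ∈ range (D + 1), ((D.choose j : ℕ) : ℝ) = 2 ^ D := by
      have := Nat.sum_range_choose D
      exact_mod_cast this
    have h13 : (1 / 2 : ℝ) ^ D * 2 ^ D = 1 := by
      rw [← mul_pow]
      norm_num
    have h14 : Real.exp (D : ℝ) = Real.exp 1 ^ D := by
      rw [← Real.exp_nat_mul, mul_one]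
    calc _ = ∑ j ∈ range (D + 1), (Real.pi / (2 * δ)) ^ D * Real.exp D * (1 / 2 : ℝ) ^ D *
          ((D.choose j : ℕ) : ℝ) := by
          refine Finset.sum_congr rfl fun j _ => ?_
          ring
      _ = (Real.pi / (2 * δ)) ^ D * Real.exp D * ((1 / 2 : ℝ) ^ D * 2 ^ D) := by
          rw [← Finset.mul_sum, h12]
          ring
      _ = _ := by
          rw [h13, h14, mul_one, ← mul_pow]
          congr 1
          ring
  rw [h11, mul_comm]

end ISR
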