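import Pool.Agent.ISR.ThinS
import Pool.Agent.ISR.Remez
import Pool.Agent.PB.KJoin

/-!
# ISO by rows: from the near zone, the far zone and the zeros at the rows to the `K`-terms (helper91)

`Wide`: `f` is a trigonometric polynomial of degree `O(N)` up to a factor without zeros, `≤ N^C` in the near zone
`|Re x| ≤ a₀` and in the far zone `a₁ ≤ |Re x| ≤ a + σ` up to the height `ct log N`; in the far zone it is `J₊ (x - a)`
(right), `J₋ (x + a)` (left) up to `N^{-E}` (up to the height `cs log N`), and `J₊ - J₋` has `≥ N / 2` zeros near the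
real axis.

* `Wide.crude`: `|f| ≤ exp (C' N)` everywhere up to the height `ct log N` (`remez`);
* `Wide.mid`: `|f| ≤ N^{C+1}` in the middle zone up to the height `c₁ log N` (`thinS`);
* **`join`**: `PBV.SD` and the `K`-terms on `|Re z| ≤ a + ρ`.
-/

set_option autoImplicit false

open Complex Set Filter Topology Polynomial
open Pool.Agent.PB.Rec (EL)

noncomputable section

namespace ISR

/-- the hypotheses on the function of one wide row -/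
structure Wide (a σ R a₀ a₁ δJ b₀ y₀ ct cs xJ C Cp E : ℝ) (N : ℕ) (f : ℂ → ℂ) : Prop where
  poly : ∃ (P : ℂ[X]) (W : ℂ → ℂ) (D : ℕ), (D : ℝ) ≤ Cp * N ∧ P.natDegree ≤ D ∧
    (∀ x : ℂ, |x.re| < R → DifferentiableAt ℂ W x ∧ W x ≠ 0) ∧
    (∀ x : ℂ, |x.re| < R → f x * W x = P.eval (cexp (2 * x * I))) ∧
    ∀ x x' : ℂ, x.im = x'.im → |x'.re| ≤ a₀ → |x.re| ≤ a + σ → ‖W x'‖ ≤ Real.exp (Cp * N) * ‖W x‖
  near : ∀ x : ℂ, |x.re| ≤ a₀ → |x.im| ≤ ct * Real.log N → ‖f x‖ ≤ (N : ℝ) ^ C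
  far : ∀ x : ℂ, a₁ ≤ |x.re| → |x.re| ≤ a + σ → |x.im| ≤ ct * Real.log N → ‖f x‖ ≤ (N : ℝ) ^ C
  J : ∃ Jp Jm : ℂ → ℂ,
    (∀ x : ℂ, a₁ ≤ x.re → x.re ≤ a + σ → |x.im| ≤ cs * Real.log N → ‖f x - Jp (x - a)‖ ≤ (N : ℝ) ^ (-E)) ∧
    (∀ x : ℂ, -(a + σ) ≤ x.re → x.re ≤ -a₁ → |x.im| ≤ cs * Real.log N → ‖f x - Jm (x + a)‖ ≤ (N : ℝ) ^ (-E)) ∧
    ∃ (ι : Type) (_ : Fintype ι) (c : ι → ℂ) (Q : ℂ → ℂ), N ≤ 2 * Fintype.card ι ∧
      (∀ j, |(c j).re| ≤ b₀ ∧ |(c j).im| ≤ y₀) ∧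
      ∀ y : ℂ, |y.re| ≤ δJ → |y.im| ≤ xJ * Real.log N + y₀ →
        DifferentiableAt ℂ Q y ∧ Jp y - Jm y = (∏ j, (y - c j)) * Q y ∧ ‖Jp y - Jm y‖ ≤ (N : ℝ) ^ C

variable {a σ R a₀ a₁ δJ b₀ y₀ ct cs xJ C Cp E : ℝ} {N : ℕ} {f : ℂ → ℂ}

theorem Wide.diff (hf : Wide a σ R a₀ a₁ δJ b₀ y₀ ct cs xJ C Cp E N f) {x : ℂ} (hx : |x.re| < R) :
    DifferentiableAt ℂ f x := by
  obtain ⟨P, W, D, -, -, hW, hP, -⟩ := hf.poly
  have hopen : IsOpen {z : ℂ | |z.re| < R} := isOpen_lt (by fun_prop) continuous_const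
  have h1 : f =ᶠ[𝓝 x] fun z => P.eval (cexp (2 * z * I)) / W z := by
    filter_upwards [hopen.mem_nhds hx] with z hz
    rw [eq_div_iff (hW z hz).2]
    exact hP z hz
  refine DifferentiableAt.congr_of_eventuallyEq ?_ h1
  refine DifferentiableAt.div ?_ (hW x hx).1 (hW x hx).2
  have h2 : DifferentiableAt ℂ (fun w : ℂ => P.eval w) (cexp (2 * x * I)) := P.differentiable.differentiableAt
  have h3 : DifferentiableAt ℂ (fun z : ℂ => cexp (2 * z * I)) x := by fun_prop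
  exact h2.comp x h3

/-- the crude bound -/
theorem Wide.crude (hf : Wide a σ R a₀ a₁ δJ b₀ y₀ ct cs xJ C Cp E N f) (ha₀ : 0 < a₀) (ha₀' : a₀ ≤ Real.pi / 4)
    (ha₀R : a₀ < R) (haR : a + σ < R) (hC : 0 ≤ C) (_hCp : 0 ≤ Cp) (hN : 1 ≤ N) {x : ℂ} (hx : |x.re| ≤ a + σ)
    (hxi : |x.im| ≤ ct * Real.log N) :
    ‖f x‖ ≤ Real.exp ((Cp * (1 + Real.log (Real.pi * Real.exp 1 / (2 * a₀))) + C) * N) := by
  have hpi := Real.pi_pos
  have hNr : (1 : ℝ) ≤ N := by exact_mod_cast hN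
  obtain ⟨P, W, D, hD, hPD, hW, hP, hr⟩ := hf.poly
  have hWx := hW x (lt_of_le_of_lt hx haR)
  have hWn : 0 < ‖W x‖ := norm_pos_iff.2 hWx.2
  have hNC : (N : ℝ) ^ C ≤ Real.exp (C * N) := by
    rw [Real.rpow_def_of_pos (by linarith), Real.exp_le_exp]
    have := Real.log_le_sub_one_of_pos (show (0 : ℝ) < N by linarith)
    nlinarith
  have h1 : ∀ y : ℂ, y.im = x.im → |y.re| ≤ a₀ →
      ‖P.eval (cexp (2 * y * I))‖ ≤ (N : ℝ) ^ C * (Real.exp (Cp * N) * ‖W x‖) := by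
    intro y hy hy'
    rw [← hP y (lt_of_le_of_lt hy' ha₀R), norm_mul]
    refine mul_le_mul (hf.near y hy' (by rw [hy]; exact hxi)) (hr x y hy.symm hy' hx) (norm_nonneg _) (by positivity)
  have h2 := remez hPD ha₀ ha₀' h1 (x := x) rfl
  rw [← hP x (lt_of_le_of_lt hx haR), norm_mul] at h2
  set q : ℝ := Real.pi * Real.exp 1 / (2 * a₀) with hq
  have hq1 : 1 ≤ q := by
    rw [hq, le_div_iff₀ (by positivity)]
    have : 1 ≤ Real.exp 1 := Real.one_le_exp (by norm_num)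
    nlinarith
  have h3 : q ^ D ≤ Real.exp (Cp * Real.log q * N) := by
    rw [← Real.exp_log (show 0 < q by linarith), ← Real.exp_nat_mul, Real.log_exp, Real.exp_le_exp]
    have h4 : 0 ≤ Real.log q := Real.log_nonneg hq1
    nlinarith
  have h5 : ‖f x‖ ≤ q ^ D * ((N : ℝ) ^ C * Real.exp (Cp * N)) := by
    have h6 : ‖f x‖ * ‖W x‖ ≤ q ^ D * ((N : ℝ) ^ C * Real.exp (Cp * N)) * ‖W x‖ := by
      calc _ ≤ _ := h2
        _ = _ := by ring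
    exact le_of_mul_le_mul_right h6 hWn
  calc ‖f x‖ ≤ q ^ D * ((N : ℝ) ^ C * Real.exp (Cp * N)) := h5
    _ ≤ Real.exp (Cp * Real.log q * N) * (Real.exp (C * N) * Real.exp (Cp * N)) := by gcongr
    _ = _ := by
        rw [← Real.exp_add, ← Real.exp_add]
        congr 1
        ring

/-- the middle zone -/
theorem Wide.mid {c₁ κ : ℝ} (ha₀ : 0 < a₀) (ha₀' : a₀ ≤ Real.pi / 4) (ha₀₁ : a₀ < a₁) (ha₁ : a₁ ≤ a + σ)
    (haR : a + σ < R) (hC : 0 ≤ C) (hCp : 0 ≤ Cp) (hc : 0 ≤ c₁) (hκ : 0 < κ)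
    (hκ₁ : κ * ((a₁ - a₀) / 2) < Real.pi / 2) (hκc : 1 ≤ κ * (ct - c₁)) :
    ∃ N0 : ℕ, ∀ N ≥ N0, ∀ f : ℂ → ℂ, Wide a σ R a₀ a₁ δJ b₀ y₀ ct cs xJ C Cp E N f →
      ∀ x : ℂ, |x.re| ≤ a + σ → |x.im| ≤ c₁ * Real.log N → ‖f x‖ ≤ (N : ℝ) ^ (C + 1) := by
  have hct : c₁ < ct := by
    by_contra h
    push Not at h
    nlinarith
  set C1 : ℝ := Cp * (1 + Real.log (Real.pi * Real.exp 1 / (2 * a₀))) + C with hC1
  have hpi := Real.pi_pos
  have hC10 : 0 ≤ C1 := by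
    have hq1 : 1 ≤ Real.pi * Real.exp 1 / (2 * a₀) := by
      rw [le_div_iff₀ (by positivity)]
      have : 1 ≤ Real.exp 1 := Real.one_le_exp (by norm_num)
      nlinarith
    have := Real.log_nonneg hq1
    positivity
  set δ : ℝ := (a₁ - a₀) / 2 with hδ
  have hδ0 : 0 < δ := by rw [hδ]; linarith
  set q0 := Real.cos (κ * δ) with hq0
  have hq0' : 0 < q0 := Real.cos_pos_of_mem_Ioo ⟨by nlinarith [mul_pos hκ hδ0], hκ₁⟩
  obtain ⟨N0, hN0⟩ := exists_nat_ge (Real.exp (2 * C1 / q0))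
  refine ⟨max N0 2, fun N hN f hf x hx hxi => ?_⟩
  have hN2 : 2 ≤ N := (le_max_right _ _).trans hN
  have hNr : (2 : ℝ) ≤ N := by exact_mod_cast hN2
  have hNr0 : (0 : ℝ) < N := by linarith
  have hNE : Real.exp (2 * C1 / q0) ≤ N := hN0.trans (by exact_mod_cast (le_max_left _ _).trans hN)
  have hL : 0 < Real.log N := Real.log_pos (by linarith)
  have hNC : 1 ≤ (N : ℝ) ^ C := Real.one_le_rpow (by linarith) hC
  have e1 : (N : ℝ) ^ (C + 1) = (N : ℝ) ^ C * N := by rw [Real.rpow_add hNr0, Real.rpow_one]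
  have hxt : |x.im| ≤ ct * Real.log N := hxi.trans (mul_le_mul_of_nonneg_right hct.le hL.le)
  have hup : (N : ℝ) ^ C ≤ (N : ℝ) ^ (C + 1) := by
    rw [e1]
    nlinarith
  rcases le_total |x.re| a₀ with h0 | h0
  · exact (hf.near x h0 hxt).trans hup
  rcases le_total a₁ |x.re| with h1 | h1
  · exact (hf.far x h1 hx hxt).trans hup
  -- the strip of half width `δ` around `± (a₀ + a₁) / 2`
  have key : ∀ s : ℝ, |s| = 1 → |x.re - s * ((a₀ + a₁) / 2)| ≤ δ → ‖f x‖ ≤ (N : ℝ) ^ (C + 1) := by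
    intro s hs hxs
    have habs : ∀ z : ℂ, |z.re - s * ((a₀ + a₁) / 2)| ≤ δ → a₀ ≤ |z.re| ∧ |z.re| ≤ a₁ := by
      intro z hz
      have h2 : |s * ((a₀ + a₁) / 2)| = (a₀ + a₁) / 2 := by
        rw [abs_mul, hs, one_mul, abs_of_pos (by linarith)]
      constructor
      · have h3 := abs_sub_abs_le_abs_sub (s * ((a₀ + a₁) / 2)) z.re
        rw [h2, abs_sub_comm] at h3
        rw [hδ] at hz
        linarith
      · have h3 := abs_sub_abs_le_abs_sub z.re (s * ((a₀ + a₁) / 2))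
        rw [h2] at h3
        rw [hδ] at hz
        linarith
    have hside : ∀ z : ℂ, |z.re - s * ((a₀ + a₁) / 2)| = δ → |z.im| ≤ ct * Real.log N →
        ‖f z‖ ≤ (N : ℝ) ^ C := by
      intro z hz hzi
      have h4 := habs z hz.le
      have h5 : |z.re| = a₀ ∨ |z.re| = a₁ := by
        rcases abs_eq (by norm_num : (0 : ℝ) ≤ 1) |>.1 hs with rfl | rfl
        · rcases (abs_eq hδ0.le).1 hz with h | h
          · right
            rw [show z.re = a₁ by rw [hδ] at h; linarith, abs_of_pos (by linarith)]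
          · left
            rw [show z.re = a₀ by rw [hδ] at h; linarith, abs_of_pos (by linarith)]
        · rcases (abs_eq hδ0.le).1 hz with h | h
          · left
            rw [show z.re = -a₀ by rw [hδ] at h; linarith, abs_neg, abs_of_pos (by linarith)]
          · right
            rw [show z.re = -a₁ by rw [hδ] at h; linarith, abs_neg, abs_of_pos (by linarith)]
      rcases h5 with h5 | h5
      · exact hf.near z h5.le hzi
      · exact hf.far z h5.ge (by rw [h5]; exact ha₁) hzi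
    have hend : ∀ z : ℂ, |z.re - s * ((a₀ + a₁) / 2)| ≤ δ → |z.im| = ct * Real.log N →
        ‖f z‖ ≤ Real.exp (C1 * (N : ℝ) ^ (1 : ℝ)) := by
      intro z hz hzi
      rw [Real.rpow_one]
      exact hf.crude ha₀ ha₀' (by linarith) haR hC hCp (by omega) ((habs z hz).2.trans ha₁) hzi.le
    have h6 := thinS_log (g := f) (a := s * ((a₀ + a₁) / 2)) (q := 1) (κ := κ) hN2 hδ0 hc hct hNC hC10 hκ hκ₁ hκc
      (fun z hz => hf.diff (lt_of_le_of_lt ((habs z hz.1).2.trans ha₁) haR)) hside hend hxs hxi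
    refine h6.trans ?_
    rw [e1]
    exact mul_le_mul_of_nonneg_left hNE (by positivity)
  rcases le_total 0 x.re with h2 | h2
  · refine key 1 (by norm_num) ?_
    rw [abs_of_nonneg h2] at h0 h1
    rw [abs_le, hδ]
    constructor <;> linarith
  · refine key (-1) (by norm_num) ?_
    rw [abs_of_nonpos h2] at h0 h1
    rw [abs_le, hδ]
    constructor <;> linarith

/-- **the difference under the period and the size** -/
theorem sd_of {c₁ κ x₁ ε : ℝ} (ha₀ : 0 < a₀) (ha₀' : a₀ ≤ Real.pi / 4) (ha₀₁ : a₀ < a₁) (hσ0 : 0 < σ)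
    (ha₁ : a₁ ≤ a - σ) (haR : a + σ < R) (hC : 0 ≤ C) (hCp : 0 ≤ Cp) (hc : 0 ≤ c₁) (hκ : 0 < κ)
    (hκ₁ : κ * ((a₁ - a₀) / 2) < Real.pi / 2) (hκc : 1 ≤ κ * (ct - c₁))
    (hσJ : σ < δJ) (hb₀ : 0 ≤ b₀) (hbJ : b₀ < δJ) (hy₀ : 0 ≤ y₀) (hε : 0 < ε) (hε1 : ε < 1) (hxJ : 0 < xJ)
    (hxJ' : xJ ≤ 2 * δJ / Real.pi) (hx₁ : x₁ ≤ c₁) (hx₁' : x₁ ≤ cs) (hx₁'' : x₁ ≤ (1 - ε) * xJ) {E' : ℝ}
    (hE : E' < E) :
    ∃ N0 : ℕ, ∀ N ≥ N0, ∀ f : ℂ → ℂ, Wide a σ R a₀ a₁ δJ b₀ y₀ ct cs xJ C Cp E N f →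
      PBV.SD a σ (x₁ * Real.log N) ((N : ℝ) ^ (C + 1)) ((N : ℝ) ^ (-E')) f := by
  have ha : 0 < a := by linarith
  obtain ⟨N1, hN1⟩ := Wide.mid (δJ := δJ) (b₀ := b₀) (y₀ := y₀) (cs := cs) (xJ := xJ) (E := E) ha₀ ha₀' ha₀₁
    (show a₁ ≤ a + σ by linarith) haR hC hCp hc hκ hκ₁ hκc
  obtain ⟨N2, hN2⟩ := PBV.small_Nx (δ := δJ) (ρ := σ) (b0 := b₀) (y0 := y₀) (x1 := xJ) C E (ε := ε)
    (by linarith) hσ0.le hσJ hb₀ hbJ hy₀ hε hε1 hxJ hxJ'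
  obtain ⟨N3, hN3⟩ := exists_nat_ge ((3 : ℝ) ^ (1 / (E - E')))
  refine ⟨max (max N1 N2) (max N3 1), fun N hN f hf => ?_⟩
  have hN1' : N1 ≤ N := (le_max_left _ _).trans ((le_max_left _ _).trans hN)
  have hN2' : N2 ≤ N := (le_max_right _ _).trans ((le_max_left _ _).trans hN)
  have hN3' : N3 ≤ N := (le_max_left _ _).trans ((le_max_right _ _).trans hN)
  have hN4 : 1 ≤ N := (le_max_right _ _).trans ((le_max_right _ _).trans hN)
  have hNr : (1 : ℝ) ≤ N := by exact_mod_cast hN4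
  have hNr0 : (0 : ℝ) < N := by linarith
  have hL : 0 ≤ Real.log N := Real.log_nonneg hNr
  have h3 : 3 * (N : ℝ) ^ (-E) ≤ (N : ℝ) ^ (-E') := by
    have h4 : (3 : ℝ) ≤ (N : ℝ) ^ (E - E') := by
      have h5 : (3 : ℝ) ^ (1 / (E - E')) ≤ N := hN3.trans (by exact_mod_cast hN3')
      have h6 := Real.rpow_le_rpow (by positivity) h5 (show 0 ≤ E - E' by linarith)
      rwa [← Real.rpow_mul (by norm_num), one_div_mul_cancel (by linarith), Real.rpow_one] at h6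
    calc 3 * (N : ℝ) ^ (-E) ≤ (N : ℝ) ^ (E - E') * (N : ℝ) ^ (-E) :=
          mul_le_mul_of_nonneg_right h4 (by positivity)
      _ = _ := by
          rw [← Real.rpow_add hNr0]
          congr 1
          ring
  obtain ⟨Jp, Jm, hp, hm, ι, hι, c, Q, hn, hcj, hJ⟩ := hf.J
  refine ⟨fun z hz _ => hf.diff (lt_of_le_of_lt hz haR), fun z hz hzi => ?_, fun z hz hzi => ?_⟩
  · refine hN1 N hN1' f hf z hz ?_
    rw [hzi]
    exact mul_le_mul_of_nonneg_right hx₁ hL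
  · have hz1 := abs_le.1 hz
    have hs : |z.im| ≤ cs * Real.log N := hzi.trans (mul_le_mul_of_nonneg_right hx₁' hL)
    have e1 := hp (z + a) (by simp only [add_re, ofReal_re]; linarith) (by simp only [add_re, ofReal_re]; linarith)
      (by simpa using hs)
    have e2 := hm (z - a) (by simp only [sub_re, ofReal_re]; linarith) (by simp only [sub_re, ofReal_re]; linarith)
      (by simpa using hs)
    rw [show z + (a : ℂ) - a = z by ring] at e1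
    rw [show z - (a : ℂ) + a = z by ring] at e2
    have e3 : ‖Jp z - Jm z‖ ≤ (N : ℝ) ^ (-E) := by
      refine hN2 N hN2' ι c (fun y => Jp y - Jm y) Q hn hcj ?_ ?_ ?_ z hz ?_
      · exact fun w hw => (hJ w hw.1 hw.2).1
      · exact fun w hw => (hJ w hw.1 hw.2).2.1
      · exact fun w hw => (hJ w hw.1 hw.2).2.2
      · refine hzi.trans ?_
        rw [← mul_assoc]
        exact mul_le_mul_of_nonneg_right hx₁'' hL
    calc ‖f (z + a) - f (z - a)‖ = ‖(f (z + a) - Jp z) + (Jp z - Jm z) - (f (z - a) - Jm z)‖ := by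
          congr 1
          ring
      _ ≤ ‖f (z + a) - Jp z‖ + ‖Jp z - Jm z‖ + ‖f (z - a) - Jm z‖ :=
          (norm_sub_le _ _).trans (add_le_add (norm_add_le _ _) le_rfl)
      _ ≤ 3 * (N : ℝ) ^ (-E) := by linarith
      _ ≤ _ := h3

/-- **the `K`-terms of the function of one wide row** -/
theorem join {c₁ κ x₁ ε ρ ε' e : ℝ} (ha₀ : 0 < a₀) (ha₀' : a₀ ≤ Real.pi / 4) (ha₀₁ : a₀ < a₁) (hρ : 0 ≤ ρ)
    (hρσ : ρ < σ) (ha₁ : a₁ ≤ a - σ) (haR : a + σ < R) (hC : 0 ≤ C) (hCp : 0 ≤ Cp) (hc : 0 ≤ c₁) (hκ : 0 < κ)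
    (hκ₁ : κ * ((a₁ - a₀) / 2) < Real.pi / 2) (hκc : 1 ≤ κ * (ct - c₁))
    (hσJ : σ < δJ) (hb₀ : 0 ≤ b₀) (hbJ : b₀ < δJ) (hy₀ : 0 ≤ y₀) (hε : 0 < ε) (hε1 : ε < 1) (hxJ : 0 < xJ)
    (hxJ' : xJ ≤ 2 * δJ / Real.pi) (hx0 : 0 < x₁) (hx₁ : x₁ ≤ c₁) (hx₁' : x₁ ≤ cs) (hx₁'' : x₁ ≤ (1 - ε) * xJ)
    (hε' : 0 < ε') (hE : e < E) :
    ∃ K0 : ℕ, ∀ K ≥ K0, ∃ N0 : ℕ, ∀ N ≥ N0, ∀ f : ℂ → ℂ, Wide a σ R a₀ a₁ δJ b₀ y₀ ct cs xJ C Cp E N f →
      ∀ z : ℂ, |z.re| ≤ a + ρ → |z.im| ≤ (1 - ε') * (x₁ * Real.log N) + 1 →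
        ‖f z - EL (Real.pi / a) K (PBV.cf a (-a) (x₁ * Real.log N) f) z‖ ≤ (N : ℝ) ^ (-e) := by
  have hσ0 : 0 < σ := by linarith
  have ha : 0 < a := by linarith
  obtain ⟨E', hE1, hE2⟩ := exists_between hE
  obtain ⟨N1, hN1⟩ := sd_of (Cp := Cp) (E' := E') ha₀ ha₀' ha₀₁ hσ0 ha₁ haR hC hCp hc hκ hκ₁ hκc hσJ hb₀ hbJ hy₀ hε
    hε1 hxJ hxJ' hx₁ hx₁' hx₁'' hE2
  obtain ⟨K0, hK0⟩ := PBV.kt (a := a) (σ := σ) (ρ := ρ) (x₁ := x₁) (ε := ε') (C + 1) e E' ha hρ hρσ (by linarith)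
    hx0 hε' hE1
  refine ⟨K0, fun K hK => ?_⟩
  obtain ⟨N2, hN2⟩ := hK0 K hK
  exact ⟨max N1 N2, fun N hN f hf =>
    hN2 N ((le_max_right _ _).trans hN) f (hN1 N ((le_max_left _ _).trans hN) f hf)⟩

end ISR
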