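import Mathlib

/-!
# ISO by rows: the maximum principle in a thin strip

`g` holomorphic in the rectangle `|Re z - a| ≤ δ`, `|Im z| ≤ H`, bounded by `M ≥ 1` on the long sides
and by `exp B` on the short sides.  Then
`‖g z‖ ≤ M * exp (4 B exp (- (π / (3 δ)) (H - |Im z|)))`.

* `cos_re`, `cos_re_ge`: real part of `cos (κ (z - a))`;
* **`thin`**: the bound;
* `thin_log`: the form used with `H = c₁ log N`, `B = C N log N`.
-/

set_option autoImplicit false

open Complex Set Metric Filter Topology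

noncomputable section

namespace ISR

/-- real part of the barrier -/
theorem cos_re (x y : ℝ) : (Complex.cos (x + y * I)).re = Real.cos x * Real.cosh y := by
  rw [Complex.cos_add, Complex.cos_mul_I, Complex.sin_mul_I]
  simp [← Complex.ofReal_cos, ← Complex.ofReal_cosh, ← Complex.ofReal_sin, ← Complex.ofReal_sinh]

/-- the closed rectangle -/
def Rc (a δ H : ℝ) : Set ℂ := {z | |z.re - a| ≤ δ ∧ |z.im| ≤ H}

/-- the open rectangle -/
def Ro (a δ H : ℝ) : Set ℂ := {z | |z.re - a| < δ ∧ |z.im| < H}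

theorem Ro_open (a δ H : ℝ) : IsOpen (Ro a δ H) := by
  unfold Ro
  refine IsOpen.and ?_ ?_
  · exact isOpen_lt (by fun_prop) continuous_const
  · exact isOpen_lt (by fun_prop) continuous_const

theorem Rc_closed (a δ H : ℝ) : IsClosed (Rc a δ H) := by
  unfold Rc
  refine IsClosed.and ?_ ?_
  · exact isClosed_le (by fun_prop) continuous_const
  · exact isClosed_le (by fun_prop) continuous_const

theorem Ro_sub_Rc (a δ H : ℝ) : Ro a δ H ⊆ Rc a δ H := fun _ h => ⟨h.1.le, h.2.le⟩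

theorem Ro_bounded (a δ H : ℝ) : Bornology.IsBounded (Ro a δ H) := by
  rw [isBounded_iff_forall_norm_le]
  refine ⟨|a| + |δ| + |H|, fun z hz => ?_⟩
  have h1 : |z.re| ≤ |a| + |δ| := by
    have := hz.1.le
    calc |z.re| = |(z.re - a) + a| := by ring_nf
      _ ≤ |z.re - a| + |a| := abs_add_le _ _
      _ ≤ |a| + |δ| := by linarith [le_abs_self δ]
  have h2 : |z.im| ≤ |H| := hz.2.le.trans (le_abs_self H)
  calc ‖z‖ ≤ |z.re| + |z.im| := Complex.norm_le_abs_re_add_abs_im z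
    _ ≤ _ := by linarith

theorem closure_Ro (a δ H : ℝ) : closure (Ro a δ H) ⊆ Rc a δ H :=
  closure_minimal (Ro_sub_Rc a δ H) (Rc_closed a δ H)

theorem frontier_Ro {a δ H : ℝ} {z : ℂ} (hz : z ∈ frontier (Ro a δ H)) :
    z ∈ Rc a δ H ∧ (|z.re - a| = δ ∨ |z.im| = H) := by
  rw [(Ro_open a δ H).frontier_eq] at hz
  have h1 := closure_Ro a δ H hz.1
  refine ⟨h1, ?_⟩
  by_contra h
  push Not at h
  exact hz.2 ⟨lt_of_le_of_ne h1.1 h.1, lt_of_le_of_ne h1.2 h.2⟩

theorem Rc_sub_closure {a δ H : ℝ} (hδ : 0 < δ) (hH : 0 < H) : Rc a δ H ⊆ closure (Ro a δ H) := by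
  intro z hz
  rw [Metric.mem_closure_iff]
  intro ε hε
  -- shrink towards the centre `a`
  set s : ℝ := min 1 (ε / (2 * (δ + H + 1))) with hs
  have hs0 : 0 < s := by
    rw [hs]
    exact lt_min one_pos (by positivity)
  have hs1 : s ≤ 1 := min_le_left _ _
  have hs2 : s ≤ ε / (2 * (δ + H + 1)) := min_le_right _ _
  refine ⟨⟨a + (1 - s) * (z.re - a), (1 - s) * z.im⟩, ⟨?_, ?_⟩, ?_⟩
  · show |a + (1 - s) * (z.re - a) - a| < δ
    have e : a + (1 - s) * (z.re - a) - a = (1 - s) * (z.re - a) := by ring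
    rw [e, abs_mul, abs_of_nonneg (by linarith)]
    have h1 := hz.1
    nlinarith [abs_nonneg (z.re - a)]
  · show |(1 - s) * z.im| < H
    rw [abs_mul, abs_of_nonneg (by linarith)]
    have h1 := hz.2
    nlinarith [abs_nonneg z.im]
  · rw [Complex.dist_eq]
    have e : z - (⟨a + (1 - s) * (z.re - a), (1 - s) * z.im⟩ : ℂ) =
        ⟨s * (z.re - a), s * z.im⟩ := by
      apply Complex.ext
      · simp; ring
      · simp; ring
    rw [e]
    refine lt_of_le_of_lt (Complex.norm_le_abs_re_add_abs_im _) ?_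
    simp only [abs_mul, abs_of_pos hs0]
    have h1 := hz.1
    have h2 := hz.2
    have h3 : s * |z.re - a| + s * |z.im| ≤ s * (δ + H) := by nlinarith
    have h4 : s * (δ + H) ≤ ε / (2 * (δ + H + 1)) * (δ + H) := by
      exact mul_le_mul_of_nonneg_right hs2 (by positivity)
    have h5 : ε / (2 * (δ + H + 1)) * (δ + H) < ε := by
      rw [div_mul_eq_mul_div, div_lt_iff₀ (by positivity)]
      nlinarith
    linarith

/-- **the maximum principle in a thin strip** -/
theorem thin {g : ℂ → ℂ} {a δ H M B : ℝ} (hδ : 0 < δ) (hH : 0 < H) (hM : 1 ≤ M) (hB : 0 ≤ B)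
    (hg : ∀ z ∈ Rc a δ H, DifferentiableAt ℂ g z)
    (hside : ∀ z : ℂ, |z.re - a| = δ → |z.im| ≤ H → ‖g z‖ ≤ M)
    (hend : ∀ z : ℂ, |z.re - a| ≤ δ → |z.im| = H → ‖g z‖ ≤ Real.exp B) {z : ℂ}
    (hz : z ∈ Rc a δ H) :
    ‖g z‖ ≤ M * Real.exp (4 * B * Real.exp (-(Real.pi / (3 * δ) * (H - |z.im|)))) := by
  have hpi := Real.pi_pos
  set κ : ℝ := Real.pi / (3 * δ) with hκ
  have hκ0 : 0 < κ := by rw [hκ]; positivity
  have hκδ : κ * δ = Real.pi / 3 := by rw [hκ]; field_simp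
  set B' : ℝ := 2 * B / Real.cosh (κ * H) with hB'
  have hc0 : ∀ x : ℝ, 0 < Real.cosh x := Real.cosh_pos
  have hB'0 : 0 ≤ B' := by rw [hB']; exact div_nonneg (by positivity) (hc0 _).le
  -- the barrier
  let Φ : ℂ → ℂ := fun z => Complex.cos ((κ : ℂ) * (z - a))
  have hΦre : ∀ z : ℂ, (Φ z).re = Real.cos (κ * (z.re - a)) * Real.cosh (κ * z.im) := by
    intro z
    have e : (κ : ℂ) * (z - a) = ((κ * (z.re - a) : ℝ) : ℂ) + ((κ * z.im : ℝ) : ℂ) * I := by
      apply Complex.ext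
      · simp
      · simp
    show (Complex.cos ((κ : ℂ) * (z - a))).re = _
    rw [e, cos_re]
  have hcosge : ∀ z ∈ Rc a δ H, 1 / 2 ≤ Real.cos (κ * (z.re - a)) := by
    intro z hz
    rw [← Real.cos_abs, ← Real.cos_pi_div_three]
    refine Real.cos_le_cos_of_nonneg_of_le_pi (abs_nonneg _) (by linarith) ?_
    rw [abs_mul, abs_of_pos hκ0, ← hκδ]
    exact mul_le_mul_of_nonneg_left hz.1 hκ0.le
  have hΦpos : ∀ z ∈ Rc a δ H, 0 ≤ (Φ z).re := by
    intro z hz
    rw [hΦre]
    exact mul_nonneg (by linarith [hcosge z hz]) (hc0 _).le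
  let G : ℂ → ℂ := fun z => g z * Complex.exp (-(B' : ℂ) * Φ z)
  have hGn : ∀ z : ℂ, ‖G z‖ = ‖g z‖ * Real.exp (-(B' * (Φ z).re)) := by
    intro z
    show ‖g z * Complex.exp (-(B' : ℂ) * Φ z)‖ = _
    rw [norm_mul, Complex.norm_exp]
    congr 2
    simp
  have hGd : ∀ z ∈ Rc a δ H, DifferentiableAt ℂ G z := by
    intro z hz
    refine (hg z hz).mul ?_
    have : DifferentiableAt ℂ Φ z := by
      show DifferentiableAt ℂ (fun z : ℂ => Complex.cos ((κ : ℂ) * (z - a))) z
      fun_prop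
    exact ((differentiableAt_const _).mul this).cexp
  have hGcl : DiffContOnCl ℂ G (Ro a δ H) := by
    constructor
    · intro z hz
      exact (hGd z (Ro_sub_Rc a δ H hz)).differentiableWithinAt
    · intro z hz
      exact (hGd z (closure_Ro a δ H hz)).continuousAt.continuousWithinAt
  have hGfr : ∀ z ∈ frontier (Ro a δ H), ‖G z‖ ≤ M := by
    intro z hz
    obtain ⟨h1, h2⟩ := frontier_Ro hz
    rw [hGn]
    rcases h2 with h2 | h2
    · have h3 := hside z h2 h1.2
      have h4 : Real.exp (-(B' * (Φ z).re)) ≤ 1 := by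
        rw [Real.exp_le_one_iff, neg_nonpos]
        exact mul_nonneg hB'0 (hΦpos z h1)
      calc _ ≤ M * 1 := mul_le_mul h3 h4 (Real.exp_pos _).le (by linarith)
        _ = M := mul_one M
    · have h3 := hend z h1.1 h2
      have h4 : B ≤ B' * (Φ z).re := by
        rw [hΦre, hB']
        have e : Real.cosh (κ * z.im) = Real.cosh (κ * H) := by
          rw [← Real.cosh_abs, abs_mul, abs_of_pos hκ0, h2]
        rw [e]
        have h5 := hcosge z h1
        have h6 := hc0 (κ * H)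
        calc B = 2 * B * (1 / 2) := by ring
          _ ≤ 2 * B * Real.cos (κ * (z.re - a)) := mul_le_mul_of_nonneg_left h5 (by positivity)
          _ = _ := by field_simp
      calc _ ≤ Real.exp B * Real.exp (-(B' * (Φ z).re)) :=
            mul_le_mul_of_nonneg_right h3 (Real.exp_pos _).le
        _ = Real.exp (B - B' * (Φ z).re) := by rw [← Real.exp_add]; congr 1
        _ ≤ Real.exp 0 := Real.exp_le_exp.2 (by linarith)
        _ = 1 := Real.exp_zero
        _ ≤ M := hM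
  have hmax := Complex.norm_le_of_forall_mem_frontier_norm_le (Ro_bounded a δ H) hGcl hGfr
    (Rc_sub_closure hδ hH hz)
  rw [hGn] at hmax
  have h7 : ‖g z‖ ≤ M * Real.exp (B' * (Φ z).re) := by
    have h8 : ‖g z‖ = ‖g z‖ * Real.exp (-(B' * (Φ z).re)) * Real.exp (B' * (Φ z).re) := by
      rw [mul_assoc, ← Real.exp_add]
      simp
    rw [h8]
    exact mul_le_mul_of_nonneg_right hmax (Real.exp_pos _).le
  refine h7.trans (mul_le_mul_of_nonneg_left (Real.exp_le_exp.2 ?_) (by linarith))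
  -- the size of the barrier
  rw [hΦre, hB']
  have h9 : Real.cos (κ * (z.re - a)) ≤ 1 := Real.cos_le_one _
  have h10 : Real.cosh (κ * z.im) ≤ Real.exp (κ * |z.im|) := by
    rw [← Real.cosh_abs, abs_mul, abs_of_pos hκ0, Real.cosh_eq]
    have : Real.exp (-(κ * |z.im|)) ≤ Real.exp (κ * |z.im|) :=
      Real.exp_le_exp.2 (by nlinarith [abs_nonneg z.im])
    linarith
  have h11 : Real.exp (κ * H) / 2 ≤ Real.cosh (κ * H) := by
    rw [Real.cosh_eq]
    have := Real.exp_pos (-(κ * H))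
    linarith
  have h12 : Real.cos (κ * (z.re - a)) * Real.cosh (κ * z.im) ≤ Real.exp (κ * |z.im|) := by
    have h13 := hcosge z hz
    calc _ ≤ 1 * Real.cosh (κ * z.im) := mul_le_mul_of_nonneg_right h9 (hc0 _).le
      _ ≤ _ := by rw [one_mul]; exact h10
  calc 2 * B / Real.cosh (κ * H) * (Real.cos (κ * (z.re - a)) * Real.cosh (κ * z.im))
      ≤ 2 * B / Real.cosh (κ * H) * Real.exp (κ * |z.im|) :=
        mul_le_mul_of_nonneg_left h12 hB'0
    _ ≤ 2 * B / (Real.exp (κ * H) / 2) * Real.exp (κ * |z.im|) := by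
        refine mul_le_mul_of_nonneg_right ?_ (Real.exp_pos _).le
        exact div_le_div_of_nonneg_left (by positivity) (by positivity) h11
    _ = 4 * B * Real.exp (-(κ * (H - |z.im|))) := by
        have e : -(κ * (H - |z.im|)) = κ * |z.im| - κ * H := by ring
        rw [e, Real.exp_sub]
        field_simp
        ring

/-- the form with heights in units of `log N`: if `exp B` with `B = C * N ^ q` on the short sides,
`H = c₁ log N`, and `q ≤ π (c₁ - c) / (3 δ)`, then the bound is `M * exp (4 C)` for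
`|Im z| ≤ c log N`. -/
theorem thin_log {g : ℂ → ℂ} {a δ c c₁ M C q : ℝ} {N : ℕ} (hN : 2 ≤ N) (hδ : 0 < δ) (hc : 0 ≤ c)
    (hc₁ : c < c₁) (hM : 1 ≤ M) (hC : 0 ≤ C) (hq : q ≤ Real.pi * (c₁ - c) / (3 * δ))
    (hg : ∀ z ∈ Rc a δ (c₁ * Real.log N), DifferentiableAt ℂ g z)
    (hside : ∀ z : ℂ, |z.re - a| = δ → |z.im| ≤ c₁ * Real.log N → ‖g z‖ ≤ M)
    (hend : ∀ z : ℂ, |z.re - a| ≤ δ → |z.im| = c₁ * Real.log N →
      ‖g z‖ ≤ Real.exp (C * (N : ℝ) ^ q)) {z : ℂ}
    (h1 : |z.re - a| ≤ δ) (h2 : |z.im| ≤ c * Real.log N) :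
    ‖g z‖ ≤ M * Real.exp (4 * C) := by
  have hN0 : (0 : ℝ) < N := by
    have : (2 : ℝ) ≤ N := by exact_mod_cast hN
    linarith
  have hN1 : (1 : ℝ) < N := by
    have : (2 : ℝ) ≤ N := by exact_mod_cast hN
    linarith
  have hL : 0 < Real.log N := Real.log_pos hN1
  have hz : z ∈ Rc a δ (c₁ * Real.log N) :=
    ⟨h1, h2.trans (mul_le_mul_of_nonneg_right hc₁.le hL.le)⟩
  have h3 := thin hδ (mul_pos (lt_of_le_of_lt hc hc₁) hL) hM
    (mul_nonneg hC (Real.rpow_nonneg hN0.le q)) hg hside hend hz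
  refine h3.trans (mul_le_mul_of_nonneg_left (Real.exp_le_exp.2 ?_) (by linarith))
  have h4 : Real.exp (-(Real.pi / (3 * δ) * (c₁ * Real.log N - |z.im|))) ≤ (N : ℝ) ^ (-q) := by
    rw [Real.rpow_def_of_pos hN0, Real.exp_le_exp]
    have h5 : (c₁ - c) * Real.log N ≤ c₁ * Real.log N - |z.im| := by linarith
    have h6 : 0 < Real.pi / (3 * δ) := div_pos Real.pi_pos (by positivity)
    have h7 := mul_le_mul_of_nonneg_left h5 h6.le
    have h8 : q * Real.log N ≤ Real.pi * (c₁ - c) / (3 * δ) * Real.log N :=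
      mul_le_mul_of_nonneg_right hq hL.le
    have h9 : Real.pi * (c₁ - c) / (3 * δ) * Real.log N =
        Real.pi / (3 * δ) * ((c₁ - c) * Real.log N) := by ring
    linarith
  have h10 : 0 < (N : ℝ) ^ q := Real.rpow_pos_of_pos hN0 q
  calc 4 * (C * (N : ℝ) ^ q) * Real.exp (-(Real.pi / (3 * δ) * (c₁ * Real.log N - |z.im|)))
      ≤ 4 * (C * (N : ℝ) ^ q) * (N : ℝ) ^ (-q) :=
        mul_le_mul_of_nonneg_left h4 (by positivity)
    _ = 4 * C := by
        rw [Real.rpow_neg hN0.le]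
        field_simp

end ISR
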