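import Pool.Agent.ISR.Thin

/-!
# ISO by rows: the maximum principle in a strip, sharp rate

As `ISR.thin`, with any rate `κ < π / (2 δ)`: `g` holomorphic in the rectangle `|Re z - a| ≤ δ`,
`|Im z| ≤ H`, bounded by `M ≥ 1` on the long sides and by `exp B` on the short sides.  Then
`‖g z‖ ≤ M * exp (2 B / cos (κ δ) * exp (- κ (H - |Im z|)))`.
-/

set_option autoImplicit false

open Complex Set Metric Filter Topology

noncomputable section

namespace ISR

/-- **the maximum principle in a strip**, every rate `κ < π / (2 δ)` -/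
theorem thinK {g : ℂ → ℂ} {a δ H M B κ : ℝ} (hδ : 0 < δ) (hH : 0 < H) (hM : 1 ≤ M) (hB : 0 ≤ B)
    (hκ : 0 < κ) (hκδ : κ * δ < Real.pi / 2)
    (hg : ∀ z ∈ Rc a δ H, DifferentiableAt ℂ g z)
    (hside : ∀ z : ℂ, |z.re - a| = δ → |z.im| ≤ H → ‖g z‖ ≤ M)
    (hend : ∀ z : ℂ, |z.re - a| ≤ δ → |z.im| = H → ‖g z‖ ≤ Real.exp B) {z : ℂ}
    (hz : z ∈ Rc a δ H) :
    ‖g z‖ ≤ M * Real.exp (2 * B / Real.cos (κ * δ) * Real.exp (-(κ * (H - |z.im|)))) := by
  have hpi := Real.pi_pos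
  have hc1 : 0 < Real.cos (κ * δ) :=
    Real.cos_pos_of_mem_Ioo ⟨by nlinarith [mul_pos hκ hδ], hκδ⟩
  set c0 : ℝ := Real.cos (κ * δ) with hc0e
  set B' : ℝ := B / (c0 * Real.cosh (κ * H)) with hB'
  have hc0 : ∀ x : ℝ, 0 < Real.cosh x := Real.cosh_pos
  have hB'0 : 0 ≤ B' := by rw [hB']; exact div_nonneg hB (mul_pos hc1 (hc0 _)).le
  -- the barrier
  let Φ : ℂ → ℂ := fun z => Complex.cos ((κ : ℂ) * (z - a))
  have hΦre : ∀ z : ℂ, (Φ z).re = Real.cos (κ * (z.re - a)) * Real.cosh (κ * z.im) := by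
    intro z
    have e : (κ : ℂ) * (z - a) = ((κ * (z.re - a) : ℝ) : ℂ) + ((κ * z.im : ℝ) : ℂ) * I := by
      apply Complex.ext
      · simp
      · simp
    show (Complex.cos ((κ : ℂ) * (z - a))).re = _
    rw [e, cos_re]
  have hcosge : ∀ z ∈ Rc a δ H, c0 ≤ Real.cos (κ * (z.re - a)) := by
    intro z hz
    rw [← Real.cos_abs, hc0e]
    refine Real.cos_le_cos_of_nonneg_of_le_pi (abs_nonneg _) (by linarith) ?_
    rw [abs_mul, abs_of_pos hκ]
    exact mul_le_mul_of_nonneg_left hz.1 hκ.le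
  have hΦpos : ∀ z ∈ Rc a δ H, 0 ≤ (Φ z).re := by
    intro z hz
    rw [hΦre]
    exact mul_nonneg (by linarith [hcosge z hz]) (hc0 _).le
  let G : ℂ → ℂ := fun z => g z * Complex.exp (-(B' : ℂ) * Φ z)
  have hGn : ∀ z : ℂ, ‖G z‖ = ‖g z‖ * Real.exp (-(B' * (Φ z).re)) := by
    intro z
    show ‖g z * Complex.exp (-(B' : ℂ) * Φ z)‖ = _
    rw [norm_mul, Complex.norm_exp]
    congr 2
    simp
  have hGd : ∀ z ∈ Rc a δ H, DifferentiableAt ℂ G z := by
    intro z hz
    refine (hg z hz).mul ?_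
    have : DifferentiableAt ℂ Φ z := by
      show DifferentiableAt ℂ (fun z : ℂ => Complex.cos ((κ : ℂ) * (z - a))) z
      fun_prop
    exact ((differentiableAt_const _).mul this).cexp
  have hGcl : DiffContOnCl ℂ G (Ro a δ H) := by
    constructor
    · intro z hz
      exact (hGd z (Ro_sub_Rc a δ H hz)).differentiableWithinAt
    · intro z hz
      exact (hGd z (closure_Ro a δ H hz)).continuousAt.continuousWithinAt
  have hGfr : ∀ z ∈ frontier (Ro a δ H), ‖G z‖ ≤ M := by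
    intro z hz
    obtain ⟨h1, h2⟩ := frontier_Ro hz
    rw [hGn]
    rcases h2 with h2 | h2
    · have h3 := hside z h2 h1.2
      have h4 : Real.exp (-(B' * (Φ z).re)) ≤ 1 := by
        rw [Real.exp_le_one_iff, neg_nonpos]
        exact mul_nonneg hB'0 (hΦpos z h1)
      calc _ ≤ M * 1 := mul_le_mul h3 h4 (Real.exp_pos _).le (by linarith)
        _ = M := mul_one M
    · have h3 := hend z h1.1 h2
      have h4 : B ≤ B' * (Φ z).re := by
        rw [hΦre, hB']
        have e : Real.cosh (κ * z.im) = Real.cosh (κ * H) := by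
          rw [← Real.cosh_abs, abs_mul, abs_of_pos hκ, h2]
        rw [e]
        have h5 := hcosge z h1
        have h6 := hc0 (κ * H)
        calc B = B / (c0 * Real.cosh (κ * H)) * (c0 * Real.cosh (κ * H)) := by
              field_simp
          _ ≤ _ := by
              refine mul_le_mul_of_nonneg_left ?_ (div_nonneg hB (mul_pos hc1 h6).le)
              exact mul_le_mul_of_nonneg_right h5 h6.le
      calc _ ≤ Real.exp B * Real.exp (-(B' * (Φ z).re)) :=
            mul_le_mul_of_nonneg_right h3 (Real.exp_pos _).le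
        _ = Real.exp (B - B' * (Φ z).re) := by rw [← Real.exp_add]; congr 1
        _ ≤ Real.exp 0 := Real.exp_le_exp.2 (by linarith)
        _ = 1 := Real.exp_zero
        _ ≤ M := hM
  have hmax := Complex.norm_le_of_forall_mem_frontier_norm_le (Ro_bounded a δ H) hGcl hGfr
    (Rc_sub_closure hδ hH hz)
  rw [hGn] at hmax
  have h7 : ‖g z‖ ≤ M * Real.exp (B' * (Φ z).re) := by
    have h8 : ‖g z‖ = ‖g z‖ * Real.exp (-(B' * (Φ z).re)) * Real.exp (B' * (Φ z).re) := by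
      rw [mul_assoc, ← Real.exp_add]
      simp
    rw [h8]
    exact mul_le_mul_of_nonneg_right hmax (Real.exp_pos _).le
  refine h7.trans (mul_le_mul_of_nonneg_left (Real.exp_le_exp.2 ?_) (by linarith))
  -- the size of the barrier
  rw [hΦre, hB']
  have h9 : Real.cos (κ * (z.re - a)) ≤ 1 := Real.cos_le_one _
  have h10 : Real.cosh (κ * z.im) ≤ Real.exp (κ * |z.im|) := by
    rw [← Real.cosh_abs, abs_mul, abs_of_pos hκ, Real.cosh_eq]
    have : Real.exp (-(κ * |z.im|)) ≤ Real.exp (κ * |z.im|) :=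
      Real.exp_le_exp.2 (by nlinarith [abs_nonneg z.im])
    linarith
  have h11 : Real.exp (κ * H) / 2 ≤ Real.cosh (κ * H) := by
    rw [Real.cosh_eq]
    have := Real.exp_pos (-(κ * H))
    linarith
  have h12 : Real.cos (κ * (z.re - a)) * Real.cosh (κ * z.im) ≤ Real.exp (κ * |z.im|) := by
    calc _ ≤ 1 * Real.cosh (κ * z.im) := mul_le_mul_of_nonneg_right h9 (hc0 _).le
      _ ≤ _ := by rw [one_mul]; exact h10
  calc B / (c0 * Real.cosh (κ * H)) * (Real.cos (κ * (z.re - a)) * Real.cosh (κ * z.im))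
      ≤ B / (c0 * Real.cosh (κ * H)) * Real.exp (κ * |z.im|) :=
        mul_le_mul_of_nonneg_left h12 hB'0
    _ ≤ B / (c0 * (Real.exp (κ * H) / 2)) * Real.exp (κ * |z.im|) := by
        refine mul_le_mul_of_nonneg_right ?_ (Real.exp_pos _).le
        refine div_le_div_of_nonneg_left hB (by positivity) ?_
        exact mul_le_mul_of_nonneg_left h11 hc1.le
    _ = 2 * B / c0 * Real.exp (-(κ * (H - |z.im|))) := by
        have e : -(κ * (H - |z.im|)) = κ * |z.im| - κ * H := by ring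
        rw [e, Real.exp_sub]
        field_simp

/-- heights in units of `log N`: `exp (C N^q)` on the short sides, `H = c₁ log N`,
`q ≤ κ (c₁ - c)`: the bound is `M * exp (2 C / cos (κ δ))` for `|Im z| ≤ c log N`. -/
theorem thinK_log {g : ℂ → ℂ} {a δ c c₁ M C q κ : ℝ} {N : ℕ} (hN : 2 ≤ N) (hδ : 0 < δ)
    (hc : 0 ≤ c) (hc₁ : c < c₁) (hM : 1 ≤ M) (hC : 0 ≤ C) (hκ : 0 < κ)
    (hκδ : κ * δ < Real.pi / 2) (hq : q ≤ κ * (c₁ - c))
    (hg : ∀ z ∈ Rc a δ (c₁ * Real.log N), DifferentiableAt ℂ g z)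
    (hside : ∀ z : ℂ, |z.re - a| = δ → |z.im| ≤ c₁ * Real.log N → ‖g z‖ ≤ M)
    (hend : ∀ z : ℂ, |z.re - a| ≤ δ → |z.im| = c₁ * Real.log N →
      ‖g z‖ ≤ Real.exp (C * (N : ℝ) ^ q)) {z : ℂ}
    (h1 : |z.re - a| ≤ δ) (h2 : |z.im| ≤ c * Real.log N) :
    ‖g z‖ ≤ M * Real.exp (2 * C / Real.cos (κ * δ)) := by
  have hc1 : 0 < Real.cos (κ * δ) :=
    Real.cos_pos_of_mem_Ioo ⟨by nlinarith [mul_pos hκ hδ, Real.pi_pos], hκδ⟩
  have hN0 : (0 : ℝ) < N := by
    have : (2 : ℝ) ≤ N := by exact_mod_cast hN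
    linarith
  have hN1 : (1 : ℝ) < N := by
    have : (2 : ℝ) ≤ N := by exact_mod_cast hN
    linarith
  have hL : 0 < Real.log N := Real.log_pos hN1
  have hz : z ∈ Rc a δ (c₁ * Real.log N) :=
    ⟨h1, h2.trans (mul_le_mul_of_nonneg_right hc₁.le hL.le)⟩
  have h3 := thinK hδ (mul_pos (lt_of_le_of_lt hc hc₁) hL) hM
    (mul_nonneg hC (Real.rpow_nonneg hN0.le q)) hκ hκδ hg hside hend hz
  refine h3.trans (mul_le_mul_of_nonneg_left (Real.exp_le_exp.2 ?_) (by linarith))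
  have h4 : Real.exp (-(κ * (c₁ * Real.log N - |z.im|))) ≤ (N : ℝ) ^ (-q) := by
    rw [Real.rpow_def_of_pos hN0, Real.exp_le_exp]
    have h5 : (c₁ - c) * Real.log N ≤ c₁ * Real.log N - |z.im| := by linarith
    have h7 := mul_le_mul_of_nonneg_left h5 hκ.le
    have h8 : q * Real.log N ≤ κ * (c₁ - c) * Real.log N :=
      mul_le_mul_of_nonneg_right hq hL.le
    have h9 : κ * (c₁ - c) * Real.log N = κ * ((c₁ - c) * Real.log N) := by ring
    linarith
  have h10 : 0 < (N : ℝ) ^ q := Real.rpow_pos_of_pos hN0 q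
  calc 2 * (C * (N : ℝ) ^ q) / Real.cos (κ * δ) *
        Real.exp (-(κ * (c₁ * Real.log N - |z.im|)))
      ≤ 2 * (C * (N : ℝ) ^ q) / Real.cos (κ * δ) * (N : ℝ) ^ (-q) :=
        mul_le_mul_of_nonneg_left h4 (by positivity)
    _ = 2 * C / Real.cos (κ * δ) := by
        rw [Real.rpow_neg hN0.le]
        field_simp

end ISR
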