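import Mathlib

/-!
# Trigonometric polynomials: growth from a horizontal segment (Bernstein, Walsh)

* `TP D F`: `F` is a trigonometric polynomial of degree `≤ D`; closure under products, sums, sines;
* **`TP.bw`**: if `‖F‖ ≤ M` on the segment `|Re x - t0| ≤ s / 2`, `Im x = y`, `0 < s ≤ π`, then
  `‖F x‖ ≤ M * (2 π e / s) ^ (2 D)` for all `x` at the same height.
-/

set_option autoImplicit false

open Complex Finset Polynomial

noncomputable section

namespace ISR

/-- trigonometric polynomial of degree at most `D` -/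
def TP (D : ℕ) (F : ℂ → ℂ) : Prop :=
  ∃ p : Polynomial ℂ, p.natDegree ≤ 2 * D ∧ ∀ x, F x = cexp (-(D * (I * x))) * p.eval (cexp (I * x))

namespace TP

variable {D D' : ℕ} {F G : ℂ → ℂ}

theorem const (c : ℂ) : TP 0 fun _ => c := ⟨C c, by simp, fun x => by simp⟩

theorem succ (h : TP D F) : TP (D + 1) F := by
  obtain ⟨p, hp, e⟩ := h
  refine ⟨X * p, (natDegree_mul_le).trans ?_, fun x => ?_⟩
  · have := natDegree_X_le (R := ℂ)
    omega
  · have h1 : cexp (-(((D + 1 : ℕ) : ℂ) * (I * x))) * cexp (I * x) = cexp (-(D * (I * x))) := by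
      rw [← Complex.exp_add]
      congr 1
      push_cast
      ring
    rw [e x, eval_mul, eval_X, ← h1]
    ring

theorem mono (h : TP D F) (hD : D ≤ D') : TP D' F := by
  induction D', hD using Nat.le_induction with
  | base => exact h
  | succ n _ ih => exact ih.succ

theorem mul (h : TP D F) (h' : TP D' G) : TP (D + D') fun x => F x * G x := by
  obtain ⟨p, hp, e⟩ := h
  obtain ⟨q, hq, e'⟩ := h'
  refine ⟨p * q, (natDegree_mul_le).trans (by omega), fun x => ?_⟩
  have h1 : cexp (-(((D + D' : ℕ) : ℂ) * (I * x))) = cexp (-(D * (I * x))) * cexp (-(D' * (I * x))) := by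
    rw [← Complex.exp_add]
    congr 1
    push_cast
    ring
  show F x * G x = _
  rw [e x, e' x, eval_mul, h1]
  ring

theorem add (h : TP D F) (h' : TP D G) : TP D fun x => F x + G x := by
  obtain ⟨p, hp, e⟩ := h
  obtain ⟨q, hq, e'⟩ := h'
  refine ⟨p + q, (natDegree_add_le _ _).trans (max_le hp hq), fun x => ?_⟩
  show F x + G x = _
  rw [e x, e' x, eval_add]
  ring

theorem cmul (c : ℂ) (h : TP D F) : TP D fun x => c * F x := by
  simpa using (const c).mul h

theorem neg (h : TP D F) : TP D fun x => -F x := by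
  simpa using h.cmul (-1)

theorem sub (h : TP D F) (h' : TP D G) : TP D fun x => F x - G x := by
  simpa [sub_eq_add_neg] using h.add h'.neg

theorem zero : TP D fun _ => 0 := (const 0).mono (Nat.zero_le _)

theorem one : TP D fun _ => 1 := (const 1).mono (Nat.zero_le _)

theorem congr (h : TP D F) (e : ∀ x, G x = F x) : TP D G := by
  obtain ⟨p, hp, e'⟩ := h
  exact ⟨p, hp, fun x => (e x).trans (e' x)⟩

theorem sum {ι : Type*} (s : Finset ι) {F : ι → ℂ → ℂ} (h : ∀ i ∈ s, TP D (F i)) :
    TP D fun x => ∑ i ∈ s, F i x := by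
  classical
  induction s using Finset.induction_on with
  | empty => simpa using (zero (D := D))
  | insert a s ha ih =>
    refine ((h a (mem_insert_self _ _)).add (ih fun i hi => h i (mem_insert_of_mem hi))).congr
      fun x => ?_
    rw [sum_insert ha]

theorem prod {ι : Type*} (s : Finset ι) {d : ι → ℕ} {F : ι → ℂ → ℂ} (h : ∀ i ∈ s, TP (d i) (F i)) :
    TP (∑ i ∈ s, d i) fun x => ∏ i ∈ s, F i x := by
  classical
  induction s using Finset.induction_on with
  | empty => simpa using const 1
  | insert a s ha ih =>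
    rw [sum_insert ha]
    refine ((h a (mem_insert_self _ _)).mul (ih fun i hi => h i (mem_insert_of_mem hi))).congr
      fun x => ?_
    rw [prod_insert ha]

/-- `sin (a + x)` -/
theorem sin_add (a : ℂ) : TP 1 fun x => Complex.sin (a + x) := by
  refine ⟨C (-(I / 2) * cexp (I * a)) * X ^ 2 + C (I / 2 * cexp (-(I * a))), ?_, fun x => ?_⟩
  · refine (natDegree_add_le _ _).trans (max_le ?_ ?_)
    · exact (natDegree_C_mul_X_pow_le _ _).trans (by norm_num)
    · rw [natDegree_C]
      norm_num
  · simp only [eval_add, eval_mul, eval_C, eval_pow, eval_X]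
    have h1 : cexp (-(((1 : ℕ) : ℂ) * (I * x))) * (-(I / 2) * cexp (I * a) * cexp (I * x) ^ 2 +
        I / 2 * cexp (-(I * a))) =
        I / 2 * (cexp (-(I * x)) * cexp (-(I * a))) -
          I / 2 * (cexp (I * a) * (cexp (-(I * x)) * cexp (I * x) * cexp (I * x))) := by
      push_cast
      ring_nf
    rw [h1, ← Complex.exp_add, ← Complex.exp_add (-(I * x)) (I * x), neg_add_cancel, Complex.exp_zero,
      one_mul, ← Complex.exp_add, Complex.sin]
    have e1 : -(I * x) + -(I * a) = -(a + x) * I := by ring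
    have e2 : I * a + I * x = (a + x) * I := by ring
    rw [e1, e2]
    ring

/-- `sin (a - x)` -/
theorem sin_sub (a : ℂ) : TP 1 fun x => Complex.sin (a - x) := by
  refine (sin_add (-a)).neg.congr fun x => ?_
  rw [show a - x = -(-a + x) by ring, Complex.sin_neg]

/-- the differences of the nodes -/
theorem prod_abs (n j : ℕ) (hj : j ≤ n) :
    ∏ i ∈ (range (n + 1)).erase j, |((j : ℝ) - i)| = j.factorial * (n - j).factorial := by
  induction n, hj using Nat.le_induction with
  | base =>
    have h1 : (range (j + 1)).erase j = range j := by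
      ext i
      simp only [mem_erase, mem_range]
      omega
    rw [h1, Nat.sub_self, Nat.factorial_zero, Nat.cast_one, mul_one]
    have h2 : ∀ k : ℕ, ∀ m : ℕ, ∏ i ∈ range k, |((m + k : ℕ) : ℝ) - i| =
        ((m + k).factorial : ℝ) / (m.factorial : ℝ) := by
      intro k
      induction k with
      | zero =>
        intro m
        have : (m.factorial : ℝ) ≠ 0 := by positivity
        simp [this]
      | succ k ih =>
        intro m
        rw [prod_range_succ]
        have h3 := ih (m + 1)
        have e : (m + 1 + k : ℕ) = m + (k + 1) := by ring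
        rw [e] at h3
        rw [h3]
        have e2 : |((m + (k + 1) : ℕ) : ℝ) - k| = m + 1 := by
          push_cast
          rw [show (m : ℝ) + (k + 1) - k = m + 1 by ring, abs_of_nonneg (by positivity)]
        rw [e2, Nat.factorial_succ m]
        push_cast
        have : (m.factorial : ℝ) ≠ 0 := by positivity
        field_simp
    have h4 := h2 j 0
    simpa using h4
  | succ n hn ih =>
    have h1 : (range (n + 1 + 1)).erase j = insert (n + 1) ((range (n + 1)).erase j) := by
      ext i
      simp only [mem_erase, mem_range, mem_insert]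
      omega
    rw [h1, prod_insert (by simp), ih]
    have h2 : n + 1 - j = (n - j) + 1 := by omega
    rw [h2, Nat.factorial_succ]
    have h3 : |(j : ℝ) - (n + 1 : ℕ)| = ((n - j : ℕ) : ℝ) + 1 := by
      rw [abs_sub_comm, Nat.cast_sub hn]
      push_cast
      rw [abs_of_nonneg]
      · ring
      · have : (j : ℝ) ≤ n := by exact_mod_cast hn
        linarith
    rw [h3]
    push_cast
    ring

/-- distance on a circle -/
theorem arc {a b y : ℝ} (h : |a - b| ≤ Real.pi) :
    Real.exp (-y) * (2 / Real.pi * |a - b|) ≤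
      ‖cexp (I * ((a : ℂ) + y * I)) - cexp (I * ((b : ℂ) + y * I))‖ := by
  have e1 : ∀ a : ℝ, cexp (I * ((a : ℂ) + y * I)) = ((Real.exp (-y) : ℝ) : ℂ) * cexp (a * I) := by
    intro a
    rw [Complex.ofReal_exp, ← Complex.exp_add]
    congr 1
    push_cast
    linear_combination (y : ℂ) * I_mul_I
  rw [e1, e1, ← mul_sub, norm_mul, Complex.norm_real, Real.norm_eq_abs, abs_of_pos (Real.exp_pos _)]
  refine mul_le_mul_of_nonneg_left ?_ (Real.exp_pos _).le
  have e2 : cexp (a * I) - cexp (b * I) =
      cexp (((a + b) / 2 : ℝ) * I) * (2 * I * ((Real.sin ((a - b) / 2) : ℝ) : ℂ)) := by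
    have h1 : cexp (a * I) = cexp (((a + b) / 2 : ℝ) * I) * cexp (((a - b) / 2 : ℝ) * I) := by
      rw [← Complex.exp_add]
      congr 1
      push_cast
      ring
    have h2 : cexp (b * I) = cexp (((a + b) / 2 : ℝ) * I) * cexp (-(((a - b) / 2 : ℝ) : ℂ) * I) := by
      rw [← Complex.exp_add]
      congr 1
      push_cast
      ring
    rw [h1, h2, ← mul_sub, Complex.ofReal_sin, Complex.sin]
    congr 1
    linear_combination (cexp ((((a - b) / 2 : ℝ) : ℂ) * I) - cexp (-(((a - b) / 2 : ℝ) : ℂ) * I)) * I_mul_I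
  rw [e2, norm_mul, Complex.norm_exp_ofReal_mul_I, one_mul, norm_mul, norm_mul, Complex.norm_I,
    Complex.norm_real, Real.norm_eq_abs]
  simp only [Complex.norm_ofNat, mul_one]
  have h3 : Real.sin |(a - b) / 2| ≤ |Real.sin ((a - b) / 2)| := by
    rcases le_total 0 ((a - b) / 2) with h0 | h0
    · rw [abs_of_nonneg h0]
      exact le_abs_self _
    · rw [abs_of_nonpos h0, Real.sin_neg]
      exact neg_le_abs _
  have h4 : 2 / Real.pi * |(a - b) / 2| ≤ Real.sin |(a - b) / 2| := by
    refine Real.mul_le_sin (abs_nonneg _) ?_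
    rw [abs_div, abs_two]
    linarith [h]
  have h5 : |(a - b) / 2| = |a - b| / 2 := by rw [abs_div, abs_two]
  rw [h5] at h4
  have hpi := Real.pi_pos
  calc 2 / Real.pi * |a - b| = 2 * (2 / Real.pi * (|a - b| / 2)) := by ring
    _ ≤ 2 * |Real.sin ((a - b) / 2)| := by
      rw [h5] at h3
      have := h4.trans h3
      linarith

/-- **Bernstein, Walsh** at a fixed height -/
theorem bw (h : TP D F) {t0 y s M : ℝ} (hs : 0 < s) (hs1 : s ≤ Real.pi)
    (hM : ∀ t : ℝ, |t - t0| ≤ s / 2 → ‖F (t + y * I)‖ ≤ M) (t : ℝ) :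
    ‖F (t + y * I)‖ ≤ M * (2 * Real.pi * Real.exp 1 / s) ^ (2 * D) := by
  have hpi := Real.pi_pos
  obtain ⟨p, hp, e⟩ := h
  have hM0 : 0 ≤ M := (norm_nonneg _).trans (hM t0 (by rw [sub_self, abs_zero]; linarith))
  rcases Nat.eq_zero_or_pos D with hD | hD
  · subst hD
    have h1 : p = C (p.coeff 0) := eq_C_of_natDegree_le_zero (by simpa using hp)
    have h2 : ∀ x, F x = p.coeff 0 := by
      intro x
      rw [e x, h1]
      simp
    have h3 := hM t0 (by rw [sub_self, abs_zero]; linarith)
    rw [h2] at h3 ⊢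
    simpa using h3
  have hDr : (0 : ℝ) < D := by exact_mod_cast hD
  set R : ℝ := Real.exp (-y) with hR
  have hR0 : 0 < R := Real.exp_pos _
  -- the nodes
  let τ : ℕ → ℝ := fun j => t0 - s / 2 + j * (s / (2 * D))
  have hτd : ∀ i j : ℕ, |τ i - τ j| = |((i : ℝ) - j)| * (s / (2 * D)) := by
    intro i j
    have e3 : τ i - τ j = ((i : ℝ) - j) * (s / (2 * D)) := by
      show t0 - s / 2 + i * (s / (2 * D)) - (t0 - s / 2 + j * (s / (2 * D))) = _
      ring
    rw [e3, abs_mul, abs_of_pos (a := s / (2 * D)) (by positivity)]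
  have hτ0 : ∀ j ∈ range (2 * D + 1), |τ j - t0| ≤ s / 2 := by
    intro j hj
    have h1 : (j : ℝ) ≤ 2 * D := by
      have := mem_range.1 hj
      exact_mod_cast (by omega : j ≤ 2 * D)
    have h2 : (j : ℝ) * (s / (2 * D)) ≤ s := by
      calc (j : ℝ) * (s / (2 * D)) ≤ 2 * D * (s / (2 * D)) :=
            mul_le_mul_of_nonneg_right h1 (by positivity)
        _ = s := by field_simp
    have h3 : 0 ≤ (j : ℝ) * (s / (2 * D)) := by positivity
    rw [abs_le]
    constructor
    · show -(s / 2) ≤ t0 - s / 2 + j * (s / (2 * D)) - t0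
      linarith
    · show t0 - s / 2 + j * (s / (2 * D)) - t0 ≤ s / 2
      linarith
  have hτpi : ∀ i ∈ range (2 * D + 1), ∀ j ∈ range (2 * D + 1), |τ i - τ j| ≤ Real.pi := by
    intro i hi j hj
    have h1 := hτ0 i hi
    have h2 := hτ0 j hj
    have h3 : |τ i - τ j| ≤ |τ i - t0| + |τ j - t0| := by
      have := abs_sub_le (τ i) t0 (τ j)
      rwa [abs_sub_comm t0 (τ j)] at this
    linarith
  let u : ℕ → ℂ := fun j => cexp (I * ((τ j : ℂ) + y * I))
  have hu : ∀ i ∈ range (2 * D + 1), ∀ j ∈ range (2 * D + 1),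
      R * (2 / Real.pi * (|((i : ℝ) - j)| * (s / (2 * D)))) ≤ ‖u i - u j‖ := by
    intro i hi j hj
    rw [← hτd]
    exact arc (hτpi i hi j hj)
  have hinj : Set.InjOn u (range (2 * D + 1)) := by
    intro i hi j hj hij
    by_contra hne
    have h1 := hu i hi j hj
    have h2 : 0 < |((i : ℝ) - j)| := by
      rw [abs_pos, sub_ne_zero]
      exact_mod_cast hne
    have h3 : 0 < R * (2 / Real.pi * (|((i : ℝ) - j)| * (s / (2 * D)))) := by positivity
    rw [hij, sub_self, norm_zero] at h1
    linarith
  -- Lagrange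
  have hdeg : p.degree < (range (2 * D + 1)).card := by
    rw [card_range]
    refine lt_of_le_of_lt degree_le_natDegree ?_
    exact_mod_cast (by omega : p.natDegree < 2 * D + 1)
  have hL := Lagrange.eq_interpolate (v := u) hinj hdeg
  have hnorm : ∀ x : ℝ, ‖cexp (I * ((x : ℂ) + y * I))‖ = R := by
    intro x
    rw [Complex.norm_exp]
    congr 1
    simp
  have hnorm' : ∀ x : ℝ, ‖cexp (-(D * (I * ((x : ℂ) + y * I))))‖ = (R ^ D)⁻¹ := by
    intro x
    rw [Complex.exp_neg, norm_inv, Complex.exp_nat_mul, norm_pow, hnorm]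
  have hpu : ∀ j ∈ range (2 * D + 1), ‖p.eval (u j)‖ ≤ M * R ^ D := by
    intro j hj
    have h1 := hM (τ j) (hτ0 j hj)
    rw [e, norm_mul, hnorm', inv_mul_le_iff₀ (by positivity)] at h1
    linarith
  have hev : p.eval (cexp (I * ((t : ℂ) + y * I))) = ∑ j ∈ range (2 * D + 1), p.eval (u j) *
      ∏ i ∈ (range (2 * D + 1)).erase j, (cexp (I * ((t : ℂ) + y * I)) - u i) / (u j - u i) := by
    conv_lhs => rw [hL]
    rw [Lagrange.interpolate_apply, eval_finsetSum]
    refine sum_congr rfl fun j _ => ?_
    rw [eval_mul, eval_C]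
    congr 1
    rw [Lagrange.basis, eval_prod]
    refine prod_congr rfl fun i _ => ?_
    rw [Lagrange.basisDivisor, eval_mul, eval_C, eval_sub, eval_X, eval_C]
    rw [div_eq_inv_mul]
  rw [e, norm_mul, hnorm', inv_mul_le_iff₀ (by positivity), hev]
  -- the products
  have hQ : ∀ j ∈ range (2 * D + 1),
      ‖∏ i ∈ (range (2 * D + 1)).erase j, (cexp (I * ((t : ℂ) + y * I)) - u i) / (u j - u i)‖ ≤
      (2 * Real.pi * D / s) ^ (2 * D) / (j.factorial * (2 * D - j).factorial) := by
    intro j hj
    have hj' : j ≤ 2 * D := by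
      have := mem_range.1 hj
      omega
    rw [← prod_abs (2 * D) j hj', norm_prod]
    have hcard : ((range (2 * D + 1)).erase j).card = 2 * D := by
      rw [card_erase_of_mem hj, card_range]
      omega
    have h1 : (2 * Real.pi * D / s) ^ (2 * D) =
        ∏ _i ∈ (range (2 * D + 1)).erase j, (2 * Real.pi * D / s) := by
      rw [prod_const, hcard]
    rw [h1, ← prod_div_distrib]
    refine prod_le_prod (fun i _ => norm_nonneg _) fun i hi => ?_
    have hi' : i ∈ range (2 * D + 1) := mem_of_mem_erase hi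
    have hne : i ≠ j := ne_of_mem_erase hi
    have h2 : 0 < |((j : ℝ) - i)| := by
      rw [abs_pos, sub_ne_zero]
      exact_mod_cast hne.symm
    have h3 := hu j hj i hi'
    have h4 : 0 < R * (2 / Real.pi * (|((j : ℝ) - i)| * (s / (2 * D)))) := by positivity
    have h5 : ‖cexp (I * ((t : ℂ) + y * I)) - u i‖ ≤ 2 * R := by
      refine (norm_sub_le _ _).trans ?_
      rw [hnorm t]
      have : ‖u i‖ = R := hnorm (τ i)
      linarith
    rw [norm_div]
    calc _ ≤ 2 * R / (R * (2 / Real.pi * (|((j : ℝ) - i)| * (s / (2 * D))))) := by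
          exact div_le_div₀ (by positivity) h5 h4 h3
      _ = 2 * Real.pi * D / s / |((j : ℝ) - i)| := by
          field_simp
  have hfac : ∀ j ∈ range (2 * D + 1), (2 * Real.pi * D / s) ^ (2 * D) /
      (j.factorial * (2 * D - j).factorial : ℝ) =
      (2 * Real.pi * D / s) ^ (2 * D) / ((2 * D).factorial : ℝ) * ((2 * D).choose j : ℝ) := by
    intro j hj
    have hj' : j ≤ 2 * D := by
      have := mem_range.1 hj
      omega
    have h1 := Nat.choose_mul_factorial_mul_factorial hj'
    have h2 : ((2 * D).choose j : ℝ) * j.factorial * (2 * D - j).factorial = (2 * D).factorial := by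
      exact_mod_cast h1
    have h3 : (0 : ℝ) < j.factorial := by positivity
    have h4 : (0 : ℝ) < (2 * D - j).factorial := by positivity
    have h5 : (0 : ℝ) < (2 * D).factorial := by positivity
    rw [div_mul_eq_mul_div, div_eq_div_iff (by positivity) (by positivity), ← h2]
    ring
  have hsum : ∑ j ∈ range (2 * D + 1), ((2 * D).choose j : ℝ) = 2 ^ (2 * D) := by
    exact_mod_cast Nat.sum_range_choose (2 * D)
  calc ‖∑ j ∈ range (2 * D + 1), p.eval (u j) *
        ∏ i ∈ (range (2 * D + 1)).erase j, (cexp (I * ((t : ℂ) + y * I)) - u i) / (u j - u i)‖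
      ≤ ∑ j ∈ range (2 * D + 1), M * R ^ D * ((2 * Real.pi * D / s) ^ (2 * D) /
          ((2 * D).factorial : ℝ) * ((2 * D).choose j : ℝ)) := by
        refine (norm_sum_le _ _).trans (sum_le_sum fun j hj => ?_)
        rw [norm_mul, ← hfac j hj]
        exact mul_le_mul (hpu j hj) (hQ j hj) (norm_nonneg _) (by positivity)
    _ = M * R ^ D * ((2 * Real.pi * D / s) ^ (2 * D) / ((2 * D).factorial : ℝ) * 2 ^ (2 * D)) := by
        rw [← mul_sum, ← mul_sum, hsum]
    _ ≤ M * R ^ D * (2 * Real.pi * Real.exp 1 / s) ^ (2 * D) := by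
        refine mul_le_mul_of_nonneg_left ?_ (by positivity)
        have h1 := Real.pow_div_factorial_le_exp (2 * D : ℝ) (by positivity) (2 * D)
        have h2 : (2 * Real.pi * D / s) ^ (2 * D) / ((2 * D).factorial : ℝ) * 2 ^ (2 * D) =
            (2 * Real.pi / s) ^ (2 * D) * ((2 * D : ℝ) ^ (2 * D) / ((2 * D).factorial : ℝ)) := by
          have e4 : (2 * Real.pi * D / s) ^ (2 * D) * 2 ^ (2 * D) =
              (2 * Real.pi / s) ^ (2 * D) * (2 * D : ℝ) ^ (2 * D) := by
            rw [← mul_pow, ← mul_pow]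
            congr 1
            ring
          rw [div_mul_eq_mul_div, e4]
          ring
        rw [h2]
        have h3 : (2 * Real.pi * Real.exp 1 / s) ^ (2 * D) =
            (2 * Real.pi / s) ^ (2 * D) * Real.exp (2 * D) := by
          have e5 : Real.exp (2 * D : ℝ) = Real.exp 1 ^ (2 * D) := by
            rw [← Real.exp_nat_mul]
            congr 1
            push_cast
            ring
          rw [e5, ← mul_pow]
          congr 1
          ring
        rw [h3]
        exact mul_le_mul_of_nonneg_left h1 (by positivity)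
    _ = R ^ D * (M * (2 * Real.pi * Real.exp 1 / s) ^ (2 * D)) := by ring

end TP

end ISR
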