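import Pool.Agent.ISR.TrigP

/-!
# Trigonometric polynomials: growth from a vertical segment (Bernstein, Walsh)

**`TP.bwv`**: `F` a trigonometric polynomial of degree `≤ D`, `‖F‖ ≤ M` on the vertical segment
`Re x = t0`, `|Im x - y0| ≤ s / 2`; then for ALL real parts and `|Im x - y0| ≤ ρ`, `s / 2 ≤ ρ`:
`‖F x‖ ≤ M * (4 exp (1 + 3 / 2 (ρ + s / 2)) / s) ^ (2 D)`.
-/

set_option autoImplicit false

open Complex Finset Polynomial

noncomputable section

namespace ISR

namespace TP

variable {D : ℕ} {F : ℂ → ℂ}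

/-- distance on a ray -/
theorem ray {t0 a b A : ℝ} (ha : a ≤ A) (hb : b ≤ A) :
    Real.exp (-A) * |a - b| ≤
      ‖cexp (I * ((t0 : ℂ) + a * I)) - cexp (I * ((t0 : ℂ) + b * I))‖ := by
  have e1 : ∀ a : ℝ, cexp (I * ((t0 : ℂ) + a * I)) = cexp (t0 * I) * ((Real.exp (-a) : ℝ) : ℂ) := by
    intro a
    rw [Complex.ofReal_exp, ← Complex.exp_add]
    congr 1
    push_cast
    linear_combination (a : ℂ) * I_mul_I
  rw [e1, e1, ← mul_sub, norm_mul, Complex.norm_exp_ofReal_mul_I, one_mul, ← Complex.ofReal_sub,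
    Complex.norm_real, Real.norm_eq_abs]
  have key : ∀ a b : ℝ, a ≤ b → b ≤ A → Real.exp (-A) * (b - a) ≤ Real.exp (-a) - Real.exp (-b) := by
    intro a b hab hbA
    have h1 : Real.exp (-b) * (b - a + 1) ≤ Real.exp (-a) := by
      have h2 := Real.add_one_le_exp (b - a)
      calc Real.exp (-b) * (b - a + 1) ≤ Real.exp (-b) * Real.exp (b - a) :=
            mul_le_mul_of_nonneg_left h2 (Real.exp_pos _).le
        _ = Real.exp (-a) := by rw [← Real.exp_add]; congr 1; ring
    have h3 : Real.exp (-A) ≤ Real.exp (-b) := Real.exp_le_exp.2 (by linarith)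
    have h4 : Real.exp (-A) * (b - a) ≤ Real.exp (-b) * (b - a) :=
      mul_le_mul_of_nonneg_right h3 (by linarith)
    nlinarith
  rcases le_total a b with h | h
  · rw [abs_sub_comm a b, abs_of_nonneg (by linarith : 0 ≤ b - a)]
    exact (key a b h hb).trans (le_abs_self _)
  · rw [abs_of_nonneg (by linarith : 0 ≤ a - b), abs_sub_comm]
    exact (key b a h ha).trans (le_abs_self _)

/-- **Bernstein, Walsh** from a vertical segment -/
theorem bwv (h : TP D F) {t0 y0 s ρ M : ℝ} (hs : 0 < s) (hsρ : s / 2 ≤ ρ)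
    (hM : ∀ y : ℝ, |y - y0| ≤ s / 2 → ‖F (t0 + y * I)‖ ≤ M) (t y : ℝ) (hy : |y - y0| ≤ ρ) :
    ‖F (t + y * I)‖ ≤ M * (4 * Real.exp (1 + 3 / 2 * (ρ + s / 2)) / s) ^ (2 * D) := by
  obtain ⟨p, hp, e⟩ := h
  have hM0 : 0 ≤ M := (norm_nonneg _).trans (hM y0 (by rw [sub_self, abs_zero]; linarith))
  rcases Nat.eq_zero_or_pos D with hD | hD
  · subst hD
    have h1 : p = C (p.coeff 0) := eq_C_of_natDegree_le_zero (by simpa using hp)
    have h2 : ∀ x, F x = p.coeff 0 := by
      intro x
      rw [e x, h1]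
      simp
    have h3 := hM y0 (by rw [sub_self, abs_zero]; linarith)
    rw [h2] at h3 ⊢
    simpa using h3
  have hDr : (0 : ℝ) < D := by exact_mod_cast hD
  -- the nodes
  let τ : ℕ → ℝ := fun j => y0 - s / 2 + j * (s / (2 * D))
  have hτd : ∀ i j : ℕ, |τ i - τ j| = |((i : ℝ) - j)| * (s / (2 * D)) := by
    intro i j
    have e3 : τ i - τ j = ((i : ℝ) - j) * (s / (2 * D)) := by
      show y0 - s / 2 + i * (s / (2 * D)) - (y0 - s / 2 + j * (s / (2 * D))) = _
      ring
    rw [e3, abs_mul, abs_of_pos (a := s / (2 * D)) (by positivity)]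
  have hτ0 : ∀ j ∈ range (2 * D + 1), |τ j - y0| ≤ s / 2 := by
    intro j hj
    have h1 : (j : ℝ) ≤ 2 * D := by
      have := mem_range.1 hj
      exact_mod_cast (by omega : j ≤ 2 * D)
    have h2 : (j : ℝ) * (s / (2 * D)) ≤ s := by
      calc (j : ℝ) * (s / (2 * D)) ≤ 2 * D * (s / (2 * D)) :=
            mul_le_mul_of_nonneg_right h1 (by positivity)
        _ = s := by field_simp
    have h3 : 0 ≤ (j : ℝ) * (s / (2 * D)) := by positivity
    rw [abs_le]
    constructor
    · show -(s / 2) ≤ y0 - s / 2 + j * (s / (2 * D)) - y0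
      linarith
    · show y0 - s / 2 + j * (s / (2 * D)) - y0 ≤ s / 2
      linarith
  set A : ℝ := y0 + s / 2 with hA
  have hτA : ∀ j ∈ range (2 * D + 1), τ j ≤ A := fun j hj => by
    have := (abs_le.1 (hτ0 j hj)).2
    rw [hA]
    linarith
  let u : ℕ → ℂ := fun j => cexp (I * ((t0 : ℂ) + τ j * I))
  have hu : ∀ i ∈ range (2 * D + 1), ∀ j ∈ range (2 * D + 1),
      Real.exp (-A) * (|((i : ℝ) - j)| * (s / (2 * D))) ≤ ‖u i - u j‖ := by
    intro i hi j hj
    rw [← hτd]
    exact ray (hτA i hi) (hτA j hj)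
  have hinj : Set.InjOn u (range (2 * D + 1)) := by
    intro i hi j hj hij
    by_contra hne
    have h1 := hu i hi j hj
    have h2 : 0 < |((i : ℝ) - j)| := by
      rw [abs_pos, sub_ne_zero]
      exact_mod_cast hne
    have h3 : 0 < Real.exp (-A) * (|((i : ℝ) - j)| * (s / (2 * D))) := by positivity
    rw [hij, sub_self, norm_zero] at h1
    linarith
  -- Lagrange
  have hdeg : p.degree < (range (2 * D + 1)).card := by
    rw [card_range]
    refine lt_of_le_of_lt degree_le_natDegree ?_
    exact_mod_cast (by omega : p.natDegree < 2 * D + 1)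
  have hL := Lagrange.eq_interpolate (v := u) hinj hdeg
  have hnorm : ∀ x y : ℝ, ‖cexp (I * ((x : ℂ) + y * I))‖ = Real.exp (-y) := by
    intro x y
    rw [Complex.norm_exp]
    congr 1
    simp
  have hnorm' : ∀ x y : ℝ, ‖cexp (-(D * (I * ((x : ℂ) + y * I))))‖ = (Real.exp (-y) ^ D)⁻¹ := by
    intro x y
    rw [Complex.exp_neg, norm_inv, Complex.exp_nat_mul, norm_pow, hnorm]
  set E : ℝ := Real.exp (-(y0 - s / 2)) with hE
  have hE0 : 0 < E := Real.exp_pos _
  have hpu : ∀ j ∈ range (2 * D + 1), ‖p.eval (u j)‖ ≤ M * E ^ D := by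
    intro j hj
    have h1 := hM (τ j) (hτ0 j hj)
    rw [e, norm_mul, hnorm', inv_mul_le_iff₀ (by positivity)] at h1
    refine h1.trans ?_
    rw [mul_comm]
    refine mul_le_mul_of_nonneg_left (pow_le_pow_left₀ (Real.exp_pos _).le ?_ _) hM0
    rw [hE, Real.exp_le_exp]
    have := (abs_le.1 (hτ0 j hj)).1
    linarith
  have hev : p.eval (cexp (I * ((t : ℂ) + y * I))) = ∑ j ∈ range (2 * D + 1), p.eval (u j) *
      ∏ i ∈ (range (2 * D + 1)).erase j, (cexp (I * ((t : ℂ) + y * I)) - u i) / (u j - u i) := by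
    conv_lhs => rw [hL]
    rw [Lagrange.interpolate_apply, eval_finsetSum]
    refine sum_congr rfl fun j _ => ?_
    rw [eval_mul, eval_C]
    congr 1
    rw [Lagrange.basis, eval_prod]
    refine prod_congr rfl fun i _ => ?_
    rw [Lagrange.basisDivisor, eval_mul, eval_C, eval_sub, eval_X, eval_C]
    rw [div_eq_inv_mul]
  rw [e, norm_mul, hnorm', inv_mul_le_iff₀ (by positivity), hev]
  set G : ℝ := Real.exp (-(y0 - ρ)) with hG
  have hG0 : 0 < G := Real.exp_pos _
  have hyG : Real.exp (-y) ≤ G := by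
    rw [hG, Real.exp_le_exp]
    have := (abs_le.1 hy).1
    linarith
  have hEG : E ≤ G := by
    rw [hG, hE, Real.exp_le_exp]
    linarith
  have hτE : ∀ j ∈ range (2 * D + 1), Real.exp (-(τ j)) ≤ E := by
    intro j hj
    rw [hE, Real.exp_le_exp]
    have := (abs_le.1 (hτ0 j hj)).1
    linarith
  set κ : ℝ := Real.exp (ρ + s / 2) with hκ
  have hκ0 : 0 < κ := Real.exp_pos _
  have hGA : G = κ * Real.exp (-A) := by
    rw [hG, hκ, hA, ← Real.exp_add]
    congr 1
    ring
  -- the products
  have hQ : ∀ j ∈ range (2 * D + 1),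
      ‖∏ i ∈ (range (2 * D + 1)).erase j, (cexp (I * ((t : ℂ) + y * I)) - u i) / (u j - u i)‖ ≤
      (4 * κ * D / s) ^ (2 * D) / (j.factorial * (2 * D - j).factorial) := by
    intro j hj
    have hj' : j ≤ 2 * D := by
      have := mem_range.1 hj
      omega
    rw [← prod_abs (2 * D) j hj', norm_prod]
    have hcard : ((range (2 * D + 1)).erase j).card = 2 * D := by
      rw [card_erase_of_mem hj, card_range]
      omega
    have h1 : (4 * κ * D / s) ^ (2 * D) =
        ∏ _i ∈ (range (2 * D + 1)).erase j, (4 * κ * D / s) := by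
      rw [prod_const, hcard]
    rw [h1, ← prod_div_distrib]
    refine prod_le_prod (fun i _ => norm_nonneg _) fun i hi => ?_
    have hi' : i ∈ range (2 * D + 1) := mem_of_mem_erase hi
    have hne : i ≠ j := ne_of_mem_erase hi
    have h2 : 0 < |((j : ℝ) - i)| := by
      rw [abs_pos, sub_ne_zero]
      exact_mod_cast hne.symm
    have h3 := hu j hj i hi'
    have h4 : 0 < Real.exp (-A) * (|((j : ℝ) - i)| * (s / (2 * D))) := by positivity
    have h5 : ‖cexp (I * ((t : ℂ) + y * I)) - u i‖ ≤ 2 * G := by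
      refine (norm_sub_le _ _).trans ?_
      rw [hnorm t y]
      have : ‖u i‖ = Real.exp (-(τ i)) := hnorm t0 (τ i)
      have h6 := hτE i hi'
      linarith
    rw [norm_div]
    calc _ ≤ 2 * G / (Real.exp (-A) * (|((j : ℝ) - i)| * (s / (2 * D)))) := by
          exact div_le_div₀ (by positivity) h5 h4 h3
      _ = 4 * κ * D / s / |((j : ℝ) - i)| := by
          rw [hGA]
          field_simp
          ring
  have hfac : ∀ j ∈ range (2 * D + 1), (4 * κ * D / s) ^ (2 * D) /
      (j.factorial * (2 * D - j).factorial : ℝ) =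
      (4 * κ * D / s) ^ (2 * D) / ((2 * D).factorial : ℝ) * ((2 * D).choose j : ℝ) := by
    intro j hj
    have hj' : j ≤ 2 * D := by
      have := mem_range.1 hj
      omega
    have h1 := Nat.choose_mul_factorial_mul_factorial hj'
    have h2 : ((2 * D).choose j : ℝ) * j.factorial * (2 * D - j).factorial = (2 * D).factorial := by
      exact_mod_cast h1
    have h3 : (0 : ℝ) < j.factorial := by positivity
    have h4 : (0 : ℝ) < (2 * D - j).factorial := by positivity
    have h5 : (0 : ℝ) < (2 * D).factorial := by positivity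
    rw [div_mul_eq_mul_div, div_eq_div_iff (by positivity) (by positivity), ← h2]
    ring
  have hsum : ∑ j ∈ range (2 * D + 1), ((2 * D).choose j : ℝ) = 2 ^ (2 * D) := by
    exact_mod_cast Nat.sum_range_choose (2 * D)
  calc ‖∑ j ∈ range (2 * D + 1), p.eval (u j) *
        ∏ i ∈ (range (2 * D + 1)).erase j, (cexp (I * ((t : ℂ) + y * I)) - u i) / (u j - u i)‖
      ≤ ∑ j ∈ range (2 * D + 1), M * E ^ D * ((4 * κ * D / s) ^ (2 * D) /
          ((2 * D).factorial : ℝ) * ((2 * D).choose j : ℝ)) := by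
        refine (norm_sum_le _ _).trans (sum_le_sum fun j hj => ?_)
        rw [norm_mul, ← hfac j hj]
        exact mul_le_mul (hpu j hj) (hQ j hj) (norm_nonneg _) (by positivity)
    _ = M * E ^ D * ((4 * κ * D / s) ^ (2 * D) / ((2 * D).factorial : ℝ) * 2 ^ (2 * D)) := by
        rw [← mul_sum, ← mul_sum, hsum]
    _ ≤ M * E ^ D * (4 * κ * Real.exp 1 / s) ^ (2 * D) := by
        refine mul_le_mul_of_nonneg_left ?_ (by positivity)
        have h1 := Real.pow_div_factorial_le_exp (2 * D : ℝ) (by positivity) (2 * D)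
        have h2 : (4 * κ * D / s) ^ (2 * D) / ((2 * D).factorial : ℝ) * 2 ^ (2 * D) =
            (4 * κ / s) ^ (2 * D) * ((2 * D : ℝ) ^ (2 * D) / ((2 * D).factorial : ℝ)) := by
          have e4 : (4 * κ * D / s) ^ (2 * D) * 2 ^ (2 * D) =
              (4 * κ / s) ^ (2 * D) * (2 * D : ℝ) ^ (2 * D) := by
            rw [← mul_pow, ← mul_pow]
            congr 1
            ring
          rw [div_mul_eq_mul_div, e4]
          ring
        rw [h2]
        have h3 : (4 * κ * Real.exp 1 / s) ^ (2 * D) =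
            (4 * κ / s) ^ (2 * D) * Real.exp (2 * D) := by
          have e5 : Real.exp (2 * D : ℝ) = Real.exp 1 ^ (2 * D) := by
            rw [← Real.exp_nat_mul]
            congr 1
            push_cast
            ring
          rw [e5, ← mul_pow]
          congr 1
          ring
        rw [h3]
        exact mul_le_mul_of_nonneg_left h1 (by positivity)
    _ ≤ Real.exp (-y) ^ D * (M * (4 * Real.exp (1 + 3 / 2 * (ρ + s / 2)) / s) ^ (2 * D)) := by
        have h1 : E ≤ Real.exp (-y) * κ := by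
          rw [hE, hκ, ← Real.exp_add, Real.exp_le_exp]
          have := (abs_le.1 hy).2
          linarith
        have h2 : (4 * Real.exp (1 + 3 / 2 * (ρ + s / 2)) / s) ^ (2 * D) =
            κ ^ D * (4 * κ * Real.exp 1 / s) ^ (2 * D) := by
          have e6 : Real.exp (1 + 3 / 2 * (ρ + s / 2)) ^ 2 = κ * (κ * Real.exp 1) ^ 2 := by
            rw [hκ, ← Real.exp_add, ← Real.exp_nat_mul, ← Real.exp_nat_mul, ← Real.exp_add]
            congr 1
            push_cast
            ring
          rw [pow_mul, pow_mul, ← mul_pow]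
          congr 1
          calc (4 * Real.exp (1 + 3 / 2 * (ρ + s / 2)) / s) ^ 2 =
                (4 / s) ^ 2 * Real.exp (1 + 3 / 2 * (ρ + s / 2)) ^ 2 := by ring
            _ = _ := by
                rw [e6]
                ring
        rw [h2]
        calc M * E ^ D * (4 * κ * Real.exp 1 / s) ^ (2 * D) ≤
              M * (Real.exp (-y) * κ) ^ D * (4 * κ * Real.exp 1 / s) ^ (2 * D) := by
                gcongr
          _ = _ := by
              rw [mul_pow]
              ring

end TP

end ISR
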